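import Pool.Agent.Lib.T3S.Blue

/-! Row CONCAT: two halves joined by a light edge. -/

namespace Pool.Agent.Lib.T3S

open MeasureTheory ProbabilityTheory Filter Topology Finset Pool.Agent.Lib.V3
open Pool.Agent.Lib.V5 (SW T Sys Kes)
open Pool.Agent.Lib.T3X (Pth Dz bl near)
open scoped NNReal ENNReal

namespace CONCAT

theorem meas_le (u v : V) (c : ℝ) : MeasurableSet {τ : Cfg | T τ u v ≤ c} :=
  measurableSet_le (V5.T_meas u v) measurable_const

theorem low_le (u v : V) (c : ℝ) : IsLowerSet {τ : Cfg | T τ u v ≤ c} :=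
  fun _ _ h hτ => (V5.T_mono h u v).trans hτ

theorem meas_e (e : Sym2 V) (c : ℝ≥0) : MeasurableSet {τ : Cfg | τ e ≤ c} :=
  measurableSet_le (measurable_pi_apply e) measurable_const

theorem low_e (e : Sym2 V) (c : ℝ≥0) : IsLowerSet {τ : Cfg | τ e ≤ c} :=
  fun _ _ h hτ => (h e).trans hτ

/-- two passage times and a light edge between them -/
theorem join (p : Tb) {u v y z : V} (h : G.Adj y z) {a b s β : ℝ} (hβ : 0 ≤ β)
    (ha : β ≤ p.pr {τ | T τ u y ≤ a}) (hb : β ≤ p.pr {τ | T τ z v ≤ b})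
    (hs : a + p.lo + b ≤ s) : p.q * β ^ 2 ≤ p.pr {τ | T τ u v ≤ s} := by
  have h1 := T3X.bHAR p.toPar _ _ (meas_le u y a) (meas_le z v b) (low_le u y a) (low_le z v b)
  have h2 := T3X.bHAR p.toPar _ _ (meas_e s(y, z) p.lo) ((meas_le u y a).inter (meas_le z v b))
    (low_e s(y, z) p.lo) ((low_le u y a).inter (low_le z v b))
  have h3 : p.pr {τ : Cfg | τ s(y, z) ≤ p.lo} = p.q :=
    p.toPar.pr_eval s(y, z) (s := Set.Iic p.lo) measurableSet_Iic
  rw [h3] at h2
  have h4 : β ^ 2 ≤ p.pr ({τ : Cfg | T τ u y ≤ a} ∩ {τ : Cfg | T τ z v ≤ b}) := by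
    refine le_trans ?_ h1
    rw [sq]
    exact mul_le_mul ha hb hβ (hβ.trans ha)
  refine ((mul_le_mul_of_nonneg_left h4 p.q_pos.le).trans h2).trans (p.pr_mono ?_)
  rintro τ ⟨h5, h6, h7⟩
  have b1 := V5.T_tri τ u y v
  have b2 := V5.T_tri τ y z v
  have b3 := V5.T_adj τ h
  have b4 : (τ s(y, z) : ℝ) ≤ p.lo := NNReal.coe_le_coe.2 h5
  have b5 : T τ u y ≤ a := h6
  have b6 : T τ z v ≤ b := h7
  change T τ u v ≤ s
  linarith

end CONCAT

theorem bCONCAT (hD : St_DICH) : St_CONCAT := by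
  intro p j g π θ H ρ hA hq hθ hH' hρ hπ hps hP hG u v α t huv hπα hα hQ hO
  have θ0 : 0 < θ := hA.1
  have α0 : 0 < α := hπ.trans_le hπα
  have ρ0 : (0 : ℝ) ≤ ρ := Nat.cast_nonneg ρ
  have l1 : π * θ ≤ α * θ := mul_le_mul_of_nonneg_right hπα θ0.le
  rcases hD p j u v 1 ρ α θ t H le_rfl hρ α0 hα hA hQ hO (hps.trans l1) (by push_cast; linarith)
    (by rw [Nat.cast_one, one_mul]; exact hP.trans hπα) with h | ⟨S, y, z, A, B, hS, h⟩
  · refine le_trans ?_ (h.trans (p.pr_mono fun τ hτ => ?_))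
    · have h1 : θ ^ 17 ≤ θ := pow_le_of_le_one θ0.le (by linarith) (by norm_num)
      have h2 : α ^ 4 ≤ α := pow_le_of_le_one α0.le (by linarith) (by norm_num)
      have h3 : θ ^ 17 * α ^ 4 ≤ 1 / 2 * α :=
        mul_le_mul (h1.trans hθ) h2 (by positivity) (by norm_num)
      linarith
    · have h1 : T τ u v ≤ t - H + p.d / 2 := hτ
      change T τ u v ≤ t - (2 * g + p.d / 2)
      linarith
  · obtain ⟨i, hi⟩ : S.Nonempty := card_pos.1 (by omega)
    obtain ⟨i1, i2, hadj, hy, hz, qA, qB, hAB, oA, oB⟩ := h i hi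
    obtain rfl : i = 1 := le_antisymm i2 i1
    have l2 : α * θ ≤ 1 / 2 := by nlinarith
    have y1 : (ρ : ℝ) ≤ n1 (y 1 - u) := by
      have := hy.1
      push_cast at this
      linarith
    have z1 : (ρ : ℝ) ≤ n1 (v - z 1) := by
      have h1 := hz.2
      have h2 := n1_tri u (z 1) v
      push_cast at h1
      linarith
    have g1 := hG u (y 1) (α * θ) (A 1) y1 l1 l2 qA oA
    have g2 := hG (z 1) v (α * θ) (B 1) z1 l1 l2 qB oB
    have hd : p.d = (p.hi : ℝ) - p.lo := rfl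
    refine le_trans ?_ (CONCAT.join p hadj (s := t - (2 * g + p.d / 2)) (by positivity) g1 g2
      (by linarith))
    have e : θ ^ 17 * α ^ 4 = θ * (θ ^ 6 * (α * θ) ^ 2) ^ 2 := by ring
    rw [e]
    exact mul_le_mul_of_nonneg_right hq (by positivity)

end Pool.Agent.Lib.T3S
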