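import Pool.Agent.Lib.T3S.Blue

/-! Row DICH: gain at once, or split at many edges of the tube. -/

namespace Pool.Agent.Lib.T3S

open MeasureTheory ProbabilityTheory Filter Topology Finset Pool.Agent.Lib.V3
open Pool.Agent.Lib.V5 (SW T Sys Kes)
open Pool.Agent.Lib.T3X (Pth Dz bl near)
open scoped NNReal ENNReal

/-- some site of a ball starts a light path -/
lemma DICH.lig (hP : St_PEI) (p : Tb) (u : V) (n m : ℕ) :
    p.pr (⋃ y ∈ bl u n, Lig p.hi y m) ≤ (2 * (n : ℝ) + 1) ^ 3 * (1 / 2) ^ m := by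
  refine (p.pr_biUnion_le _ _).trans ?_
  refine (sum_le_card_nsmul _ _ ((1 / 2 : ℝ) ^ m) fun y _ => hP p.toPar p.hi p.light y _).trans ?_
  rw [nsmul_eq_mul]
  have c2 : ((bl u n).card : ℝ) ≤ (2 * (n : ℝ) + 1) ^ 3 := by exact_mod_cast T3X.card_bl u n
  exact mul_le_mul_of_nonneg_right c2 (by positivity)

/-- a value reached with probability above `ps` is not far below the functional -/
lemma DICH.low_out (p : Tb) {u y : V} {A : ℝ} (hy : n1 (y - u) ≤ p.Λ)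
    (h : p.ps < p.pr {τ | T τ u y ≤ A}) : p.ρ (y - u) - p.S ≤ A := by
  by_contra hc
  refine absurd ((p.pr_mono ?_).trans (p.out u)) (not_le.2 h)
  intro τ (hτ : T τ u y ≤ A)
  exact ⟨y, hy, by linarith [not_le.1 hc, p.ψ_nonneg (y - u)]⟩

lemma DICH.low_inn (p : Tb) {z v : V} {B : ℝ} (hz : n1 (v - z) ≤ p.Λ)
    (h : p.ps < p.pr {τ | T τ z v ≤ B}) : p.ρ (v - z) - p.S ≤ B := by
  by_contra hc
  refine absurd ((p.pr_mono ?_).trans (p.inn v)) (not_le.2 h)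
  intro τ (hτ : T τ z v ≤ B)
  exact ⟨z, hz, by linarith [not_le.1 hc]⟩

lemma DICH.ρ_tri (p : Tb) (u y v : V) : p.ρ (v - u) = p.ρ (y - u) + p.ρ (v - y) := by
  rw [← p.ρ_add]
  congr 1
  abel

lemma DICH.far {u v y : V} (h : n1 (y - u) ≤ n1 (v - u)) : n1 (v - y) ≤ 2 * n1 (v - u) := by
  have h1 := n1_tri y u v
  rw [n1_sub_comm u y] at h1
  linarith

lemma DICH.two_le (p : Tb) {j : ℕ} {u v : V} {t : ℝ} (h : Ok p (j + 1) u v t) :
    2 * n1 (v - u) ≤ p.Λ := by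
  have h1 : (1 : ℝ) ≤ 2 ^ j := one_le_pow₀ one_le_two
  have h2 := h.1
  rw [pow_succ] at h2
  nlinarith [n1_nonneg (v - u)]

/-- off the two exceptional events a site of a nearly optimal walk lies in the tube -/
lemma DICH.tube (p : Tb) {j : ℕ} {u v y : V} {t : ℝ} {τ : Cfg} (h : Ok p (j + 1) u v t)
    (hy : n1 (y - u) ≤ n1 (v - u))
    (h1 : τ ∉ {τ | ∃ y, n1 (y - u) ≤ p.Λ ∧ T τ u y < p.ρ (y - u) + p.ψ (y - u) - p.S})
    (h2 : τ ∉ {τ | ∃ y, n1 (v - y) ≤ p.Λ ∧ T τ y v < p.ρ (v - y) - p.S})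
    (h3 : T τ u y + T τ y v ≤ t + p.d / 2) : p.ψ (y - u) ≤ p.X := by
  have a0 := DICH.two_le p h
  have a1 : ¬T τ u y < p.ρ (y - u) + p.ψ (y - u) - p.S := fun k =>
    h1 ⟨y, by linarith [n1_nonneg (v - u)], k⟩
  have a2 : ¬T τ y v < p.ρ (v - y) - p.S := fun k => h2 ⟨y, (DICH.far hy).trans a0, k⟩
  have a3 := DICH.ρ_tri p u y v
  have a4 := h.2
  have a5 : (0 : ℝ) ≤ j * p.S1 := mul_nonneg (Nat.cast_nonneg _) p.S1_pos.le
  have a6 : p.S1 = 2 * p.S + p.b + p.d := rfl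
  push_cast at a4
  linarith [not_lt.1 a1, not_lt.1 a2, p.b_pos, p.d_pos]

/-- both legs of a split have room for one generation less -/
lemma DICH.legs (p : Tb) {j : ℕ} {u v y z : V} {t A B : ℝ} (h : Ok p (j + 1) u v t)
    (hy : n1 (y - u) ≤ n1 (v - u)) (hz : n1 (z - u) ≤ n1 (v - u)) (he : p.ρ (z - y) ≤ p.b)
    (hA : p.ps < p.pr {τ | T τ u y ≤ A}) (hB : p.ps < p.pr {τ | T τ z v ≤ B})
    (hs : A + B ≤ t + p.d) : Ok p j u y A ∧ Ok p j z v B := by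
  have a0 := DICH.two_le p h
  have n0 := n1_nonneg (v - u)
  have a1 := DICH.low_out p (by linarith) hA
  have a2 := DICH.low_inn p ((DICH.far hz).trans a0) hB
  have a3 := DICH.ρ_tri p u y v
  have a3' := DICH.ρ_tri p y z v
  have a4 := h.2
  have a6 : p.S1 = 2 * p.S + p.b + p.d := rfl
  have a7 := h.1
  have p0 : (0 : ℝ) ≤ 2 ^ j := by positivity
  rw [pow_succ] at a7
  push_cast at a4
  refine ⟨⟨?_, ?_⟩, ?_, ?_⟩
  · nlinarith [mul_le_mul_of_nonneg_left hy p0, mul_nonneg p0 n0]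
  · linarith [p.S_nonneg]
  · nlinarith [mul_le_mul_of_nonneg_left (DICH.far hz) p0]
  · linarith [p.S_nonneg]

theorem bDICH (hQ : St_QUANT) (hP : St_PEI) (hD : St_DET) (hM : St_MARK) : St_DICH := by
  classical
  intro p j u v M w α θ t H hM1 hw hα hα2 hA hq hO hps hd hs
  by_cases hG : α / 2 ≤ p.pr {τ | T τ u v ≤ t - H + p.d / 2}
  · exact Or.inl hG
  right
  have h0 : 0 < α * θ := mul_pos hα hA.1
  have h1' : α * θ ≤ α := mul_le_of_le_one_right hα.le hA.2.1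
  have h1 : α * θ < 1 := by linarith
  choose a ha using fun y => hQ p.toPar u y (α * θ) h0 h1
  choose b hb using fun z => hQ p.toPar v z (α * θ) h0 h1
  have k1 := hM p u v M w a b α θ t H hM1 hw hα hA (fun y => (ha y).1) (fun z => (hb z).1) hq.1
  have hM' : (1 : ℝ) ≤ M := by exact_mod_cast hM1
  have hw' : (2 : ℝ) ≤ w := by exact_mod_cast hw
  have hn1 : 2 * (((M + 1) * w : ℕ) : ℝ) + 1 ≤ 5 * ((M : ℝ) * w) := by
    push_cast
    nlinarith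
  have k2 : p.pr (⋃ y ∈ bl u ((M + 1) * w), Lig p.hi y (w - 1)) ≤ α / 8 := by
    refine (DICH.lig hP p u _ _).trans ?_
    have c3 : (2 * (((M + 1) * w : ℕ) : ℝ) + 1) ^ 3 ≤ (5 * ((M : ℝ) * w)) ^ 3 := by gcongr
    have c4 := mul_le_mul_of_nonneg_right c3 (by positivity : (0 : ℝ) ≤ (1 / 2) ^ (w - 1))
    have c5 : (5 * ((M : ℝ) * w)) ^ 3 * (1 / 2 : ℝ) ^ (w - 1) =
        1000 * ((M : ℝ) * w) ^ 3 * (1 / 2) ^ (w - 1) / 8 := by ring
    linarith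
  obtain ⟨τ, t1, t2, t3, t4, t5, t6⟩ : ∃ τ : Cfg, T τ u v ≤ t ∧ ¬T τ u v ≤ t - H + p.d / 2 ∧
      ¬M * (w - 1) ≤ 4 * (cnt p u v a (Dz (Tu p u ((M + 1) * w))) τ +
        cnt p v u b (Dz (Tu p u ((M + 1) * w))) τ) ∧
      (τ ∉ ⋃ y ∈ bl u ((M + 1) * w), Lig p.hi y (w - 1)) ∧
      τ ∉ {τ | ∃ y, n1 (y - u) ≤ p.Λ ∧ T τ u y < p.ρ (y - u) + p.ψ (y - u) - p.S} ∧
      τ ∉ {τ | ∃ y, n1 (v - y) ≤ p.Λ ∧ T τ y v < p.ρ (v - y) - p.S} := by
    by_contra hc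
    have hsub : {τ : Cfg | T τ u v ≤ t} ⊆ ((({τ | T τ u v ≤ t - H + p.d / 2} ∪
        {τ | (t - H + p.d / 2 ≤ T τ u v ∧ T τ u v ≤ t) ∧ M * (w - 1) ≤
          4 * (cnt p u v a (Dz (Tu p u ((M + 1) * w))) τ +
            cnt p v u b (Dz (Tu p u ((M + 1) * w))) τ)}) ∪
        ⋃ y ∈ bl u ((M + 1) * w), Lig p.hi y (w - 1)) ∪
        {τ | ∃ y, n1 (y - u) ≤ p.Λ ∧ T τ u y < p.ρ (y - u) + p.ψ (y - u) - p.S}) ∪
        {τ | ∃ y, n1 (v - y) ≤ p.Λ ∧ T τ y v < p.ρ (v - y) - p.S} := by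
      intro τ hτ
      by_contra hn'
      simp only [Set.mem_union, not_or] at hn'
      exact hc ⟨τ, hτ, hn'.1.1.1.1, fun h => hn'.1.1.1.2 ⟨⟨le_of_not_ge hn'.1.1.1.1, hτ⟩, h⟩,
        hn'.1.1.2, hn'.1.2, hn'.2⟩
    have e0 := (p.pr_mono hsub).trans (p.pr_union_le _ _)
    have e1 := e0.trans (add_le_add (p.pr_union_le _ _) (p.inn v))
    have e2 := e1.trans (add_le_add (add_le_add (p.pr_union_le _ _) (p.out u)) le_rfl)
    have e3 := e2.trans (add_le_add (add_le_add (add_le_add (p.pr_union_le _ _) k2) le_rfl) le_rfl)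
    linarith [hq.2, not_le.1 hG]
  obtain ⟨S, y, z, hS, h⟩ := hD p τ u v M w a b hw hd
    (fun y hy hL => t4 (Set.mem_biUnion (mem_coe.2 (T3X.mem_bl.2 hy)) hL))
    (fun y hy hT => DICH.tube p hO (hy.trans hd) t5 t6 (by linarith))
    (le_of_not_ge t3)
  refine ⟨S, y, z, fun i => a (y i), fun i => b (z i), hS, fun i hi => ?_⟩
  obtain ⟨j1, j2, j3, j4, j5, j6⟩ := h i hi
  have hB : Qt p.toPar (α * θ) (z i) v (b (z i)) := by
    have := hb (z i)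
    simpa only [Qt, V5.T_comm _ v (z i)] using this
  have hr : (((i + 1) * w : ℕ) : ℝ) ≤ n1 (v - u) :=
    le_trans (by exact_mod_cast Nat.mul_le_mul_right w (Nat.succ_le_succ j2)) hd
  have he : p.ρ (z i - y i) ≤ p.b := by
    have := (le_abs_self _).trans (p.ρ_le (z i - y i))
    rwa [n1_adj j3, mul_one] at this
  have hl : p.ps < α * θ := by linarith [p.ps_nonneg]
  have := DICH.legs p hO (j4.2.trans hr) (j5.2.trans hr) he (hl.trans_le (ha (y i)).2)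
    (hl.trans_le hB.2) (by linarith [p.d_pos, p.hi.coe_nonneg])
  exact ⟨j1, j2, j3, j4, j5, ha _, hB, by linarith, this.1, this.2⟩

end Pool.Agent.Lib.T3S
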