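import Pool.Agent.Lib.T3S.Blue

/-! Row RESET inside the tube. -/

namespace Pool.Agent.Lib.T3S

open MeasureTheory ProbabilityTheory Filter Topology Finset Pool.Agent.Lib.V3
open Pool.Agent.Lib.V5 (SW T Sys Kes)
open Pool.Agent.Lib.T3X (Pth Dz bl near)
open scoped NNReal ENNReal

namespace RESET

open Pool.Agent.Lib.V5 (T_tri T_adj T_mono T_meas)

/-- a measurable decreasing event of probability at least `b` -/
def Low (p : Par) (b : ℝ) (A : Set Cfg) : Prop :=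
  MeasurableSet A ∧ IsLowerSet A ∧ b ≤ p.pr A

lemma Low.inter {p : Par} {a b : ℝ} {A B : Set Cfg} (ha : Low p a A)
    (hb : Low p b B) (h0 : 0 ≤ b) : Low p (a * b) (A ∩ B) :=
  ⟨ha.1.inter hb.1, ha.2.1.inter hb.2.1, (mul_le_mul ha.2.2 hb.2.2 h0 (p.pr_nonneg _)).trans
    (T3X.bHAR p A B ha.1 hb.1 ha.2.1 hb.2.1)⟩

lemma lowT {p : Par} {u v : V} {b c : ℝ} (h : b ≤ p.pr {τ | T τ u v ≤ c}) :
    Low p b {τ | T τ u v ≤ c} :=
  ⟨measurableSet_le (T_meas u v) measurable_const, fun _ _ h1 h2 => (T_mono h1 u v).trans h2, h⟩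

lemma lowJ (p : Par) (e : Sym2 V) : Low p p.q {τ | τ e ≤ p.lo} :=
  ⟨measurableSet_le (measurable_pi_apply e) measurable_const, fun _ _ h1 h2 => (h1 e).trans h2,
    (p.pr_eval e (s := Set.Iic p.lo) measurableSet_Iic).ge⟩

lemma step {τ : Cfg} {y z : V} {c : ℝ≥0} (h : G.Adj y z) (h1 : τ s(y, z) ≤ c) : T τ y z ≤ c :=
  (T_adj τ h).trans (NNReal.coe_le_coe.2 h1)

lemma parity (S : Finset ℕ) :
    ∃ S' ⊆ S, S.card ≤ 2 * S'.card ∧ ∀ i ∈ S', ∀ j ∈ S', i < j → i + 2 ≤ j := by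
  have h := card_filter_add_card_filter_not (s := S) (fun i => i % 2 = 0)
  rcases le_total (S.filter fun i => i % 2 = 0).card (S.filter fun i => ¬i % 2 = 0).card
    with h1 | h1
  · refine ⟨_, filter_subset (fun i => ¬i % 2 = 0) S, by omega, fun i hi j hj hij => ?_⟩
    have := (mem_filter.1 hi).2
    have := (mem_filter.1 hj).2
    omega
  · refine ⟨_, filter_subset (fun i => i % 2 = 0) S, by omega, fun i hi j hj hij => ?_⟩
    have := (mem_filter.1 hi).2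
    have := (mem_filter.1 hj).2
    omega

lemma apart {u y z : V} {w i j L : ℕ} (hy : Sh u w i y) (hz : Sh u w j z) (hij : i + 2 ≤ j)
    (hL : 2 * L ≤ w) : Disjoint (near z L) (near y L) := by
  refine T3X.near_disjoint ?_
  have h1 : (i + 1) * w + 2 * L ≤ j * w :=
    calc (i + 1) * w + 2 * L ≤ (i + 1) * w + w := Nat.add_le_add_left hL _
      _ = (i + 2) * w := by ring
      _ ≤ j * w := Nat.mul_le_mul_right _ hij
  have h2 : (((i + 1) * w : ℕ) : ℝ) + 2 * L ≤ ((j * w : ℕ) : ℝ) := by exact_mod_cast h1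
  linarith [hy.2, hz.1, n1_tri u y z]

end RESET

open RESET in
open Pool.Agent.Lib.V5 (T_tri T_meas) in
theorem bRESET (hD : St_DICH) (hL : St_LOC) (hP : St_PLANT) : St_RESET := by
  intro p j₀ K g π c k ρ M w L hK hLin hg hc hG u v α t θ₁ θ₂ H₁ H₂ hα hα2 hQ hO hA1 hA2 hπ hps
    hM hw hρ c1 c2 c3 c4 c5 c6 c7
  have hq : 0 < p.q := p.q_pos
  have hd := p.d_pos
  have hd' : p.d = p.hi - p.lo := rfl
  have a1 : 0 < α * θ₁ := mul_pos hα hA1.1
  have a2 : 0 < α * θ₁ * θ₂ := mul_pos a1 hA2.1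
  have b1 : α * θ₁ ≤ 1 / 2 := (mul_le_of_le_one_right hα.le hA1.2.1).trans hα2
  have b2 : α * θ₁ * θ₂ ≤ 1 / 2 := (mul_le_of_le_one_right a1.le hA2.2.1).trans b1
  have r0 : (0 : ℝ) ≤ ρ := Nat.cast_nonneg _
  rw [Nat.cast_add, Nat.cast_mul 2 ρ, Nat.cast_ofNat] at c7
  rcases hD p (j₀ + 1) u v M w α θ₁ t H₁ hM hw hα hα2 hA1 hQ hO
    (hps.trans (mul_le_of_le_one_right a1.le hA2.2.1)) (by linarith) c1 with
    h | ⟨S, y, z, A, B, hS, h⟩
  · exact Or.inl h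
  right
  by_cases h2 : p.q * (α * θ₁) ^ 2 / 2 ≤ p.pr {τ | T τ u v ≤ t - H₂}
  · exact Or.inl h2
  right
  have key : ∀ i ∈ S, ∃ Φ W : Set Cfg, MeasurableSet Φ ∧ IsLowerSet Φ ∧ MeasurableSet W ∧
      IsLowerSet W ∧ Dep (near (z i) L) Φ ∧
      c * (α * θ₁ * θ₂) ^ k / 2 ≤ p.pr Φ ∧ p.q ^ 2 * (α * θ₁) * (α * θ₁ * θ₂) ≤ p.pr W ∧
      Φ ∩ W ⊆ {τ | T τ u v ≤ t - g} := by
    intro i hi
    obtain ⟨-, iM, adj, -, shz, qA, qB, hAB, -, oB⟩ := h i hi
    have d1 : (((i + 1) * w : ℕ) : ℝ) ≤ (((M + 1) * w : ℕ) : ℝ) :=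
      Nat.cast_le.2 (Nat.mul_le_mul_right _ (Nat.succ_le_succ iM))
    have d2 : (((1 + 1) * ρ : ℕ) : ℝ) = 2 * ρ := by push_cast; ring
    have d3 : (((1 + 1) * ρ : ℕ) : ℝ) ≤ n1 (v - z i) := by
      linarith [shz.2, n1_tri u (z i) v]
    have l1 := (lowT qA.2).inter (lowJ p.toPar s(y i, z i)) hq.le
    rcases hD p j₀ (z i) v 1 ρ (α * θ₁) θ₂ (B i) H₂ le_rfl hρ a1 b1 hA2 qB oB hps d3
      (by rw [Nat.cast_one, one_mul]; exact c2) with h' | ⟨S', y', z', A', B', hS', h'⟩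
    · refine absurd (le_trans ?_ ((l1.inter (lowT h') (by positivity)).2.2.trans
        (p.pr_mono ?_))) h2
      · exact le_of_eq (by ring)
      · rintro τ ⟨⟨k1, k2⟩, k3⟩
        have k1' : T τ u (y i) ≤ A i := k1
        have k3' : T τ (z i) v ≤ B i - H₂ + p.d / 2 := k3
        show T τ u v ≤ t - H₂
        linarith [step adj k2, T_tri τ u (y i) v, T_tri τ (y i) (z i) v]
    · obtain ⟨j, hj⟩ := card_pos.1 (by omega : 0 < S'.card)
      obtain ⟨j1, j2, adj', shy', -, qA', qB', hAB', oA', -⟩ := h' j hj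
      obtain rfl : j = 1 := le_antisymm j2 j1
      have e1 : (ρ : ℝ) ≤ n1 (y' 1 - z i) := by
        have := shy'.1
        rw [one_mul] at this
        exact this.le
      have e2 : n1 (y' 1 - z i) ≤ 2 * ρ := d2 ▸ shy'.2
      have e3 := hG (z i) (y' 1) _ _ e1 hπ b2 qA' oA'
      have e4 := (hLin (z i) (y' 1) _ (qA'.1.trans b2)).trans (mul_le_mul_of_nonneg_left e2 hK.le)
      obtain ⟨Φ, m1, m2, m3, m4, m5⟩ := hL p (z i) (y' 1) (A' 1 - g + p.d / 2) L (by linarith)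
      have e5 : p.pr {τ | T τ (z i) (y' 1) ≤ A' 1 - g} ≤
          p.pr {τ | T τ (z i) (y' 1) < A' 1 - g + p.d / 2} :=
        p.pr_mono fun τ (hτ : T τ (z i) (y' 1) ≤ A' 1 - g) =>
          show T τ (z i) (y' 1) < A' 1 - g + p.d / 2 by linarith
      have l2 := (l1.inter (lowJ p.toPar s(y' 1, z' 1)) hq.le).inter (lowT qB'.2) a2.le
      refine ⟨Φ, _, m1, m2, l2.1, l2.2.1, m3, by linarith,
        le_trans (le_of_eq (by ring)) l2.2.2, ?_⟩
      rintro τ ⟨k0, ⟨⟨k1, k2⟩, k3⟩, k4⟩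
      have k1' : T τ u (y i) ≤ A i := k1
      have k4' : T τ (z' 1) v ≤ B' 1 := k4
      show T τ u v ≤ t - g
      linarith [m4 τ k0, step adj k2, step adj' k3, T_tri τ u (y i) v, T_tri τ (y i) (z i) v,
        T_tri τ (z i) (y' 1) v, T_tri τ (y' 1) (z' 1) v]
  choose! Φ W hΦ using key
  obtain ⟨S₀, sub, hc0, hsep⟩ := parity S
  have x0 : 0 < c * (α * θ₁ * θ₂) ^ k := by positivity
  refine hP p.toPar ℕ S₀ Φ W _ (fun i => near (z i) L) _ (c * (α * θ₁ * θ₂) ^ k / 2) (by positivity)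
    (by positivity) (measurableSet_le (T_meas u v) measurable_const)
    (fun i hi => hΦ i (sub hi)) (fun i hi j hj hij => ?_) ?_
  · rcases lt_or_gt_of_ne hij with h3 | h3
    · exact (apart (h i (sub hi)).2.2.2.2.1 (h j (sub hj)).2.2.2.2.1 (hsep i hi j hj h3) c4).symm
    · exact apart (h j (sub hj)).2.2.2.2.1 (h i (sub hi)).2.2.2.2.1 (hsep j hj i hi h3) c4
  · have x1 : (M : ℝ) ≤ 4 * S₀.card := by exact_mod_cast (by omega : M ≤ 4 * S₀.card)
    have x2 := mul_le_mul_of_nonneg_right (mul_le_mul_of_nonneg_left x1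
      (sq_nonneg (p.q ^ 2 * (α * θ₁) * (α * θ₁ * θ₂)))) x0.le
    linarith

end Pool.Agent.Lib.T3S
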