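import Pool.Agent.Lib.T3S.Blue

/-! Row TOP: the variance bound fails. -/

namespace Pool.Agent.Lib.T3S

open MeasureTheory ProbabilityTheory Filter Topology Finset Pool.Agent.Lib.V3
open Pool.Agent.Lib.V5 (SW T Sys Kes)
open Pool.Agent.Lib.T3X (Pth Dz bl near)
open Pool.Agent.Lib.MP_eba68f_pr (lattice passage)
open scoped NNReal ENNReal

namespace TOP

lemma median {p : Sys} {σ X t : ℝ} {x : V} (hσ : 1 ≤ σ) (hV : p.VarM σ X) (hx : n1 x ≤ X)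
    (ht : p.pr {τ | T τ 0 x < t} ≤ 1 / 2) : t ≤ p.h x + 2 * σ := by
  by_contra hlt
  have h1 := hV.high 0 x (by rwa [sub_zero]) (show 0 < 2 * σ by linarith)
  rw [sub_zero] at h1
  have h2 : σ ^ 2 / (2 * σ) ^ 2 = 1 / 4 := by
    have : σ ≠ 0 := by linarith
    field_simp
    norm_num
  have hm : MeasurableSet {τ : Cfg | p.h x + 2 * σ ≤ T τ 0 x} :=
    measurableSet_le measurable_const (V5.T_meas 0 x)
  have h3 := p.pr_compl hm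
  have h4 : p.pr {τ : Cfg | p.h x + 2 * σ ≤ T τ 0 x}ᶜ ≤ p.pr {τ | T τ 0 x < t} :=
    p.pr_mono fun τ hτ =>
      lt_trans (not_le.1 (show ¬p.h x + 2 * σ ≤ T τ 0 x from hτ)) (not_le.1 hlt)
  linarith

lemma consts {q C : ℝ} (hq : 0 < q) (hq1 : q ≤ 1) (hC : 1 ≤ C) :
    ∃ c : ℝ, 0 < c ∧ c ≤ 1 / 2 ∧ c ≤ q ∧ 2560 ^ 2 * c * C = q ^ 2 := by
  have h0 : 0 < C := by linarith
  have h1 : (q / 2560) ^ 2 / C ≤ (q / 2560) ^ 2 := div_le_self (by positivity) hC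
  have h2 : q ^ 2 ≤ q := by nlinarith
  have h3 : (q / 2560) ^ 2 = q ^ 2 / 2560 ^ 2 := by ring
  refine ⟨(q / 2560) ^ 2 / C, by positivity, ?_, ?_, ?_⟩
  · rw [h3] at h1 ⊢
    linarith
  · rw [h3] at h1 ⊢
    linarith
  · field_simp

lemma adm {q C c d : ℝ} (k : ℕ) (h : 2560 ^ 2 * c * C = q ^ 2) :
    (2560 * (2 ^ (2 * k) * d)) ^ 2 * (c / 64 ^ k) * (C * 4 ^ k) = (q * d) ^ 2 := by
  have h1 : (2 : ℝ) ^ (2 * k) = 4 ^ k := by rw [pow_mul]; norm_num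
  have h2 : (64 : ℝ) ^ k = 4 ^ k * 4 ^ k * 4 ^ k := by rw [← mul_pow, ← mul_pow]; norm_num
  have h3 : (0 : ℝ) < 4 ^ k := by positivity
  rw [h1, h2, mul_pow q, ← h]
  field_simp

end TOP

theorem bTOP (hQ : St_QUANT) (hE : St_END) (hT : St_TUBE) (hA : St_ARITH) : St_TOP 3 := by
  intro p hR
  obtain ⟨C, Γ, hC, hΓ, hT⟩ := hT p hR
  obtain ⟨c, c0, c1, c2, c3⟩ := TOP.consts p.q_pos' p.q_le_one hC
  have hb := p.b_pos
  have hd : (0 : ℝ) < p.hi - p.lo := sub_pos.2 p.lo_lt_hi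
  have hlo : (0 : ℝ) ≤ p.lo := p.lo.coe_nonneg
  have hhi : (0 : ℝ) < p.hi := by linarith
  have hcb := p.c_le
  have hhc := p.hi_le_c
  obtain ⟨C₀, d1, d2⟩ : ∃ C₀ : ℕ, 2 ≤ C₀ ∧ 24 * p.b + (p.hi - p.lo) ≤ p.hi * C₀ := by
    obtain ⟨n, hn⟩ := exists_nat_ge ((24 * p.b + (p.hi - p.lo)) / p.hi)
    rw [div_le_iff₀ hhi] at hn
    refine ⟨n + 2, by omega, ?_⟩
    push_cast
    linarith
  obtain ⟨δ, e0, e1, e2⟩ : ∃ δ : ℝ, 0 < δ ∧ δ ≤ 1 ∧ δ ≤ p.hi - p.lo :=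
    ⟨min 1 (p.hi - p.lo), lt_min one_pos hd, min_le_left _ _, min_le_right _ _⟩
  obtain ⟨K, hK⟩ : ∃ K : ℝ, K = C + 2 + 2 * p.b := ⟨_, rfl⟩
  have hK1 : 1 ≤ K := by linarith
  have hCK : C ≤ K := by linarith
  obtain ⟨A, k₀, hA⟩ := hA c K δ C₀ c0 (by linarith) hK1 e0
  refine ⟨A, k₀, Γ + 1, by linarith, fun k σ hk hσ hσk hV => ?_⟩
  obtain ⟨M, ρ₀, n₁, Λ, L₀, a1, a2, a3, a4, a5, a6, a7, a8, a9, a10, a11⟩ := hA k hk
  obtain ⟨w, hw⟩ : ∃ w : ℕ, (w : ℝ) = 2 ^ (A * k ^ 3) := ⟨2 ^ (A * k ^ 3), by push_cast; rfl⟩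
  rw [← hw] at hV a8 a9
  have p1 : (1 : ℝ) ≤ 2 ^ k := one_le_pow₀ one_le_two
  have p2 : (1 : ℝ) ≤ 2 ^ (3 * (2 * k)) := one_le_pow₀ one_le_two
  have p3 : (4 : ℝ) ≤ 4 ^ k := le_self_pow₀ (by norm_num) (by omega)
  have p4 : (1 : ℝ) ≤ 64 ^ k := one_le_pow₀ (by norm_num)
  have p5 : (2 : ℝ) ^ (2 * k) = 4 ^ k := by rw [pow_mul]; norm_num
  have n0 : (0 : ℝ) ≤ n₁ := Nat.cast_nonneg _
  have l0 : (0 : ℝ) ≤ Λ := Nat.cast_nonneg _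
  have L0 : (0 : ℝ) ≤ L₀ := Nat.cast_nonneg _
  have s1 : σ ≤ 2 ^ k := (le_self_pow₀ hσ (by norm_num)).trans hσk
  have s2 : σ ^ 2 ≤ 2 ^ k := (pow_le_pow_right₀ hσ (by norm_num)).trans hσk
  have s4 : C * σ ^ 4 ≤ C * 2 ^ k := mul_le_mul_of_nonneg_left hσk (by linarith)
  have f1 : C * 2 ^ k ≤ K * 2 ^ k := mul_le_mul_of_nonneg_right hCK (by linarith)
  have f2 : C * n₁ ≤ K * n₁ := mul_le_mul_of_nonneg_right hCK n0
  have f3 : (n₁ : ℝ) ≤ K * n₁ := le_mul_of_one_le_left n0 hK1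
  have f4 : K * n₁ ≤ Λ := (le_mul_of_one_le_left (by linarith) p2).trans a6
  have f5 : (Λ : ℝ) ≤ w := (le_mul_of_one_le_left l0 hK1).trans a8
  have f6 : C * Λ ≤ w := (mul_le_mul_of_nonneg_right hCK l0).trans a8
  have f7 : (1 : ℝ) ≤ n₁ := (one_le_mul_of_one_le_of_one_le hK1 p1).trans a5
  have f8 : (1 : ℝ) ≤ w := by linarith
  have f9 : (w : ℝ) ≤ w ^ 4 := le_self_pow₀ f8 (by norm_num)
  have f10 : 0 ≤ Γ * (w : ℝ) ^ 4 := mul_nonneg hΓ (by linarith)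
  obtain ⟨P, x, hP, t1, t2, t3, t4, t5, t6, t7, t8⟩ := hT σ (4 ^ k) w Λ L₀ n₁ hσ (by linarith)
    (hV.mono (by linarith)) (by linarith) (by exact_mod_cast (show (n₁ : ℝ) ≤ w by linarith))
    (by exact_mod_cast (show (1 : ℝ) ≤ Λ by linarith)) a7 f6
  subst hP
  obtain ⟨t, ht⟩ := hQ P.toPar 0 x (1 / 2) (by norm_num) (by norm_num)
  have m1 := TOP.median hσ hV (show n1 x ≤ _ by linarith) ht.1
  have θ0 : 0 < c / 64 ^ k := div_pos c0 (by linarith)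
  have θ1 : c / 64 ^ k ≤ c := div_le_self c0.le p4
  obtain ⟨Y, hY⟩ : ∃ Y : ℝ, Y = K * (2 ^ k + L₀) := ⟨_, rfl⟩
  rw [← hY] at a10
  have b1 : P.c * L₀ ≤ P.b * L₀ := mul_le_mul_of_nonneg_right hcb L0
  have b2 : 0 ≤ P.b * L₀ := mul_nonneg hb.le L0
  have b3 : P.b ≤ P.b * 2 ^ k := le_mul_of_one_le_right hb.le p1
  have b4 : 0 ≤ C * L₀ := mul_nonneg (by linarith) L0
  have b5 : 0 ≤ C * 2 ^ k := mul_nonneg (by linarith) (by linarith)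
  have hY' : Y = C * 2 ^ k + 2 * 2 ^ k + 2 * (P.b * 2 ^ k) + C * L₀ + 2 * L₀ + 2 * (P.b * L₀) := by
    rw [hY, hK]
    ring
  have y1 : t - P.ρ x ≤ Y := by linarith
  have y2 : P.S ≤ Y := by linarith
  have y3 : P.S1 ≤ 3 * Y := by
    unfold Tb.S1 Tb.d
    linarith
  have y0 : 0 ≤ Y := P.S_nonneg.trans y2
  have k1 : (1 : ℝ) ≤ k := by exact_mod_cast a11
  have y4 : Y ≤ k * Y := le_mul_of_one_le_left y0 k1
  have y5 : k * P.S1 ≤ k * (3 * Y) := mul_le_mul_of_nonneg_left y3 (by linarith)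
  have y6 : δ * 4 ^ k ≤ 1 * 4 ^ k := mul_le_mul_of_nonneg_right e1 (by linarith)
  have y7 : δ * 4 ^ k ≤ (P.hi - P.lo) * 4 ^ k := mul_le_mul_of_nonneg_right e2 (by linarith)
  have y8 : (P.hi - P.lo : ℝ) * 4 ≤ (P.hi - P.lo) * 4 ^ k := mul_le_mul_of_nonneg_left p3 hd.le
  have hAdm : Adm P (c / 64 ^ k) (2 ^ (2 * k) * P.d) :=
    ⟨θ0, by linarith, mul_pos (by positivity) P.d_pos, by
      rw [t1, t3]
      exact (TOP.adm k c3).le⟩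
  have hps : 32 * P.ps ≤ (c / 64 ^ k) ^ (3 * (2 * k) + 6) := by
    refine le_trans ?_ a9
    rw [t5]
    gcongr
  have hρ : ((((4 * C₀ + 6) * M) ^ (2 * k) * ρ₀ : ℕ) : ℝ) ≤ n1 x := by
    have : ((3 * (((4 * C₀ + 6) * M) ^ (2 * k) * ρ₀) : ℕ) : ℝ) ≤ n₁ := by exact_mod_cast a4
    rw [Nat.cast_mul, Nat.cast_ofNat] at this
    linarith
  have hOk : Ok P (3 * (2 * k)) 0 x t := by
    refine ⟨?_, ?_⟩
    · rw [sub_zero, t2]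
      exact (mul_le_mul_of_nonneg_left (t7.trans f2) (by linarith)).trans a6
    · rw [sub_zero, t1]
      push_cast
      linarith
  have fin := hE P (c / 64 ^ k) t C₀ ρ₀ M (2 * k) x d1 d2 hAdm (by linarith) (by linarith) a1 a2 a3
    hps hρ ht hOk
  rw [p5] at fin
  unfold Tb.d at fin
  linarith

end Pool.Agent.Lib.T3S
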