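import Pool.Agent.Lib.T3S.Blue

/-! Row CH6: the chain of scales for every datum and every stopping scale. -/

namespace Pool.Agent.Lib.T3S

open MeasureTheory ProbabilityTheory Filter Topology Pool.Agent.Lib.V3
open Pool.Agent.Lib.V5 (SW T Sys Kes)
open scoped NNReal ENNReal

theorem bCH6 (h2 : V5.St_HALF5) (h3 : V5.St_LOW5) (h4 : V5.St_STEP5) (h5 : V5.St_START5)
    (h6 : V3.St_CHAIN2) : St_CH6 := by
  intro p
  obtain ⟨a₁, Γ₁, a1, g1, hH⟩ := h2 p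
  obtain ⟨a, Γ₂, a0, g2, hL⟩ := h3 p a₁ a1
  obtain ⟨B, β₀, c, Γ₃, B0, β0, c0, g3, hS⟩ := h4 p a a0
  obtain ⟨C, Γ₅, w₀, C0, g5, hT⟩ := h5 p
  obtain ⟨K, hK⟩ : ∃ K : ℝ, K = w₀ + c + ((C + 5 * B) / β₀) ^ 2 + 1 := ⟨_, rfl⟩
  have q0 : (0 : ℝ) ≤ w₀ := Nat.cast_nonneg _
  have q1 : 0 ≤ ((C + 5 * B) / β₀) ^ 2 := sq_nonneg _
  have g4 : 0 ≤ |p.D| := abs_nonneg _
  refine ⟨a₁, a, C + 5 * B, K, 4 * (Γ₂ + Γ₃ + Γ₁ * Γ₂ + Γ₁ * |p.D|) + Γ₅, a1, a0, by positivity,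
    by rw [hK]; linarith, by positivity, fun d σ w g h hV hw => ?_⟩
  have s4 : 1 ≤ σ ^ 4 := one_le_pow₀ h
  have s2 : 1 ≤ σ ^ 2 := one_le_pow₀ h
  have s1 : σ ≤ σ ^ 4 := le_self_pow₀ h (by norm_num)
  rw [hK] at hw
  have u0 : (w₀ : ℝ) * 1 ≤ w₀ * σ ^ 4 := mul_le_mul_of_nonneg_left s4 q0
  have u1 : 0 ≤ c * σ ^ 4 := by positivity
  have u2 : 0 ≤ ((C + 5 * B) / β₀) ^ 2 * σ ^ 4 := by positivity
  have w0 : w₀ ≤ w := by exact_mod_cast (by linarith : (w₀ : ℝ) ≤ w)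
  have w1 : (1 : ℝ) ≤ w := by linarith
  have w2 : σ ≤ (w : ℝ) ^ 2 := le_trans (by linarith) (le_self_pow₀ w1 (by norm_num))
  have ww : w ≤ w ^ 4 := Nat.le_self_pow (by norm_num) w
  have ww' : (w : ℝ) ≤ (w : ℝ) ^ 4 := by exact_mod_cast ww
  have hN : ((4 * w ^ 4 : ℕ) : ℝ) = 4 * (w : ℝ) ^ 4 := by push_cast; ring
  have W0 : 0 ≤ (w : ℝ) ^ 4 := by positivity
  have v1 := mul_nonneg g2 W0
  have v2 := mul_nonneg g3 W0
  have v3 := mul_nonneg (mul_nonneg g1 g2) W0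
  have v4 := mul_nonneg (mul_nonneg g1 g4) W0
  have v5 := mul_nonneg g5 W0
  have hLow := hL d _ σ (4 * w ^ 4) g h (by omega) (hV.mono (by rw [hN]; linarith))
    (hH d _ σ _ g h (hV.mono (by rw [hN]; linarith)))
  have hStep := hS d _ σ (4 * w ^ 4) g h (by omega) (hV.mono (by rw [hN]; linarith)) hLow
  obtain ⟨n, n1, n2, hP⟩ := hT d σ w w0 g h w2 (hV.mono (by linarith))
  refine ⟨hH d _ σ _ g h (hV.mono ?_), hLow.anti (by omega), fun k hk kw => ?_⟩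
  · have e1 : p.D * w ≤ |p.D| * (w : ℝ) ^ 4 :=
      mul_le_mul (le_abs_self _) ww' (Nat.cast_nonneg _) g4
    have := mul_le_mul_of_nonneg_left e1 g1
    linarith
  rw [hK] at hk
  have k1 : (1 : ℝ) ≤ k := by linarith
  have k1' : 1 ≤ k := by exact_mod_cast k1
  have r0 : 0 < √(k : ℝ) := Real.sqrt_pos.2 (by linarith)
  have key : ∀ {i k : ℕ}, 1 ≤ k → k ≤ w → k ≤ i →
      C / √(w : ℝ) + 5 * B * σ ^ 2 / √(i : ℝ) ≤ (C + 5 * B) * σ ^ 2 / √(k : ℝ) := by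
    intro i k k1 k2 k3
    have k0 : 0 < √(k : ℝ) := Real.sqrt_pos.2 (by exact_mod_cast k1)
    rw [add_mul, add_div]
    exact add_le_add
      (div_le_div₀ (by positivity) (le_mul_of_one_le_right C0 s2) k0
        (Real.sqrt_le_sqrt (by exact_mod_cast k2)))
      (div_le_div_of_nonneg_left (by positivity) k0 (Real.sqrt_le_sqrt (by exact_mod_cast k3)))
  obtain ⟨m, m1, m2, hm⟩ := h6 (p.PP d σ) (fun n => 5 * B * σ ^ 2 / √(n : ℝ))
    (fun n => B * σ ^ 2 / √(n : ℝ)) (C / √(w : ℝ)) β₀ k (4 * w ^ 4) k1' (by positivity)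
    (fun n => by positivity) (fun n => by positivity) (Sys.PP_mono d σ)
    (fun n β hn hn' b0 b1 hP => hStep n β (by
      have : (k : ℝ) ≤ n := by exact_mod_cast hn
      linarith) hn' b0 b1 hP)
    (fun n n' k1 k2 => by
      have a0 : (1 : ℝ) ≤ n' := by exact_mod_cast k1
      have a1 : 3 * (n' : ℝ) ≤ 2 * n := by exact_mod_cast k2
      have a2 : 0 < √(n' : ℝ) := Real.sqrt_pos.2 (by linarith)
      have a3 : 6 / 5 * √(n' : ℝ) ≤ √(n : ℝ) := by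
        refine Real.le_sqrt_of_sq_le ?_
        rw [mul_pow, Real.sq_sqrt (by linarith)]
        linarith
      rw [← add_div, div_le_div_iff₀ (by linarith) a2]
      nlinarith [mul_le_mul_of_nonneg_left a3 (by positivity : 0 ≤ B * σ ^ 2)])
    (fun n hn => (key k1' kw hn).trans (by
      have a1 : (C + 5 * B) / β₀ * σ ^ 2 ≤ √(k : ℝ) := by
        refine Real.le_sqrt_of_sq_le ?_
        rw [mul_pow, ← pow_mul]
        linarith
      rw [div_mul_eq_mul_div, div_le_iff₀ β0] at a1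
      rw [div_le_iff₀ r0]
      linarith))
    n (kw.trans (ww.trans n1)) n2
    (Sys.PP_mono d σ n _ _ (by positivity) (le_add_of_nonneg_right (by positivity)) hP)
  exact ⟨m, m1, m2,
    Sys.PP_mono d σ m _ _ (by positivity) (key (by omega) (m2.le.trans kw) le_rfl) hm⟩

end Pool.Agent.Lib.T3S
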