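import Pool.Agent.Lib.T3S.Blue
import Pool.Agent.Lib.V3.B_WIN

/-! Row COUNT: the number of sites of small cost within a given distance. -/

namespace Pool.Agent.Lib.T3S

open MeasureTheory ProbabilityTheory Filter Topology Finset Pool.Agent.Lib.V3
open Pool.Agent.Lib.V5 (SW T Sys Kes)
open Pool.Agent.Lib.T3X (Pth Dz bl near)
open Pool.Agent.Lib.MP_eba68f_pr (lattice passage)
open scoped NNReal ENNReal

namespace COUNT

/-- sites of positive height at most `n` in the window of size `u` -/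
lemma layers (d : Dat) (W : Finset V) {n u : ℝ} (hn : 0 ≤ n) (hu : 1 ≤ u)
    (h : ∀ z ∈ W, 0 < z 0 ∧ (z 0 : ℝ) ≤ n ∧ d.eta z ≤ u) : (W.card : ℝ) ≤ n * (9 * u) := by
  classical
  choose A hA hc using fun j : ℤ => bWIN d j u hu
  have h1 : W ⊆ (Icc (1 : ℤ) ⌊n⌋).biUnion A := fun z hz => by
    obtain ⟨a, b, c⟩ := h z hz
    exact mem_biUnion.2 ⟨z 0, mem_Icc.2 ⟨a, Int.le_floor.2 b⟩, (hA _ _).2 ⟨rfl, c⟩⟩
  have h2 : (W.card : ℝ) ≤ ∑ j ∈ Icc (1 : ℤ) ⌊n⌋, ((A j).card : ℝ) := by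
    exact_mod_cast (card_le_card h1).trans card_biUnion_le
  have h3 : ∑ j ∈ Icc (1 : ℤ) ⌊n⌋, ((A j).card : ℝ) ≤ ∑ _j ∈ Icc (1 : ℤ) ⌊n⌋, 9 * u :=
    sum_le_sum fun j _ => hc j
  have h4 : ((Icc (1 : ℤ) ⌊n⌋).card : ℝ) ≤ n := by
    have h5 : 0 ≤ ⌊n⌋ := Int.floor_nonneg.2 hn
    have h6 : ((Icc (1 : ℤ) ⌊n⌋).card : ℤ) = ⌊n⌋ := by
      rw [Int.card_Icc]
      omega
    have h7 : ((Icc (1 : ℤ) ⌊n⌋).card : ℝ) = (⌊n⌋ : ℝ) := by exact_mod_cast h6
    rw [h7]
    exact Int.floor_le n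
  rw [sum_const, nsmul_eq_mul] at h3
  exact h2.trans (h3.trans (mul_le_mul_of_nonneg_right h4 (by linarith)))

/-- sites near the origin -/
lemma ball (W : Finset V) {n X k : ℝ} (hn : 1 ≤ n) (hX : 1 ≤ X) (hk : 0 ≤ k)
    (h : ∀ z ∈ W, n1 z ≤ n ∧ n1 z ≤ k * X) : (W.card : ℝ) ≤ 9 * (2 * k + 1) * n ^ 2 * X := by
  have hkX : 0 ≤ k * X := mul_nonneg hk (by linarith)
  have ht : 0 ≤ min n (k * X) := le_min (by linarith) hkX
  have h1 := T3X.card_near W 0 ht fun w hw => by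
    rw [sub_zero]
    exact le_min (h w hw).1 (h w hw).2
  have a1 : 2 * min n (k * X) + 1 ≤ 3 * n := by linarith [min_le_left n (k * X)]
  have a2 : 2 * min n (k * X) + 1 ≤ (2 * k + 1) * X := by linarith [min_le_right n (k * X)]
  have a3 : (2 * min n (k * X) + 1) ^ 2 ≤ (3 * n) ^ 2 := pow_le_pow_left₀ (by linarith) a1 2
  calc (W.card : ℝ) ≤ (2 * min n (k * X) + 1) ^ 2 * (2 * min n (k * X) + 1) := by
        rw [← pow_succ]
        exact h1
    _ ≤ (3 * n) ^ 2 * ((2 * k + 1) * X) := mul_le_mul a3 a2 (by linarith) (sq_nonneg _)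
    _ = 9 * (2 * k + 1) * n ^ 2 * X := by ring

end COUNT

theorem bCOUNT : St_COUNT := fun p => by
  classical
  have he := p.eps_pos
  have he1 := p.eps_le_one
  have hc := p.c_pos
  have hk : 0 ≤ 4 / p.c := div_nonneg (by norm_num) hc.le
  have hi : 0 ≤ 180 / p.eps := div_nonneg (by norm_num) he.le
  refine ⟨180 / p.eps + 9 * (2 * (4 / p.c) + 1), by linarith, fun d W n X hn hX h => ?_⟩
  have hnX : 1 ≤ X * n := one_le_mul_of_one_le_of_one_le hX hn
  have hu : 1 ≤ 20 * (X * n) / p.eps := by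
    rw [le_div_iff₀ he]
    linarith
  have h1 := COUNT.layers d (W.filter fun z => Cone p z) (n := n) (by linarith) hu fun z hz => by
    obtain ⟨hz, hcz⟩ := mem_filter.1 hz
    obtain ⟨a, b⟩ := h z hz
    have h0 : (0 : ℝ) < z 0 := by exact_mod_cast hcz.1
    have hj : (z 0 : ℝ) ≤ n := ((le_abs_self _).trans (T3X.abs_le_n1 z 0)).trans a
    refine ⟨hcz.1, hj, ?_⟩
    unfold psi at b
    rw [if_pos hcz, div_le_iff₀ h0] at b
    have b2 : X * z 0 ≤ X * n := mul_le_mul_of_nonneg_left hj (by linarith)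
    rw [le_div_iff₀ he]
    linarith
  have h2 := COUNT.ball (W.filter fun z => ¬ Cone p z) hn hX hk fun z hz => by
    obtain ⟨hz, hcz⟩ := mem_filter.1 hz
    obtain ⟨a, b⟩ := h z hz
    refine ⟨a, ?_⟩
    unfold psi at b
    rw [if_neg hcz] at b
    rw [div_mul_eq_mul_div, le_div_iff₀ hc]
    linarith
  have h3 : (W.card : ℝ) = ((W.filter fun z => Cone p z).card : ℝ) +
      ((W.filter fun z => ¬ Cone p z).card : ℝ) := by
    exact_mod_cast (card_filter_add_card_filter_not (s := W) fun z => Cone p z).symm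
  have h4 : n * (9 * (20 * (X * n) / p.eps)) = 180 / p.eps * n ^ 2 * X := by ring
  rw [h3, add_mul, add_mul, ← h4]
  exact add_le_add h1 h2

end Pool.Agent.Lib.T3S
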