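import Pool.Agent.Lib.T3S.Blue

/-! Row DET: good edges in half of the shells. -/

namespace Pool.Agent.Lib.T3S

open Finset Pool.Agent.Lib.V3
open Pool.Agent.Lib.V5 (T T_comm T_tri T_adj)
open Pool.Agent.Lib.T3X (Pth Dz mem_Dz)
open scoped NNReal

namespace DET

theorem sh_inj {u y : V} {w i j : ℕ} (h1 : Sh u w i y) (h2 : Sh u w j y) : i = j := by
  have key : ∀ {i j : ℕ}, Sh u w i y → Sh u w j y → i < j + 1 := fun {i j} h1 h2 => by
    have h : ((i * w : ℕ) : ℝ) < (((j + 1) * w : ℕ) : ℝ) := h1.1.trans_le h2.2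
    exact Nat.lt_of_mul_lt_mul_right (Nat.cast_lt.1 h)
  have := key h1 h2
  have := key h2 h1
  omega

end DET

open Classical in
theorem bDET (hS : St_SEG) : St_DET := by
  intro p τ u v M w a b hw hv hL hψ hc
  have hd := p.d_pos
  have hle : ∀ i, i ≤ M → (((i + 1) * w : ℕ) : ℝ) ≤ (((M + 1) * w : ℕ) : ℝ) := fun i hi =>
    Nat.cast_le.2 (Nat.mul_le_mul_right _ (by omega))
  have hex : ∀ i, ∃ g : ℕ → V, i ≤ M → Pth (w - 1) g ∧ (∀ j, j ≤ w - 1 → Sh u w i (g j)) ∧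
      ∀ j, j < w - 1 →
        T τ u (g j) + τ s(g j, g (j + 1)) + T τ (g (j + 1)) v ≤ T τ u v + p.d / 2 := by
    intro i
    by_cases hi : i ≤ M
    · obtain ⟨g, hg⟩ := hS τ u v w i (p.d / 2) (by omega) (by linarith) ((hle i hi).trans hv)
      exact ⟨g, fun _ => hg⟩
    · exact ⟨fun _ => u, fun h => absurd h hi⟩
  choose g hg using hex
  set n := (M + 1) * w with hn
  set Gd : ℕ → ℕ → Prop := fun i j => a (g i j) + p.hi + b (g i (j + 1)) ≤ T τ u v + p.d / 2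
    with hGd
  set S := (Icc 1 M).filter fun i => ∃ j, j < w - 1 ∧ Gd i j with hSd
  set Bd := (Icc 1 M).filter fun i => ¬ ∃ j, j < w - 1 ∧ Gd i j with hBd
  set X : ℕ → Finset ℕ := fun i => (range (w - 1)).filter
    fun j => τ ∈ Ev p u v a (g i j) (g i (j + 1)) with hX
  set Y : ℕ → Finset ℕ := fun i => (range (w - 1)).filter
    fun j => τ ∈ Ev p v u b (g i (j + 1)) (g i j) with hY
  have hB : ∀ i ∈ Bd, w - 1 ≤ 2 * ((X i).card + (Y i).card) := by
    intro i hi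
    obtain ⟨hi1, hi2⟩ := mem_filter.1 hi
    have hiM := (mem_Icc.1 hi1).2
    obtain ⟨g1, g2, g3⟩ := hg i hiM
    have l1 : 2 * ((range (w - 1)).filter fun j => τ s(g i j, g i (j + 1)) ≤ p.hi).card < w - 1 :=
      not_le.1 fun h => hL (g i 0) ((g2 0 (by omega)).2.trans (hle i hiM)) ⟨g i, rfl, g1, h⟩
    have sub : range (w - 1) ⊆
        ((range (w - 1)).filter fun j => τ s(g i j, g i (j + 1)) ≤ p.hi) ∪ (X i ∪ Y i) := by
      intro j hj
      have hj' := mem_range.1 hj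
      by_contra hcon
      simp only [hX, hY, mem_union, mem_filter, not_or, not_and] at hcon
      obtain ⟨c1, c2, c3⟩ := hcon
      have h1 : p.hi < τ s(g i j, g i (j + 1)) := not_le.1 (c1 hj)
      have h2 := g3 j hj'
      have h3 : a (g i j) ≤ T τ u (g i j) := not_lt.1 fun h => c2 hj ⟨h2, h1, h⟩
      have h4 : b (g i (j + 1)) ≤ T τ v (g i (j + 1)) := not_lt.1 fun h => c3 hj (by
        refine ⟨?_, by rwa [Sym2.eq_swap], h⟩
        rw [Sym2.eq_swap, T_comm τ v (g i (j + 1)), T_comm τ (g i j) u, T_comm τ v u]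
        linarith)
      have h5 : (p.hi : ℝ) < τ s(g i j, g i (j + 1)) := h1
      rw [T_comm τ v] at h4
      exact hi2 ⟨j, hj', by simp only [hGd]; linarith⟩
    have h1 := (card_le_card sub).trans (card_union_le _ _)
    have h2 := card_union_le (X i) (Y i)
    rw [card_range] at h1
    omega
  have bM : ∀ i ∈ Bd, i ≤ M := fun i hi => (mem_Icc.1 (mem_filter.1 hi).1).2
  have tu : ∀ i, i ≤ M → ∀ j, j < w - 1 → g i j ∈ Tu p u n ∧ g i (j + 1) ∈ Tu p u n := by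
    intro i hi j hj
    obtain ⟨g1, g2, g3⟩ := hg i hi
    have e1 := (g2 j hj.le).2.trans (hle i hi)
    have e2 := (g2 (j + 1) hj).2.trans (hle i hi)
    have e3 := g3 j hj
    have e4 := T_adj τ (g1.1 j hj)
    have e5 := T_tri τ (g i j) (g i (j + 1)) v
    have e6 := T_tri τ u (g i j) (g i (j + 1))
    exact ⟨mem_Tu.2 ⟨e1, hψ _ e1 (by linarith)⟩, mem_Tu.2 ⟨e2, hψ _ e2 (by linarith)⟩⟩
  have cX : ∑ i ∈ Bd, (X i).card ≤ cnt p u v a (Dz (Tu p u n)) τ := by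
    rw [← card_sigma]
    refine card_le_card_of_injOn (fun k => (g k.1 k.2, g k.1 (k.2 + 1))) (fun k hk => ?_)
      fun k hk k' hk' h => ?_
    · obtain ⟨h1, h2⟩ := mem_sigma.1 (mem_coe.1 hk)
      obtain ⟨h3, h4⟩ := mem_filter.1 h2
      have h5 := mem_range.1 h3
      exact mem_coe.2 (mem_filter.2 ⟨mem_Dz.2 ⟨(tu _ (bM _ h1) _ h5).1,
        (hg k.1 (bM _ h1)).1.1 _ h5⟩, h4⟩)
    · obtain ⟨i, j⟩ := k
      obtain ⟨i', j'⟩ := k'
      obtain ⟨h1, h2⟩ := mem_sigma.1 (mem_coe.1 hk)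
      obtain ⟨h1', h2'⟩ := mem_sigma.1 (mem_coe.1 hk')
      have h5 : j < w - 1 := mem_range.1 (mem_filter.1 h2).1
      have h5' : j' < w - 1 := mem_range.1 (mem_filter.1 h2').1
      have e : g i j = g i' j' := congrArg Prod.fst h
      have e1 : i = i' := DET.sh_inj ((hg i (bM _ h1)).2.1 j h5.le)
        (e ▸ (hg i' (bM _ h1')).2.1 j' h5'.le)
      subst e1
      rw [(hg i (bM _ h1)).1.2 j j' h5.le h5'.le e]
  have cY : ∑ i ∈ Bd, (Y i).card ≤ cnt p v u b (Dz (Tu p u n)) τ := by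
    rw [← card_sigma]
    refine card_le_card_of_injOn (fun k => (g k.1 (k.2 + 1), g k.1 k.2)) (fun k hk => ?_)
      fun k hk k' hk' h => ?_
    · obtain ⟨h1, h2⟩ := mem_sigma.1 (mem_coe.1 hk)
      obtain ⟨h3, h4⟩ := mem_filter.1 h2
      have h5 := mem_range.1 h3
      exact mem_coe.2 (mem_filter.2 ⟨mem_Dz.2 ⟨(tu _ (bM _ h1) _ h5).2,
        ((hg k.1 (bM _ h1)).1.1 _ h5).symm⟩, h4⟩)
    · obtain ⟨i, j⟩ := k
      obtain ⟨i', j'⟩ := k'
      obtain ⟨h1, h2⟩ := mem_sigma.1 (mem_coe.1 hk)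
      obtain ⟨h1', h2'⟩ := mem_sigma.1 (mem_coe.1 hk')
      have h5 : j < w - 1 := mem_range.1 (mem_filter.1 h2).1
      have h5' : j' < w - 1 := mem_range.1 (mem_filter.1 h2').1
      have e : g i j = g i' j' := congrArg Prod.snd h
      have e1 : i = i' := DET.sh_inj ((hg i (bM _ h1)).2.1 j h5.le)
        (e ▸ (hg i' (bM _ h1')).2.1 j' h5'.le)
      subst e1
      rw [(hg i (bM _ h1)).1.2 j j' h5.le h5'.le e]
  have h1 : Bd.card * (w - 1) ≤ ∑ i ∈ Bd, 2 * ((X i).card + (Y i).card) := by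
    simpa using card_nsmul_le_sum Bd (fun i => 2 * ((X i).card + (Y i).card)) (w - 1) hB
  rw [← mul_sum, sum_add_distrib] at h1
  have h2 : 2 * Bd.card ≤ M := by
    refine Nat.le_of_mul_le_mul_right (c := w - 1) ?_ (by omega)
    rw [mul_assoc]
    omega
  have h3 : S.card + Bd.card = M := by
    have := card_filter_add_card_filter_not (s := Icc 1 M) fun i => ∃ j, j < w - 1 ∧ Gd i j
    rw [Nat.card_Icc, ← hSd, ← hBd] at this
    omega
  have hch : ∀ i, ∃ j, i ∈ S → j < w - 1 ∧ Gd i j := fun i => by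
    by_cases hi : i ∈ S
    · obtain ⟨j, hj⟩ := (mem_filter.1 hi).2
      exact ⟨j, fun _ => hj⟩
    · exact ⟨0, fun h => absurd h hi⟩
  choose J hJ using hch
  refine ⟨S, fun i => g i (J i), fun i => g i (J i + 1), by omega, fun i hi => ?_⟩
  obtain ⟨i1, i2⟩ := mem_Icc.1 (mem_filter.1 hi).1
  obtain ⟨j1, j2⟩ := hJ i hi
  obtain ⟨g1, g2, -⟩ := hg i i2
  exact ⟨i1, i2, g1.1 _ j1, g2 _ j1.le, g2 _ j1, j2⟩

end Pool.Agent.Lib.T3S
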