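import Pool.Agent.Lib.T3S.Blue
import Pool.Agent.Lib.V5.B_FINAL5
import Pool.Agent.Lib.V3.Sep47

/-! Row FASTX: fast walks below a plane are very rare. -/

namespace Pool.Agent.Lib.T3S

open MeasureTheory ProbabilityTheory Filter Topology Finset SimpleGraph Pool.Agent.Lib.V3
open Pool.Agent.Lib.V5 (SW T Sys Kes TA)
open Pool.Agent.Lib.T3X (Pth Dz bl near)
open scoped NNReal ENNReal

namespace FASTX

lemma fast_meas (d : Dat) (j : ℤ) (Λ s : ℝ) : MeasurableSet (Fast d j Λ s) := by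
  unfold Fast
  simp only [Set.ofPred_exists]
  refine MeasurableSet.iUnion fun v => MeasurableSet.iUnion fun q => ?_
  exact (MeasurableSet.const _).inter ((MeasurableSet.const _).inter
    (measurableSet_le (V5.meas_SW _) measurable_const))

lemma low_meas (p : Sys) (d : Dat) (n : ℕ) (j : ℤ) (lam : ℝ) :
    MeasurableSet (p.Low d n j lam) := by
  unfold Sys.Low
  simp only [Set.ofPred_exists]
  refine MeasurableSet.iUnion fun v => ?_
  exact (MeasurableSet.const _).inter ((MeasurableSet.const _).inter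
    (measurableSet_le (V5.A_meas d j v) measurable_const))

lemma fast_lower (d : Dat) (j : ℤ) (Λ s : ℝ) (y : V) :
    IsLowerSet {τ | sh y τ ∈ Fast d j Λ s} := by
  rintro τ τ' h ⟨v, q, h1, h2, h3⟩
  exact ⟨v, q, h1, h2, (V5.SW_le_SW fun e _ => h _).trans h3⟩

lemma fast_dep (d : Dat) (j : ℤ) (Λ s : ℝ) (y : V) :
    Dep (near y Λ) {τ | sh y τ ∈ Fast d j Λ s} := by
  rintro τ τ' h ⟨v, q, h1, h2, h3⟩
  refine ⟨v, q, h1, h2, (V5.SW_congr fun e he => (h _ fun z hz => ?_).symm).le.trans h3⟩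
  obtain ⟨x, hx, rfl⟩ := Sym2.mem_map.1 hz
  rw [add_sub_cancel_right]
  exact (h2 x (Walk.mem_support_of_mem_edges he hx)).1

lemma A_lower (d : Dat) {j : ℤ} (hj : 0 ≤ j) {y : V} (hy : y 0 = j) (k : ℝ) :
    IsLowerSet {τ | V5.A d j τ y ≤ k} := by
  intro τ τ' h hτ
  have h1 : TA (Lo j) τ 0 y - d.ρ y ≤ k := hτ
  have h2 : TA (Lo j) τ' 0 y ≤ TA (Lo j) τ 0 y :=
    V5.le_TA (V5.conn_Lo (u := 0) hj hy.le) fun q hq =>
      (V5.TA_le_SW τ' q hq).trans (V5.SW_le_SW fun e _ => h e)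
  show TA (Lo j) τ' 0 y - d.ρ y ≤ k
  linarith

/-- distinct sites of one plane in one residue class are far apart -/
lemma far (Λ : ℕ) {y y' : V} (h0 : y 0 = y' 0) (hne : y ≠ y')
    (h1 : y 1 % ((2 * Λ + 1 : ℕ) : ℤ) = y' 1 % ((2 * Λ + 1 : ℕ) : ℤ))
    (h2 : y 2 % ((2 * Λ + 1 : ℕ) : ℤ) = y' 2 % ((2 * Λ + 1 : ℕ) : ℤ)) :
    (Λ : ℝ) + Λ < n1 (y - y') := by
  by_contra h
  rw [not_lt] at h
  have key : ∀ i : Fin 3, y i % ((2 * Λ + 1 : ℕ) : ℤ) = y' i % ((2 * Λ + 1 : ℕ) : ℤ) →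
      y i = y' i := fun i hi => by
    have a1 := (T3X.abs_le_n1 (y - y') i).trans h
    have a2 : |(y - y') i| ≤ (Λ : ℤ) + Λ := by exact_mod_cast a1
    rw [Pi.sub_apply] at a2
    refine sub_eq_zero.1 (Int.eq_zero_of_abs_lt_dvd (Int.ModEq.dvd hi.symm) ?_)
    push_cast
    omega
  exact hne (vext h0 (key 1 h1) (key 2 h2))

/-- a fast walk on top of a site that is reached early -/
lemma glue (d : Dat) {j₀ j : ℤ} (h0 : 0 ≤ j₀) (hj : 0 ≤ j) {y : V} (hy : y 0 = j₀) {Λ s k : ℝ}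
    {τ : Cfg} (hF : sh y τ ∈ Fast d j Λ s) (hA : V5.A d j₀ τ y ≤ k) :
    ∃ z : V, z 0 = j₀ + j ∧ n1 z ≤ n1 y + Λ ∧ V5.A d (j₀ + j) τ z ≤ k - s := by
  obtain ⟨v, q, h1, h2, h3⟩ := hF
  have a1 : TA (Lo j₀) τ 0 y - d.ρ y ≤ k := hA
  have a2 := V5.TA_anti (Lo_mono (show j₀ ≤ j₀ + j by omega))
    (V5.conn_Lo (u := 0) (v := y) h0 hy.le) τ
  have e1 : (v + y) 0 = j₀ + j := by rw [Pi.add_apply, h1, hy, add_comm]
  have a4 : TA (Lo (j₀ + j)) τ (0 + y) (v + y) ≤ SW τ (q.map (transl y)).edges :=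
    V5.TA_le_SW τ (q.map (transl y)) (edges_mem_Lo _ fun z hz => by
      rw [Walk.support_map] at hz
      obtain ⟨x, hx, rfl⟩ := List.mem_map.1 hz
      have := (h2 x hx).2
      show x 0 + y 0 ≤ j₀ + j
      omega)
  rw [Walk.edges_map, V5.SW_map, zero_add] at a4
  have a5 : TA (Lo (j₀ + j)) τ y (v + y) ≤ d.ρ v - s := a4.trans h3
  have a7 := V5.TA_tri (A := Lo (j₀ + j)) (u := 0) (v := y) (w := v + y)
    (V5.conn_Lo (by show (0 : ℤ) ≤ _; omega) (by omega)) (V5.conn_Lo (by omega) e1.le) τ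
  refine ⟨v + y, e1, ?_, ?_⟩
  · linarith [n1_add_le v y, (h2 v q.end_mem_support).1]
  · unfold V5.A
    rw [d.ρ_add]
    linarith

end FASTX

open FASTX in
theorem bFASTX (hP : St_PLANT) : St_FASTX := by
  intro p a₁ a B c1 c0
  have hc := p.c1_pos
  obtain ⟨K, hK⟩ : ∃ K : ℝ, K = 691200 / p.c1 ^ 2 := ⟨_, rfl⟩
  have K0 : 0 < K := by rw [hK]; positivity
  have K1 : K * p.c1 ^ 2 = 691200 := by rw [hK]; field_simp
  have B0 : 0 ≤ 2 * B ^ 2 := by positivity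
  have A0 : 0 ≤ (a₁ + a) * (2 * B ^ 2 + 1) := by positivity
  refine ⟨(a₁ + a) * (2 * B ^ 2 + 1) + 2 * B ^ 2 + 1 + K, by linarith,
    fun d M σ n Λ j g h hM hn hH hLow ⟨_, S, hSv, hcard⟩ L1 Ln j0 jL => ?_⟩
  obtain ⟨C, hC⟩ : ∃ C, C = (a₁ + a) * (2 * B ^ 2 + 1) + 2 * B ^ 2 + 1 + K := ⟨_, rfl⟩
  rw [← hC] at hn ⊢
  obtain ⟨k, hk⟩ : ∃ k, k = 2 * B ^ 2 * σ ^ 4 := ⟨_, rfl⟩
  have s4 : 1 ≤ σ ^ 4 := one_le_pow₀ h
  have s1 : σ ≤ σ ^ 4 := le_self_pow₀ h (by norm_num)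
  have k0 : 0 ≤ k := by rw [hk]; positivity
  have kn : k ≤ n := by
    have := mul_le_mul_of_nonneg_right (show 2 * B ^ 2 ≤ C by linarith) (zero_le_one.trans s4)
    linarith
  have hn1 : 1 ≤ n := L1.trans Ln
  have n1' : (1 : ℝ) ≤ n := by exact_mod_cast hn1
  have L1' : (1 : ℝ) ≤ Λ := by exact_mod_cast L1
  have Ln' : (Λ : ℝ) ≤ n := by exact_mod_cast Ln
  have hgk : ∀ v ∈ S, p.g d v ≤ k := fun v hv => by
    refine (hSv v hv).2.2.trans ?_
    have h1 : (v 0 : ℝ) ≤ 2 * n := by exact_mod_cast (hSv v hv).2.1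
    rw [div_pow, Real.sq_sqrt (by linarith), div_mul_eq_mul_div, div_le_iff₀ (by linarith), hk]
    have := mul_le_mul_of_nonneg_left h1 (sq_nonneg (B * σ ^ 2))
    linarith
  have hSY : ∀ v ∈ S, n1 v + n ≤ p.D * n := fun v hv => by
    have v0 : 0 ≤ v 0 := by have := (hSv v hv).1; omega
    have v0' : (0 : ℝ) ≤ v 0 := by exact_mod_cast v0
    have h1 : (v 0 : ℝ) ≤ 2 * n := by exact_mod_cast (hSv v hv).2.1
    have h5 := g.perp_le v0 h1 ((hgk v hv).trans kn)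
    have b4 := mul_le_mul_of_nonneg_right p.D_ge (Nat.cast_nonneg (α := ℝ) n)
    unfold n1
    rw [abs_of_nonneg v0']
    linarith
  have hs : a₁ * (k + σ) + a * (k + σ ^ 4) ≤ C * σ ^ 4 := by
    have b1 := mul_le_mul_of_nonneg_left s1 c1
    have b2 := mul_le_mul_of_nonneg_right
      (show (a₁ + a) * (2 * B ^ 2 + 1) ≤ C by linarith) (zero_le_one.trans s4)
    rw [hk]
    linarith
  obtain ⟨j₀, Y, hYS, hYc, i0, i2, hYj, hmod⟩ := SEP47.pick (2 * Λ + 1) (by omega) n hn1 S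
    fun v hv => ⟨by have := (hSv v hv).1; omega, (hSv v hv).2.1⟩
  have jn : j ≤ n := jL.trans (by exact_mod_cast Ln)
  have h9 := hLow n k S (j₀ + j) hn1 le_rfl k0 kn
    (fun v hv => ⟨(hSv v hv).1, (hSv v hv).2.1, hgk v hv⟩) hcard (by omega) (by omega)
  by_contra hcon
  rw [not_le] at hcon
  obtain ⟨φ, hφ⟩ : ∃ φ, φ = p.pr (Fast d j Λ (C * σ ^ 4)) := ⟨_, rfl⟩
  rw [← hφ] at hcon
  have t0 : 0 < σ ^ 2 * (Λ : ℝ) ^ 2 := by positivity
  have t1 : K * (σ ^ 2 * (Λ : ℝ) ^ 2) ≤ φ * n := by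
    rw [div_lt_iff₀ (by linarith)] at hcon
    have := mul_le_mul_of_nonneg_right (show K ≤ C by linarith) t0.le
    linarith
  have φ0 : 0 < φ := by
    by_contra hh
    have := mul_le_mul_of_nonneg_right (not_lt.1 hh) (Nat.cast_nonneg (α := ℝ) n)
    have := mul_pos K0 t0
    linarith
  have t2 : p.c1 ^ 2 * n ≤ 43200 * (σ ^ 2 * (Λ : ℝ) ^ 2) * Y.card := by
    have b1 : ((2 * Λ + 1 : ℕ) : ℝ) ^ 2 ≤ (3 * Λ) ^ 2 :=
      pow_le_pow_left₀ (Nat.cast_nonneg _) (by push_cast; linarith) 2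
    have b2 := mul_le_mul_of_nonneg_right b1
      (by positivity : (0 : ℝ) ≤ 3 * n * Y.card)
    have b3 : p.cS σ * n ^ 2 ≤ 27 * (Λ : ℝ) ^ 2 * n * Y.card := by linarith
    unfold Sys.cS at b3
    rw [div_mul_eq_mul_div, div_le_iff₀ (by positivity)] at b3
    refine le_of_mul_le_mul_right ?_ (show (0 : ℝ) < n by linarith)
    linarith
  have t3 : 4 ≤ (1 / 2 : ℝ) ^ 2 * Y.card * φ := by
    have b1 := mul_le_mul_of_nonneg_left t2 K0.le
    have b2 := mul_le_mul_of_nonneg_left t1 (by positivity : (0 : ℝ) ≤ 43200 * Y.card)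
    rw [← mul_assoc, K1] at b1
    refine le_of_mul_le_mul_right ?_ (show (0 : ℝ) < n by linarith)
    linarith
  have h8 := hP p.toPar V Y (fun y => {τ | sh y τ ∈ Fast d j Λ (C * σ ^ 4)})
    (fun y => {τ | V5.A d j₀ τ y ≤ a₁ * (k + σ)}) (p.Low d n (j₀ + j) (a * (k + σ ^ 4)))
    (fun y => near y Λ) (1 / 2) φ φ0 (by norm_num) (low_meas p d n _ _)
    (fun y hy => by
      have h0 := hSv y (hYS hy)
      have b0 := hSY y (hYS hy)
      refine ⟨meas_sh y (fast_meas d j Λ _), fast_lower d j Λ _ y,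
        measurableSet_le (V5.A_meas d j₀ y) measurable_const, A_lower d i0 (hYj y hy) _,
        fast_dep d j Λ _ y, by rw [hφ, p.pr_sh], ?_, fun τ hτ => ?_⟩
      · have := V5.FINAL5.half_Lo p d hH y (by omega) (by omega) (by linarith)
          (k := a₁ * (k + σ)) (mul_le_mul_of_nonneg_left (by linarith [hgk y (hYS hy)]) c1)
        rwa [hYj y hy] at this
      · obtain ⟨z, z0, z1, z2⟩ := glue d i0 j0 (hYj y hy) hτ.1 hτ.2
        have a9 : 0 ≤ d.ε / 36 * d.eta z / n := by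
          have := g.ε_pos
          have := d.eta_nonneg z
          positivity
        exact ⟨z, z0, by linarith, by linarith⟩)
    (fun y hy y' hy' hne => T3X.near_disjoint (far Λ ((hYj y hy).trans (hYj y' hy').symm) hne
      (hmod y hy y' hy').1 (hmod y hy y' hy').2)) t3
  linarith

end Pool.Agent.Lib.T3S
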