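import Pool.Agent.Lib.T3S.Blue
import Pool.Agent.Lib.V5.B_OUT5

/-! Row FIN: back to the definitions of the hand-in. -/

namespace Pool.Agent.Lib.T3S

open MeasureTheory ProbabilityTheory Filter Topology SimpleGraph Pool.Agent.Lib.V3 Pool.Agent.Lib.V5
open Pool.Agent.Lib.MP_eba68f_pr (lattice passage)
open scoped NNReal ENNReal

namespace FIN

open OUT5 in
/-- a system for the law, with the level that gives its speed bound -/
lemma exists_sys (hP : St_PC) (hK : St_KP) (hE : St_PRE) (a m : ℝ≥0) (ha : 0 < a) :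
    ∃ p₀ : ℝ≥0∞, 0 < p₀ ∧ ∀ (F : Measure ℝ≥0) [IsProbabilityMeasure F] (r : ℝ≥0),
      MemLp (fun t : ℝ≥0 => (t : ℝ)) 2 F → ∫ t, (t : ℝ) ∂F ≤ m → F (Set.Iio a) ≤ 1 / 1000 →
      F (Set.Iio r) = 0 → (∀ s, r < s → 0 < F (Set.Iic s)) → F {r} < p₀ →
      ∃ (p : Sys) (a' : ℝ≥0), p.F = F ∧ r < a' ∧ F.real (Set.Iic a') ≤ 1 / 1000 ∧
        p.c = r + (a' - r : ℝ) / 4 := by
  obtain ⟨L, hL⟩ := hK
  obtain ⟨p₀, hp, H⟩ := hP (V5.DD (a / 8) m)
  refine ⟨min (1 / 1000) (ENNReal.ofReal p₀), lt_min (by norm_num) (ENNReal.ofReal_pos.2 hp),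
    fun F _ r h2 hm hFa hFr hs h0 => ?_⟩
  obtain ⟨a', ra, aa, ha'⟩ : ∃ a' : ℝ≥0, r < a' ∧ (a : ℝ) / 2 ≤ a' ∧ F (Set.Iic a') ≤ 1 / 1000 := by
    rcases lt_or_ge r a with h | h
    · have h' : (r : ℝ) < a := h
      refine ⟨(r + a) / 2, ?_, ?_, (measure_mono fun t ht => ?_).trans hFa⟩
      · rw [← NNReal.coe_lt_coe]; push_cast; linarith
      · push_cast; linarith [r.coe_nonneg]
      · refine lt_of_le_of_lt (Set.mem_Iic.1 ht) ?_
        rw [← NNReal.coe_lt_coe]; push_cast; linarith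
    · obtain ⟨a', h1, -, h3⟩ := level F r (r + 1) hFr (lt_add_one r) _ (h0.trans_le (min_le_left _ _))
      have h4 : (a : ℝ) ≤ a' := h.trans h1.le
      exact ⟨a', h1, by linarith [a.coe_nonneg], h3.le⟩
  have ra' : (r : ℝ) < a' := ra
  have r0 := r.coe_nonneg
  have a0 : (0 : ℝ) < a := ha
  have hc : r < (3 * r + a') / 4 := by rw [← NNReal.coe_lt_coe]; push_cast; linarith
  obtain ⟨hi, rh, hc', hh⟩ := level F r _ hFr hc _ h0
  have rh' : (r : ℝ) < hi := rh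
  have hc'' : (hi : ℝ) ≤ r + (a' - r : ℝ) / 4 := by
    have : (hi : ℝ) ≤ ((3 * r + a') / 4 : ℝ≥0) := hc'
    push_cast at this
    linarith
  have l1 : r < (r + hi) / 2 := by rw [← NNReal.coe_lt_coe]; push_cast; linarith
  have l2 : (r + hi) / 2 < hi := by rw [← NNReal.coe_lt_coe]; push_cast; linarith
  have l0 : 0 < (r + hi) / 2 := lt_of_le_of_lt bot_le l1
  have hq : F.real (Set.Iic a') ≤ 1 / 1000 :=
    ENNReal.toReal_le_of_le_ofReal (by norm_num) (ha'.trans_eq (by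
      rw [ENNReal.ofReal_div_of_pos (by norm_num)]; simp))
  obtain ⟨k1, k2⟩ := hE (par F _ hi hi l0 l2 le_rfl (hs _ l1)) r a' L h2 hFr ra (hL _ a' hq)
  have cm : r + (a' - r : ℝ) / 4 ≤ m := by
    have e1 := k2 e0
    have e2 := integral_mono (T_int (par F _ hi hi l0 l2 le_rfl (hs _ l1)) h2 0 e0)
      ((SW_memLp (par F _ hi hi l0 l2 le_rfl (hs _ l1)) h2 [ed 0]).integrable one_le_two)
      fun τ => by simpa using T_ed τ 0
    rw [int_SW _ h2] at e2
    rw [n1_e0, mul_one] at e1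
    have e3 : ((([ed 0] : List (Sym2 V)).length : ℕ) : ℝ) = 1 := by simp
    rw [e3, one_mul] at e2
    exact e1.trans (e2.trans hm)
  let p : Sys :=
    { par F _ hi m l0 l2 (hc''.trans cm) (hs _ l1) with
      c := r + (a' - r : ℝ) / 4
      L := L
      mem2 := h2
      mean := hm
      hi_le_c := hc''
      c_le := cm
      kes := k1
      hl := k2
      rare := fun n hn => by
        refine le_trans (Par.pr_mono _ (Light_mono _ (mul_le_mul_of_nonneg_right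
          (DD_anti (c := a / 8) (by linarith) (by linarith) m.coe_nonneg) (Nat.cast_nonneg _)) _))
          (H (par F _ hi m l0 l2 (hc''.trans cm) (hs _ l1)) ?_ n hn)
        exact ENNReal.toReal_le_of_le_ofReal hp.le (hh.le.trans (min_le_right _ _)) }
  exact ⟨p, a', rfl, ra, hq, rfl⟩

/-- from the working definitions to the hand-in -/
lemma out (p : Sys) (v : V) (N : ℕ) (s : ℝ) (h1 : n1 v ≤ N) (h3 : s ≤ p.Vr v) :
    (∀ i, |v i| ≤ N) ∧ ENNReal.ofReal s ≤ evariance (fun τ => passage τ 0 v)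
      (Measure.infinitePi fun _ : (lattice 3).edgeSet => p.F) := by
  refine ⟨fun i => ?_, ?_⟩
  · have : |(v i : ℝ)| ≤ N := by
      unfold n1 at h1
      have b0 := abs_nonneg (v 0 : ℝ)
      have b1 := abs_nonneg (v 1 : ℝ)
      have b2 := abs_nonneg (v 2 : ℝ)
      fin_cases i
      · show |(v 0 : ℝ)| ≤ N; linarith
      · show |(v 1 : ℝ)| ≤ N; linarith
      · show |(v 2 : ℝ)| ≤ N; linarith
    exact_mod_cast this
  · have e := (OUT5.ident p.toPar v).evariance_eq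
    refine le_trans ?_ e.ge
    rw [← ofReal_variance (p.T_memLp 0 v)]
    exact ENNReal.ofReal_le_ofReal h3

end FIN

theorem bFIN (hP : V3.St_PC) (hK : V5.St_KP) (hE : V5.St_PRE) (hX : St_KESX) (γ : ℝ)
    (h : St_RATE γ) : St_FIN γ := by
  intro a m ha
  obtain ⟨p₀, hp, H⟩ := FIN.exists_sys hP hK hE a m ha
  refine ⟨p₀, hp, fun F _ r h2 hm hFa hFr hs h0 => ?_⟩
  obtain ⟨p, a', rfl, ra, hq, hc⟩ := H F r h2 hm hFa hFr hs h0
  have hq' : p.F.real (Set.Iic a') ≤ 1 / 576 := hq.trans (by norm_num)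
  have ha' : p.hi ≤ a' := by
    have h1 := p.hi_le_c
    have h3 : (r : ℝ) < a' := ra
    rw [← NNReal.coe_le_coe]
    linarith
  obtain ⟨c, c0, h⟩ := h p ⟨(measureReal_mono (Set.Iic_subset_Iic.2 ha')).trans hq',
    hc ▸ hX p.toPar r a' hFr ra hq'⟩
  exact ⟨c, c0, h.mono fun N ⟨v, h1, h3⟩ => ⟨v, FIN.out p v N _ h1 h3⟩⟩

end Pool.Agent.Lib.T3S
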