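import Pool.Agent.Lib.T3S.Blue
import Pool.Agent.Lib.V5.B_GEO5

/-! A supporting functional together with its tilted companions. -/

namespace Pool.Agent.Lib.T3S

open Pool.Agent.Lib.V3
open Pool.Agent.Lib.V5 (Sys)

namespace GEO6

/-- the finite cone -/
def Kn (p : Sys) (M : ℕ) : Set V :=
  {z | 0 < z 0 ∧ z 0 ≤ M ∧ |(z 1 : ℝ)| ≤ p.R * z 0 ∧ |(z 2 : ℝ)| ≤ p.R * z 0}

lemma cR (p : Sys) : 4 * (2 * p.b + 1) ≤ p.c * p.R := by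
  have hc := p.c_pos
  have a1 : p.c * (4 / p.c * (2 * p.b + 1)) = 4 * (2 * p.b + 1) := by field_simp
  have a2 : 0 ≤ p.c * (2 * p.D) := mul_nonneg hc.le (by linarith [p.D_pos])
  unfold V5.Sys.R
  rw [mul_add p.c, a1]
  linarith

lemma epsR (p : Sys) : p.eps * p.R ≤ p.hi / 4 := by
  have hR := p.R_pos
  calc p.eps * p.R ≤ p.hi / (4 * p.R) * p.R :=
        mul_le_mul_of_nonneg_right (min_le_right _ _) hR.le
    _ = p.hi / 4 := by field_simp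

lemma e0_mem (p : Sys) {M : ℕ} (hM : 1 ≤ M) : e0 ∈ Kn p M := by
  have he00 : e0 0 = 1 := by simp
  refine ⟨by simp, by rw [he00]; exact_mod_cast hM, ?_, ?_⟩ <;> simp [p.R_pos.le]

lemma slope_le {R a x : ℝ} (hx : 0 < x) (h : |a| ≤ R * x) : |a / x| ≤ R := by
  rw [abs_div, abs_of_pos hx, div_le_iff₀ hx]
  exact h

/-- the inequality on the cone, in terms of slopes -/
lemma slope_form (p : Sys) (d : Dat) {κ : ℝ} {z : V} (hz : 0 < z 0)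
    (h : κ * d.eta z ≤ z 0 * p.g d z) :
    κ * (((z 1 : ℝ) / z 0 - d.θ1) ^ 2 + ((z 2 : ℝ) / z 0 - d.θ2) ^ 2) ≤
      p.h z / z 0 - (d.ρ0 + d.l1 * ((z 1 : ℝ) / z 0) + d.l2 * ((z 2 : ℝ) / z 0)) := by
  have h0 : (0 : ℝ) < z 0 := by exact_mod_cast hz
  refine le_of_mul_le_mul_left (a := (z 0 : ℝ) ^ 2) ?_ (by positivity)
  have a1 : (z 0 : ℝ) ^ 2 * (κ * (((z 1 : ℝ) / z 0 - d.θ1) ^ 2 + ((z 2 : ℝ) / z 0 - d.θ2) ^ 2)) =
      κ * d.eta z := by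
    simp only [Dat.eta]
    field_simp
  have a2 : (z 0 : ℝ) ^ 2 *
      (p.h z / z 0 - (d.ρ0 + d.l1 * ((z 1 : ℝ) / z 0) + d.l2 * ((z 2 : ℝ) / z 0))) =
      z 0 * p.g d z := by
    simp only [V5.Sys.g, Dat.ρ]
    field_simp
  rw [a1, a2]
  exact h

lemma touch (p : Sys) (d : Dat) {y : V} (hy : 0 < y 0) (h1 : d.θ1 = (y 1 : ℝ) / y 0)
    (h2 : d.θ2 = (y 2 : ℝ) / y 0) (h : p.g d y = 0) :
    p.h y / y 0 = d.ρ0 + d.l1 * d.θ1 + d.l2 * d.θ2 := by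
  have h0 : (0 : ℝ) < y 0 := by exact_mod_cast hy
  have a1 : p.h y = d.ρ0 * y 0 + d.l1 * y 1 + d.l2 * y 2 := by
    simp only [V5.Sys.g, Dat.ρ] at h
    linarith
  rw [a1, h1, h2]
  field_simp

lemma low (p : Sys) {z : V} (hz : 0 < z 0) :
    p.c * (1 + |(z 1 : ℝ) / z 0| + |(z 2 : ℝ) / z 0|) ≤ p.h z / z 0 := by
  have hz0 : (0 : ℝ) < z 0 := by exact_mod_cast hz
  rw [le_div_iff₀ hz0]
  refine le_trans (le_of_eq ?_) (p.h_ge z)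
  simp only [n1, abs_div, abs_of_pos hz0]
  field_simp

lemma mul_le_abs {l x B : ℝ} (h : |l| ≤ B) : l * x ≤ B * |x| :=
  (le_abs_self _).trans (by rw [abs_mul]; exact mul_le_mul_of_nonneg_right h (abs_nonneg _))

/-- minimising over the cone -/
lemma mini (p : Sys) {M : ℕ} (hM : 1 ≤ M) (κ m1 m2 : ℝ) :
    ∃ y ∈ Kn p M, ∃ d : Dat, d.θ1 = (y 1 : ℝ) / y 0 ∧ d.θ2 = (y 2 : ℝ) / y 0 ∧ d.ε = p.eps ∧
      d.l1 = m1 + 2 * κ * d.θ1 ∧ d.l2 = m2 + 2 * κ * d.θ2 ∧ p.g d y = 0 ∧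
      ∀ z ∈ Kn p M, κ * d.eta z ≤ z 0 * p.g d z := by
  obtain ⟨y, hy, hI⟩ := Set.exists_min_image (Kn p M)
    (fun z => p.h z / z 0 - κ * (((z 1 : ℝ) / z 0) ^ 2 + ((z 2 : ℝ) / z 0) ^ 2) -
      m1 * ((z 1 : ℝ) / z 0) - m2 * ((z 2 : ℝ) / z 0))
    (V5.GEO5.fin_cone p.R p.R_pos.le M) ⟨e0, e0_mem p hM⟩
  have y0 : (0 : ℝ) < y 0 := by exact_mod_cast hy.1
  obtain ⟨θ1, h1⟩ : ∃ θ, θ = (y 1 : ℝ) / y 0 := ⟨_, rfl⟩
  obtain ⟨θ2, h2⟩ : ∃ θ, θ = (y 2 : ℝ) / y 0 := ⟨_, rfl⟩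
  obtain ⟨H, hH⟩ : ∃ H, H = p.h y / y 0 := ⟨_, rfl⟩
  simp only [← h1, ← h2, ← hH] at hI
  refine ⟨y, hy, ⟨H - 2 * κ * (θ1 ^ 2 + θ2 ^ 2) - m1 * θ1 - m2 * θ2, m1 + 2 * κ * θ1,
    m2 + 2 * κ * θ2, θ1, θ2, p.eps⟩, h1, h2, rfl, rfl, rfl, ?_, fun z hz => ?_⟩
  · simp only [V5.Sys.g, Dat.ρ, h1, h2, hH]
    field_simp
    ring
  · have z0 : (0 : ℝ) < z 0 := by exact_mod_cast hz.1
    have a1 := mul_nonneg (sq_nonneg (z 0 : ℝ)) (sub_nonneg.2 (hI z hz))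
    refine le_of_sub_nonneg (le_of_le_of_eq a1 ?_)
    simp only [V5.Sys.g, Dat.ρ, Dat.eta]
    field_simp
    ring

/-- a functional that touches on the cone is good -/
lemma good_of (p : Sys) {M : ℕ} (d : Dat) {y : V} (hy : y ∈ Kn p M)
    (h1 : d.θ1 = (y 1 : ℝ) / y 0) (h2 : d.θ2 = (y 2 : ℝ) / y 0) (hε : d.ε = p.eps)
    (l1 : |d.l1| ≤ p.hi / 2) (l2 : |d.l2| ≤ p.hi / 2) (hg : p.g d y = 0)
    (hG2 : ∀ z ∈ Kn p M, p.eps * d.eta z ≤ z 0 * p.g d z) : p.Good M d := by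
  have hr := p.hi_pos
  have hc := p.c_pos
  have hrc := p.hi_le_c
  have hb := p.b_pos
  have hcR := cR p
  have y0 : (0 : ℝ) < y 0 := by exact_mod_cast hy.1
  have hM : 1 ≤ M := by have := hy.1; have := hy.2.1; omega
  have hK : ∀ z ∈ Kn p M, 0 ≤ p.g d z := fun z hz =>
    nonneg_of_mul_nonneg_right ((mul_nonneg p.eps_pos.le (d.eta_nonneg z)).trans (hG2 z hz))
      (by exact_mod_cast hz.1)
  have h4 : p.c * (1 + |d.θ1| + |d.θ2|) ≤ d.ρ0 + d.l1 * d.θ1 + d.l2 * d.θ2 := by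
    rw [← touch p d hy.1 h1 h2 hg, h1, h2]
    exact low p hy.1
  have hρb : d.ρ0 ≤ p.b := by
    have a1 := hK e0 (e0_mem p hM)
    have a2 := p.h_le e0
    simp [V5.Sys.g, Dat.ρ] at a1 a2
    linarith
  have hρ0 : 0 ≤ d.ρ0 := by
    have a5 : d.l1 * d.θ1 ≤ p.hi / 2 * |d.θ1| := mul_le_abs l1
    have a6 : d.l2 * d.θ2 ≤ p.hi / 2 * |d.θ2| := mul_le_abs l2
    have a7 := mul_le_mul_of_nonneg_right hrc (add_nonneg (abs_nonneg d.θ1) (abs_nonneg d.θ2))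
    have a8 : 0 ≤ p.c * (|d.θ1| + |d.θ2|) := by positivity
    linarith
  refine ⟨hρ0, hρb, l1, l2, hε, by rw [h1]; exact slope_le y0 hy.2.2.1,
    by rw [h2]; exact slope_le y0 hy.2.2.2, fun z hz hzM => ?_,
    fun z a b c e => by rw [hε]; exact hG2 z ⟨a, b, c, e⟩, ?_, h4⟩
  · by_cases hzK : z ∈ Kn p M
    · exact hK z hzK
    · have hz0 : (0 : ℝ) ≤ z 0 := by exact_mod_cast hz
      have a0 : p.R * z 0 ≤ |(z 1 : ℝ)| + |(z 2 : ℝ)| := by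
        by_contra hcon
        have hcon' := not_le.1 hcon
        refine hzK ⟨?_, hzM, by linarith [abs_nonneg (z 2 : ℝ)],
          by linarith [abs_nonneg (z 1 : ℝ)]⟩
        rcases hz.eq_or_lt with h | h
        · rw [← h] at hcon'
          simp only [Int.cast_zero, mul_zero] at hcon'
          linarith [abs_nonneg (z 1 : ℝ), abs_nonneg (z 2 : ℝ)]
        · exact h
      have a1 := p.h_ge z
      have a2 : d.l1 * z 1 ≤ p.hi / 2 * |(z 1 : ℝ)| := mul_le_abs l1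
      have a3 : d.l2 * z 2 ≤ p.hi / 2 * |(z 2 : ℝ)| := mul_le_abs l2
      have a4 := mul_le_mul_of_nonneg_right hρb hz0
      have a5 := mul_le_mul_of_nonneg_left a0 hc.le
      have a6 := mul_le_mul_of_nonneg_right hcR hz0
      have a7 : 0 ≤ p.b * z 0 := mul_nonneg hb.le hz0
      have a8 : 0 ≤ p.c * |(z 0 : ℝ)| := by positivity
      have a9 := mul_le_mul_of_nonneg_right hrc
        (add_nonneg (abs_nonneg (z 1 : ℝ)) (abs_nonneg (z 2 : ℝ)))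
      simp only [V5.Sys.g, Dat.ρ]
      simp only [n1] at a1
      linarith
  · obtain ⟨k, hk1, hk2⟩ := V5.GEO5.exists_mult (y 0) M hy.1 hy.2.1
    have a0 : (k • y) 0 = k * y 0 := by simp only [Pi.smul_apply, nsmul_eq_mul]
    refine ⟨k • y, by rw [a0]; exact hk1, by rw [a0]; exact hk2, ?_⟩
    have a2 := V5.Sys.g_nsmul (p := p) d k y
    rw [hg, mul_zero] at a2
    exact a2

lemma tilt_le {ε R B θ θ' u : ℝ} (hε : 0 < ε) (hB : ε * R ≤ B / 4) (hθ : |θ| ≤ R / 4)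
    (hu : |u| ≤ 5 / 4 * R) (hw : |θ' - θ| ≤ R / 4) :
    |2 * ε * θ + ε / 10 * u + 2 * ε * θ'| ≤ B / 2 := by
  obtain ⟨a1, a2⟩ := abs_le.1 hθ
  obtain ⟨a3, a4⟩ := abs_le.1 hu
  obtain ⟨a5, a6⟩ := abs_le.1 hw
  have hR : 0 ≤ R := by linarith
  have b1 : 2 * θ + u / 10 + 2 * θ' ≤ 2 * R := by linarith
  have b2 : -(2 * R) ≤ 2 * θ + u / 10 + 2 * θ' := by linarith
  have c1 := mul_le_mul_of_nonneg_left b1 hε.le
  have c2 := mul_le_mul_of_nonneg_left b2 hε.le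
  exact abs_le.2 ⟨by linarith, by linarith⟩

theorem geo6 (p : Sys) (M : ℕ) (hM : 1 ≤ M) : ∃ d : Dat, p.Good M d ∧
    ∀ z : V, 0 < z 0 → z 0 ≤ M → |(z 1 : ℝ)| ≤ p.R * z 0 → |(z 2 : ℝ)| ≤ p.R * z 0 →
      ∃ e : Dat, p.Good M e ∧ d.ρ z + p.eps / 10 * d.eta z / z 0 ≤ e.ρ z := by
  have hc := p.c_pos
  have hrc := p.hi_le_c
  have hR := p.R_pos
  have hε := p.eps_pos
  have hεR := epsR p
  have hcR := cR p
  obtain ⟨y, hy, d, t1, t2, de, l1, l2, hg, hG⟩ := mini p hM (2 * p.eps) 0 0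
  have y0 : (0 : ℝ) < y 0 := by exact_mod_cast hy.1
  have k1 : |d.θ1| ≤ p.R := by rw [t1]; exact slope_le y0 hy.2.2.1
  have k2 : |d.θ2| ≤ p.R := by rw [t2]; exact slope_le y0 hy.2.2.2
  have ty := touch p d hy.1 t1 t2 hg
  have hθ : |d.θ1| + |d.θ2| ≤ p.R / 4 := by
    have a1 := low p hy.1
    rw [← t1, ← t2, ty, l1, l2] at a1
    have a2 := hG e0 (e0_mem p hM)
    have a3 := p.h_le e0
    simp [V5.Sys.g, Dat.ρ, Dat.eta] at a2 a3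
    have a5 := V5.GEO5.sq_le_mul hε.le hεR k1
    have a6 := V5.GEO5.sq_le_mul hε.le hεR k2
    have a7 := mul_le_mul_of_nonneg_right hrc (add_nonneg (abs_nonneg d.θ1) (abs_nonneg d.θ2))
    refine le_of_mul_le_mul_left (a := p.c) ?_ hc
    linarith
  have q1 : |d.θ1| ≤ p.R / 4 := by linarith [abs_nonneg d.θ2]
  have q2 : |d.θ2| ≤ p.R / 4 := by linarith [abs_nonneg d.θ1]
  have hl : ∀ θ : ℝ, |θ| ≤ p.R / 4 → |0 + 2 * (2 * p.eps) * θ| ≤ p.hi / 2 := fun θ h => by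
    rw [zero_add, abs_mul, abs_of_pos (by positivity : (0 : ℝ) < 2 * (2 * p.eps))]
    have := mul_le_mul_of_nonneg_left h hε.le
    have := mul_pos hε hR
    linarith
  refine ⟨d, good_of p d hy t1 t2 de (by rw [l1]; exact hl _ q1) (by rw [l2]; exact hl _ q2) hg
    fun z hz => le_trans ?_ (hG z hz), fun z z0 zM z1 z2 => ?_⟩
  · have := mul_nonneg hε.le (d.eta_nonneg z)
    linarith
  have z0' : (0 : ℝ) < z 0 := by exact_mod_cast z0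
  obtain ⟨u1, hu1⟩ : ∃ u, u = (z 1 : ℝ) / z 0 - d.θ1 := ⟨_, rfl⟩
  obtain ⟨u2, hu2⟩ : ∃ u, u = (z 2 : ℝ) / z 0 - d.θ2 := ⟨_, rfl⟩
  have b1 : |u1| ≤ 5 / 4 * p.R := by
    rw [hu1]
    linarith [abs_sub ((z 1 : ℝ) / z 0) d.θ1, slope_le z0' z1]
  have b2 : |u2| ≤ 5 / 4 * p.R := by
    rw [hu2]
    linarith [abs_sub ((z 2 : ℝ) / z 0) d.θ2, slope_le z0' z2]
  obtain ⟨x, hx, e, s1, s2, ee, m1, m2, hg', hE⟩ := mini p hM p.eps
    (2 * p.eps * d.θ1 + p.eps / 10 * u1) (2 * p.eps * d.θ2 + p.eps / 10 * u2)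
  have tx := touch p e hx.1 s1 s2 hg'
  have f1 := slope_form p d hx.1 (hG x hx)
  have f2 := slope_form p e hy.1 (hE y hy)
  rw [← s1, ← s2, tx] at f1
  rw [← t1, ← t2, ty] at f2
  obtain ⟨w1, hw1⟩ : ∃ w, e.θ1 = d.θ1 + w := ⟨e.θ1 - d.θ1, by ring⟩
  obtain ⟨w2, hw2⟩ : ∃ w, e.θ2 = d.θ2 + w := ⟨e.θ2 - d.θ2, by ring⟩
  have g1 : 10 * (w1 ^ 2 + w2 ^ 2) ≤ u1 * w1 + u2 * w2 := by
    refine le_of_mul_le_mul_left (a := p.eps) ?_ hε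
    rw [m1, m2, l1, l2, hw1, hw2] at f1 f2
    linarith
  have g2 : w1 ^ 2 + w2 ^ 2 ≤ (p.R / 4) ^ 2 := by
    have c1 : u1 ^ 2 ≤ (5 / 4 * p.R) ^ 2 := by
      rw [← sq_abs]; exact pow_le_pow_left₀ (abs_nonneg _) b1 2
    have c2 : u2 ^ 2 ≤ (5 / 4 * p.R) ^ 2 := by
      rw [← sq_abs]; exact pow_le_pow_left₀ (abs_nonneg _) b2 2
    nlinarith [sq_nonneg (u1 - 10 * w1), sq_nonneg (u2 - 10 * w2), sq_nonneg p.R]
  have g3 : |e.θ1 - d.θ1| ≤ p.R / 4 := by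
    rw [hw1, add_sub_cancel_left]
    exact abs_le_of_sq_le_sq (by linarith [sq_nonneg w2]) (by linarith)
  have g4 : |e.θ2 - d.θ2| ≤ p.R / 4 := by
    rw [hw2, add_sub_cancel_left]
    exact abs_le_of_sq_le_sq (by linarith [sq_nonneg w1]) (by linarith)
  refine ⟨e, good_of p e hx s1 s2 ee (by rw [m1]; exact tilt_le hε hεR q1 b1 g3)
    (by rw [m2]; exact tilt_le hε hεR q2 b2 g4) hg' hE, ?_⟩
  have r1 : (z 1 : ℝ) = z 0 * (d.θ1 + u1) := by rw [hu1]; field_simp; ring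
  have r2 : (z 2 : ℝ) = z 0 * (d.θ2 + u2) := by rw [hu2]; field_simp; ring
  have r3 : p.eps / 10 * d.eta z / z 0 = z 0 * (p.eps / 10 * (u1 ^ 2 + u2 ^ 2)) := by
    simp only [Dat.eta]
    rw [r1, r2, div_eq_iff z0'.ne']
    ring
  have r4 : d.ρ0 + d.l1 * (d.θ1 + u1) + d.l2 * (d.θ2 + u2) + p.eps / 10 * (u1 ^ 2 + u2 ^ 2) ≤
      e.ρ0 + e.l1 * (d.θ1 + u1) + e.l2 * (d.θ2 + u2) := by
    have c1 : 0 ≤ p.eps * (u1 * w1 + u2 * w2) :=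
      mul_nonneg hε.le (le_trans (by positivity) g1)
    rw [m1, m2, l1, l2, hw1, hw2] at f1 ⊢
    linarith
  have r5 := mul_le_mul_of_nonneg_left r4 z0'.le
  rw [r3]
  simp only [Dat.ρ]
  rw [r1, r2]
  linarith

end GEO6

theorem bGEO6 : St_GEO6 := fun p M hM => by
  obtain ⟨d, g, h⟩ := GEO6.geo6 p M hM
  refine ⟨d, g, fun z z0 zM z1 z2 => ?_⟩
  obtain ⟨e, ge, he⟩ := h z z0 zM z1 z2
  refine ⟨e, ge, le_trans ?_ he⟩
  have z0' : (0 : ℝ) < z 0 := by exact_mod_cast z0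
  have a1 := mul_nonneg p.eps_pos.le (d.eta_nonneg z)
  exact add_le_add le_rfl (div_le_div_of_nonneg_right (by linarith) z0'.le)

end Pool.Agent.Lib.T3S
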