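import Pool.Agent.Lib.T3S.Blue
import Pool.Agent.Lib.V5.B_PRE

/-! Row KESX: long paths from the origin are slow, with a rate. -/

namespace Pool.Agent.Lib.T3S

open MeasureTheory ProbabilityTheory Filter Topology Finset Pool.Agent.Lib.V3
open Pool.Agent.Lib.V5 (SW T Sys Kes)
open Pool.Agent.Lib.T3X (Pth Dz bl near)
open scoped NNReal ENNReal

namespace KESX

/-- the weight of a walk as a sum over its steps -/
lemma SW_sum (τ : Cfg) {u v : V} (q : G.Walk u v) :
    SW τ q.edges = ∑ j ∈ range q.length, (τ s(q.getVert j, q.getVert (j + 1)) : ℝ) := by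
  induction q with
  | nil => simp
  | cons h q ih =>
    rw [SimpleGraph.Walk.edges_cons, V5.SW_cons, SimpleGraph.Walk.length_cons, sum_range_succ', ih,
      add_comm]
    simp

/-- a fast path has many light steps -/
lemma lig_of_kes {τ : Cfg} {r a : ℝ≥0} (hra : r < a) (h : ∀ e, r ≤ τ e) {L : ℕ}
    (hK : τ ∈ Kes (r + (a - r : ℝ) / 4) L) : τ ∈ ⋃ k : ℕ, Lig a 0 (k + L) := by
  obtain ⟨v, q, hq, hL, hs⟩ := hK
  have e : q.length - L + L = q.length := by omega
  refine Set.mem_iUnion.2 ⟨q.length - L, ?_⟩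
  rw [e]
  refine ⟨q.getVert, q.getVert_zero, ⟨fun j hj => q.adj_getVert_succ hj,
    fun i j hi hj hij => hq.getVert_injOn hi hj hij⟩, ?_⟩
  have h2 : (0 : ℝ) < a - r := sub_pos.2 hra
  have h1 : ∑ j ∈ range q.length, ((a : ℝ) - (a - r : ℝ) *
      if τ s(q.getVert j, q.getVert (j + 1)) ≤ a then 1 else 0) ≤ SW τ q.edges := by
    rw [SW_sum]
    refine sum_le_sum fun j _ => ?_
    split_ifs with he
    · have : (r : ℝ) ≤ τ s(q.getVert j, q.getVert (j + 1)) := h _
      linarith
    · have : (a : ℝ) ≤ τ s(q.getVert j, q.getVert (j + 1)) := (not_le.1 he).le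
      linarith
  rw [sum_sub_distrib, ← mul_sum, sum_boole, sum_const, card_range, nsmul_eq_mul] at h1
  by_contra h3
  have h4 : 2 * (((range q.length).filter
      fun j => τ s(q.getVert j, q.getVert (j + 1)) ≤ a).card : ℝ) ≤ q.length := by
    exact_mod_cast (not_le.1 h3).le
  have h5 : (0 : ℝ) ≤ q.length := Nat.cast_nonneg _
  nlinarith [mul_le_mul_of_nonneg_left h4 h2.le, mul_nonneg h2.le h5]

end KESX

theorem bKESX (hP : St_PEI) : St_KESX := by
  intro p r a hr hra ha L
  have hs : HasSum (fun k : ℕ => (1 / 2 : ℝ) ^ (k + L)) (2 * (1 / 2) ^ L) := by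
    simp only [pow_add]
    exact hasSum_geometric_two.mul_right _
  have h1 : p.P (Kes (r + (a - r : ℝ) / 4) L) ≤ ENNReal.ofReal (2 * (1 / 2) ^ L) := by
    rw [← hs.tsum_eq, ENNReal.ofReal_tsum_of_nonneg (fun _ => by positivity) hs.summable]
    have h0 : p.P (Kes (r + (a - r : ℝ) / 4) L) ≤ p.P (⋃ k : ℕ, Lig a 0 (k + L)) := by
      refine measure_mono_ae ?_
      filter_upwards [V5.PRE.ae_ge p hr] with τ hτ hK
      exact KESX.lig_of_kes hra hτ hK
    refine h0.trans ((measure_iUnion_le _).trans (ENNReal.tsum_le_tsum fun k => ?_))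
    exact (ENNReal.le_ofReal_iff_toReal_le (measure_ne_top _ _) (by positivity)).2
      (hP p a ha 0 (k + L))
  exact ENNReal.toReal_le_of_le_ofReal (by positivity) h1

end Pool.Agent.Lib.T3S
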