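import Pool.Agent.Lib.T3S.Blue

/-! Row MARK: few marked edges of the tube on the window event. -/

namespace Pool.Agent.Lib.T3S

open MeasureTheory ProbabilityTheory Filter Topology Finset Pool.Agent.Lib.V3
open Pool.Agent.Lib.V5 (SW T Sys Kes)
open Pool.Agent.Lib.T3X (Pth Dz bl near)
open scoped NNReal ENNReal

namespace MARK

/-- number of marked edges, counted on the event `W` only -/
noncomputable def fW (p : Tb) (o x : V) (a : V → ℝ) (I : Finset (V × V)) (W : Set Cfg)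
    (τ : Cfg) : ℝ := ∑ i ∈ I, (Ev p o x a i.1 i.2 ∩ W).indicator (fun _ => (1 : ℝ)) τ

lemma fW_eq (p : Tb) (o x : V) (a : V → ℝ) (I : Finset (V × V)) {W : Set Cfg} {τ : Cfg}
    (h : τ ∈ W) : fW p o x a I W τ = cnt p o x a I τ := by
  classical
  unfold cnt fW
  rw [card_filter]
  push_cast
  refine sum_congr rfl fun i _ => ?_
  by_cases h' : τ ∈ Ev p o x a i.1 i.2 <;> simp [h, h']

lemma fW_nonneg (p : Tb) (o x : V) (a : V → ℝ) (I : Finset (V × V)) (W : Set Cfg) (τ : Cfg) :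
    0 ≤ fW p o x a I W τ :=
  sum_nonneg fun _ _ => Set.indicator_nonneg (fun _ _ => zero_le_one) τ

lemma fW_int (p : Tb) (o x : V) (a : V → ℝ) (I : Finset (V × V)) {W : Set Cfg}
    (hW : MeasurableSet W) : Integrable (fW p o x a I W) p.P ∧
      ∫ τ, fW p o x a I W τ ∂p.P = ∑ i ∈ I, p.pr (Ev p o x a i.1 i.2 ∩ W) := by
  have h : ∀ i ∈ I, Integrable ((Ev p o x a i.1 i.2 ∩ W).indicator fun _ => (1 : ℝ)) p.P :=
    fun i _ => (integrable_const (1 : ℝ)).indicator ((Ev_meas p o x a i.1 i.2).inter hW)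
  unfold fW
  refine ⟨integrable_finsetSum _ h, ?_⟩
  rw [integral_finsetSum _ h]
  exact sum_congr rfl fun i _ => p.int_ind ((Ev_meas p o x a i.1 i.2).inter hW)

lemma arith {c Y N α θ H n X : ℝ} (c0 : 0 < c) (N0 : 0 < N) (α0 : 0 < α) (θ0 : 0 < θ)
    (H0 : 0 < H) (hA : (2560 * H) ^ 2 * θ * Y ≤ c ^ 2) (hn : n ≤ 24 * (Y * N ^ 2))
    (key : c / 2 * X ≤ c * N / (256 * H ^ 2) / 2 * (H ^ 2 * α) +
      α * θ / (2 * (c * N / (256 * H ^ 2))) * n) : X ≤ N * α / 128 := by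
  have e3 := mul_le_mul_of_nonneg_left hn
    (show 0 ≤ α * θ / (2 * (c * N / (256 * H ^ 2))) by positivity)
  have e4 : α * θ / (2 * (c * N / (256 * H ^ 2))) * (24 * (Y * N ^ 2)) =
      3 * (N * α) / (6400 * c) * ((2560 * H) ^ 2 * θ * Y) := by
    field_simp
    ring
  have e5 : c * N / (256 * H ^ 2) / 2 * (H ^ 2 * α) = c * (N * α) / 512 := by
    field_simp
    ring
  have e7 := mul_le_mul_of_nonneg_left hA (show 0 ≤ 3 * (N * α) / (6400 * c) by positivity)
  have e8 : 3 * (N * α) / (6400 * c) * c ^ 2 = 3 * (c * (N * α)) / 6400 := by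
    field_simp
  have e0 : 0 ≤ c * (N * α) := by positivity
  exact le_of_mul_le_mul_left (a := c / 2) (by linarith) (by positivity)

end MARK

open MARK in
theorem bMARK (hM : St_MART) : St_MARK := by
  intro p u v M w a b α θ t H hM1 hw hα hA ha hb ht
  obtain ⟨θ0, -, H0, hA⟩ := hA
  have M1 : (1 : ℝ) ≤ M := by exact_mod_cast hM1
  have w2 : (2 : ℝ) ≤ w := by exact_mod_cast hw
  have N2 : (2 : ℝ) * M ≤ M * w := by nlinarith
  have N3 : (w : ℝ) ≤ M * w := by nlinarith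
  have N0 : (0 : ℝ) < M * w := by linarith
  have hc : ((Dz (Tu p u ((M + 1) * w))).card : ℝ) ≤ 24 * (p.C * p.X * ((M : ℝ) * w) ^ 2) := by
    refine (card_Tu p u (Nat.mul_pos (by omega) (by omega))).trans ?_
    have : ((((M + 1) * w : ℕ)) : ℝ) ≤ 2 * (M * w) := by
      push_cast
      linarith
    have := mul_le_mul_of_nonneg_left (pow_le_pow_left₀ (by positivity) this 2)
      (mul_nonneg (zero_le_one.trans p.one_le_C) (zero_le_one.trans p.one_le_X))
    linarith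
  have hI : ∀ i ∈ Dz (Tu p u ((M + 1) * w)), G.Adj i.1 i.2 := fun i hi => (T3X.mem_Dz.1 hi).2
  generalize Dz (Tu p u ((M + 1) * w)) = I at *
  have e : ∀ τ, T τ v u = T τ u v := fun τ => V5.T_comm τ v u
  have c0 : 0 < p.q * p.d := mul_pos p.q_pos' p.d_pos
  have l0 : 0 < p.q * p.d * (M * w) / (256 * H ^ 2) := by positivity
  have s1 := arith c0 N0 hα θ0 H0 hA hc (hM p u v a _ α t H _ I l0 H0.le ha ht hI)
  have s2 := arith c0 N0 hα θ0 H0 hA hc
    (hM p v u b _ α t H _ I l0 H0.le hb (by simpa only [e] using ht) hI)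
  simp only [e] at s2
  have hW := T3X.win_meas u v (t - H + p.d / 2) t
  obtain ⟨i1, j1⟩ := fW_int p u v a I hW
  obtain ⟨i2, j2⟩ := fW_int p v u b I hW
  have m := mul_meas_ge_le_integral_of_nonneg (μ := p.P)
    (ae_of_all _ fun τ => add_nonneg (fW_nonneg _ _ _ _ _ _ τ) (fW_nonneg _ _ _ _ _ _ τ))
    (i1.add i2) (M * w / 8)
  rw [integral_add i1 i2, j1, j2] at m
  refine le_of_mul_le_mul_left (a := (M : ℝ) * w / 8) (le_trans (mul_le_mul_of_nonneg_left
    (p.pr_mono fun τ hτ => ?_) (by linarith)) (m.trans (by linarith))) (by linarith)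
  have h1 : ((M * (w - 1) : ℕ) : ℝ) ≤ 4 * (cnt p u v a I τ + cnt p v u b I τ) := by
    exact_mod_cast hτ.2
  rw [Nat.cast_mul, Nat.cast_sub (by omega), Nat.cast_one] at h1
  show (M : ℝ) * w / 8 ≤ fW _ _ _ _ _ _ τ + fW _ _ _ _ _ _ τ
  rw [fW_eq _ _ _ _ _ hτ.1, fW_eq _ _ _ _ _ hτ.1]
  linarith

end Pool.Agent.Lib.T3S
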