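import Pool.Agent.Lib.T3S.Blue
import Pool.Agent.Lib.T3X.Mart0

/-! Row MART: the martingale bound in the tube system. -/

namespace Pool.Agent.Lib.T3S

theorem bMART : St_MART := by
  intro p o x a π α t H lam I hl hH hπ hα hadj
  have h := T3X.mart0 p.toPar (NNReal.coe_lt_coe.1 p.lo_lt_hi) o x a I hl hH
    (fun i hi => ⟨hadj i hi, hπ _⟩) hα
  rw [mul_div_assoc]
  exact h

end Pool.Agent.Lib.T3S
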