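import Pool.Agent.Lib.T3S.Blue

/-! The lower tail off the cone. -/

namespace Pool.Agent.Lib.T3S

open MeasureTheory ProbabilityTheory Filter Topology Finset Pool.Agent.Lib.V3
open Pool.Agent.Lib.V5 (SW T Sys Kes)
open scoped NNReal ENNReal

namespace OFF

/-- off the cone the functional is well below the speed bound -/
lemma rho_le (p : Sys) {d : Dat} {M : ℕ} (g : p.Good M d) {z : V} (hz : ¬Cone p z) :
    d.ρ z ≤ 5 * p.c / 8 * n1 z := by
  have hc := p.c_pos
  have a0 := abs_nonneg (z 0 : ℝ)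
  have a1 := abs_nonneg (z 1 : ℝ)
  have a2 := abs_nonneg (z 2 : ℝ)
  have hl : ∀ l x : ℝ, |l| ≤ p.hi / 2 → l * x ≤ p.c / 2 * |x| := fun l x h =>
    (le_abs_self _).trans ((abs_mul l x).trans_le
      (mul_le_mul_of_nonneg_right (by linarith [p.hi_le_c]) (abs_nonneg x)))
  have h1 := hl _ (z 1) g.l1_le
  have h2 := hl _ (z 2) g.l2_le
  have hR : 8 * p.b ≤ p.c * p.R := by
    have e : p.c * p.R = 2 * (p.c * p.D) + 4 * (2 * p.b + 1) := by
      unfold Sys.R
      field_simp
    rw [e]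
    linarith [mul_pos hc p.D_pos]
  have h0 : d.ρ0 * z 0 ≤ p.c / 8 * (|(z 1 : ℝ)| + |(z 2 : ℝ)|) := by
    by_cases hp : 0 < z 0
    · have hp' : (0 : ℝ) < z 0 := by exact_mod_cast hp
      have hs : p.R * z 0 ≤ |(z 1 : ℝ)| + |(z 2 : ℝ)| := by
        by_contra hn
        exact hz ⟨hp, by linarith [not_le.1 hn], by linarith [not_le.1 hn]⟩
      have e1 := mul_le_mul_of_nonneg_right g.ρ0_le hp'.le
      have e2 := mul_le_mul_of_nonneg_right hR hp'.le
      have e3 := mul_le_mul_of_nonneg_left hs hc.le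
      nlinarith
    · have hp' : (z 0 : ℝ) ≤ 0 := by exact_mod_cast not_lt.1 hp
      exact (mul_nonpos_of_nonneg_of_nonpos g.ρ0_nonneg hp').trans (by positivity)
  have e4 := mul_nonneg hc.le a0
  unfold Dat.ρ n1
  nlinarith

end OFF

theorem bOFF : St_OFF := by
  intro p hp d M z L g hz
  refine (p.pr_mono fun τ hτ => ?_).trans (hp.2 L)
  obtain ⟨q, hq, hw⟩ := T3X.exists_lt hτ
  have hc := p.c_pos
  have h1 := OFF.rho_le p g hz
  have h2 : n1 z ≤ q.length := by simpa using n1_le_length q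
  have h3 := mul_le_mul_of_nonneg_left h2 hc.le
  have h4 := mul_nonneg hc.le (n1_nonneg z)
  have h5 := V5.SW_nonneg τ q.edges
  have h6 : 0 ≤ p.c * L := by positivity
  refine ⟨z, q, hq, ?_, by linarith⟩
  have : p.c * L ≤ p.c * q.length := by linarith
  exact_mod_cast le_of_mul_le_mul_left this hc

end Pool.Agent.Lib.T3S
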