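import Pool.Agent.Lib.T3S.Blue

/-! The Peierls bound for paths from one site, dimension three. -/

namespace Pool.Agent.Lib.T3S

open MeasureTheory ProbabilityTheory Finset Pool.Agent.Lib.V3
open scoped NNReal ENNReal

namespace PEI

open Classical in
/-- all sets of edges chosen along a walk with `l` steps from `v` -/
noncomputable def fam : ℕ → V → Finset (Finset (Sym2 V))
  | 0, _ => {∅}
  | l + 1, v => (nb v).biUnion fun w => fam l w ∪ (fam l w).image (insert s(v, w))

theorem card_fam (l : ℕ) : ∀ v : V, (fam l v).card ≤ 12 ^ l := by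
  classical
  induction l with
  | zero => intro v; simp [fam]
  | succ l ih =>
    intro v
    rw [fam]
    refine (card_biUnion_le_card_mul _ _ (2 * 12 ^ l) fun w _ => ?_).trans ?_
    · refine (card_union_le _ _).trans ?_
      have h1 := ih w
      have h2 := (card_image_le (s := fam l w) (f := insert s(v, w))).trans h1
      omega
    · have h := Nat.mul_le_mul_right (2 * 12 ^ l) (card_nb v)
      rw [pow_succ]
      omega

open Classical in
theorem mem_fam (l : ℕ) : ∀ (u : ℕ → V) (J : Finset ℕ), (∀ j < l, G.Adj (u j) (u (j + 1))) →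
    (∀ j ∈ J, j < l) → J.image (fun j => s(u j, u (j + 1))) ∈ fam l (u 0) := by
  induction l with
  | zero =>
    intro u J _ hJ
    have : J = ∅ := eq_empty_of_forall_notMem fun j hj => absurd (hJ j hj) (Nat.not_lt_zero j)
    simp [fam, this]
  | succ l ih =>
    intro u J hu hJ
    have h1 := ih (fun j => u (j + 1)) ((range l).filter fun j => j + 1 ∈ J)
      (fun j hj => hu (j + 1) (by omega)) fun j hj => mem_range.1 (mem_filter.1 hj).1
    rw [fam]
    refine mem_biUnion.2 ⟨u 1, mem_nb.2 (hu 0 (by omega)), ?_⟩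
    have hs : ∀ e, e ∈ ((range l).filter fun j => j + 1 ∈ J).image
        (fun j => s(u (j + 1), u (j + 1 + 1))) ↔ ∃ j, j + 1 ∈ J ∧ s(u (j + 1), u (j + 1 + 1)) = e := by
      intro e
      rw [mem_image]
      constructor
      · rintro ⟨j, hj, rfl⟩
        exact ⟨j, (mem_filter.1 hj).2, rfl⟩
      · rintro ⟨j, hj, rfl⟩
        exact ⟨j, mem_filter.2 ⟨mem_range.2 (by have := hJ _ hj; omega), hj⟩, rfl⟩
    by_cases h0 : 0 ∈ J
    · refine mem_union_right _ (mem_image.2 ⟨_, h1, ?_⟩)
      ext e
      rw [mem_insert, hs, mem_image]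
      constructor
      · rintro (rfl | ⟨j, hj, rfl⟩)
        · exact ⟨0, h0, rfl⟩
        · exact ⟨j + 1, hj, rfl⟩
      · rintro ⟨j, hj, rfl⟩
        cases j with
        | zero => exact Or.inl rfl
        | succ j => exact Or.inr ⟨j, hj, rfl⟩
    · refine mem_union_left _ ?_
      convert h1 using 1
      ext e
      rw [hs, mem_image]
      constructor
      · rintro ⟨j, hj, rfl⟩
        cases j with
        | zero => exact absurd hj h0
        | succ j => exact ⟨j, hj, rfl⟩
      · rintro ⟨j, hj, rfl⟩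
        exact ⟨j + 1, hj, rfl⟩

end PEI

theorem bPEI : St_PEI := by
  intro p hi hp y l
  classical
  set I := (PEI.fam l y).filter fun E => l ≤ 2 * E.card with hI
  have hsub : Lig hi y l ⊆ ⋃ E ∈ I, {τ : Cfg | ∀ e ∈ E, τ e ∈ Set.Iic hi} := by
    rintro τ ⟨u, rfl, ⟨h1, h2⟩, h4⟩
    set J := (range l).filter fun j => τ s(u j, u (j + 1)) ≤ hi with hJ
    have hJ1 : ∀ j ∈ J, j < l := fun j hj => mem_range.1 (mem_filter.1 hj).1
    have hm := PEI.mem_fam l u J h1 hJ1
    have hc : (J.image fun j => s(u j, u (j + 1))).card = J.card := by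
      refine card_image_of_injOn fun i hi j hj hij => ?_
      have a1 := hJ1 i hi
      have a2 := hJ1 j hj
      rcases Sym2.eq_iff.1 hij with ⟨h, -⟩ | ⟨h, h'⟩
      · exact h2 i j (by omega) (by omega) h
      · have b1 := h2 i (j + 1) (by omega) (by omega) h
        have b2 := h2 (i + 1) j (by omega) (by omega) h'
        omega
    refine Set.mem_iUnion₂.2 ⟨J.image fun j => s(u j, u (j + 1)), mem_filter.2
      ⟨by convert hm, by rw [hc]; exact h4⟩, fun e he => ?_⟩
    obtain ⟨j, hj, rfl⟩ := mem_image.1 he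
    exact (mem_filter.1 hj).2
  have hone : ∀ E ∈ I, p.pr {τ : Cfg | ∀ e ∈ E, τ e ∈ Set.Iic hi} ≤ (1 / 24) ^ l := by
    intro E hE
    rw [p.pr_all E measurableSet_Iic]
    refine (pow_le_pow_left₀ measureReal_nonneg (hp.trans_eq (by norm_num : (1 / 576 : ℝ) =
      (1 / 24) ^ 2)) _).trans ?_
    rw [← pow_mul]
    exact pow_le_pow_of_le_one (by norm_num) (by norm_num) (mem_filter.1 hE).2
  have hcard : (I.card : ℝ) ≤ 12 ^ l := by
    exact_mod_cast (card_filter_le _ _).trans (PEI.card_fam l y)
  refine (p.pr_mono hsub).trans ((p.pr_biUnion_le _ _).trans ?_)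
  refine (sum_le_card_nsmul _ _ _ hone).trans ?_
  rw [nsmul_eq_mul, show (1 / 2 : ℝ) = 12 * (1 / 24) by norm_num, mul_pow]
  exact mul_le_mul_of_nonneg_right hcard (by positivity)

end Pool.Agent.Lib.T3S
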