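import Pool.Agent.Lib.T3S.Blue
import Pool.Agent.Lib.V5.Base

/-! The strong lower tail at one site. -/

namespace Pool.Agent.Lib.T3S

open MeasureTheory ProbabilityTheory Filter Topology Finset Pool.Agent.Lib.V3
open Pool.Agent.Lib.V5 (SW T Sys Kes)
open scoped NNReal ENNReal

namespace POINT

lemma le_n1 (z : V) : (z 0 : ℝ) ≤ n1 z := by
  unfold n1
  linarith [le_abs_self (z 0 : ℝ), abs_nonneg (z 1 : ℝ), abs_nonneg (z 2 : ℝ)]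

lemma arith {C₁ κ C Λ σ w m x : ℝ} (hC₁ : 1 ≤ C₁) (hκ : 1 ≤ κ) (hC : 60 * C₁ * κ ^ 3 ≤ C)
    (hΛ : 1 ≤ Λ) (hw : 0 < w) (hm : w ≤ 3 * m) (hx : 0 ≤ x) :
    (κ * Λ + 1) * (C₁ * σ ^ 2 * (κ * Λ) ^ 2 / m) + 2 * (2 * (κ * Λ) + 1) ^ 3 * x ≤
      C * Λ ^ 3 * (σ ^ 2 / w + x) := by
  have hm0 : 0 < m := by linarith
  have h1 : 1 ≤ κ * Λ := one_le_mul_of_one_le_of_one_le hκ hΛ
  have h2 : σ ^ 2 / m ≤ 3 * (σ ^ 2 / w) := by
    rw [← mul_div_assoc, div_le_div_iff₀ hm0 hw]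
    nlinarith [sq_nonneg σ]
  have h3 : 0 ≤ σ ^ 2 / w := by positivity
  have h4 : (κ * Λ + 1) * (C₁ * σ ^ 2 * (κ * Λ) ^ 2 / m) ≤
      (2 * (κ * Λ)) * (C₁ * (κ * Λ) ^ 2 * (3 * (σ ^ 2 / w))) := by
    have : C₁ * σ ^ 2 * (κ * Λ) ^ 2 / m = C₁ * (κ * Λ) ^ 2 * (σ ^ 2 / m) := by ring
    rw [this]
    gcongr
    linarith
  have h5 : 2 * (2 * (κ * Λ) + 1) ^ 3 * x ≤ 2 * (3 * (κ * Λ)) ^ 3 * x := by
    gcongr
    linarith
  have h6 : 0 ≤ κ ^ 3 := by positivity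
  have h7 : 6 * C₁ * κ ^ 3 ≤ C := by nlinarith
  have h8 : 54 * κ ^ 3 ≤ C := by nlinarith
  have h9 : 0 ≤ Λ ^ 3 := by positivity
  have h10 := mul_le_mul_of_nonneg_right h7 (mul_nonneg h9 h3)
  have h11 := mul_le_mul_of_nonneg_right h8 (mul_nonneg h9 hx)
  nlinarith

end POINT

open POINT in
theorem bPOINT (hGEO6 : St_GEO6) (hCH6 : St_CH6) (hFASTX : St_FASTX) (hSTRONG : St_STRONG)
    (hOFF : St_OFF) : St_POINT := by
  intro p hR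
  obtain ⟨a₁, a, B, K, Γ, ha₁, ha, -, hK, hΓ, hch⟩ := hCH6 p
  obtain ⟨C₁, hC₁, hfa⟩ := hFASTX p a₁ a B ha₁ ha
  have hc := p.c_pos
  have hD := p.D_pos
  obtain ⟨κ, hκ1, hκ⟩ : ∃ κ : ℕ, 1 ≤ κ ∧ p.b ≤ p.c * κ := by
    refine ⟨⌈p.b / p.c⌉₊ + 1, by omega, ?_⟩
    have := Nat.le_ceil (p.b / p.c)
    rw [div_le_iff₀' hc] at this
    push_cast
    nlinarith
  have hκr : (1 : ℝ) ≤ κ := by exact_mod_cast hκ1
  have hκ3 : (κ : ℝ) ≤ (κ : ℝ) ^ 3 := by nlinarith [sq_nonneg ((κ : ℝ) - 1), sq_nonneg (κ : ℝ)]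
  obtain ⟨C, c1, c2, c3, c4⟩ : ∃ C : ℝ, K ≤ C ∧ 3 * B ^ 2 ≤ C ∧ p.D ≤ C ∧
      60 * C₁ * (κ : ℝ) ^ 3 ≤ C := by
    have : 0 ≤ 60 * C₁ * (κ : ℝ) ^ 3 := by positivity
    refine ⟨K + 3 * B ^ 2 + p.D + 60 * C₁ * (κ : ℝ) ^ 3, ?_, ?_, ?_, ?_⟩ <;>
      nlinarith [sq_nonneg B]
  have c5 : 3 * C₁ ≤ C := by nlinarith
  have c6 : 3 * (κ : ℝ) ≤ C := by nlinarith
  refine ⟨C, Γ, hK.trans c1, hΓ, fun σ w hσ hV hw => ?_⟩
  have hσ4 : 1 ≤ σ ^ 4 := one_le_pow₀ hσ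
  have hwr : (1 : ℝ) ≤ w := by nlinarith
  have hw1 : 1 ≤ w := by exact_mod_cast hwr
  have hw4 : w ≤ w ^ 4 := Nat.le_self_pow (by norm_num) w
  have hKw : K * σ ^ 4 ≤ w := by nlinarith
  obtain ⟨d, hd, he⟩ := hGEO6 p (24 * w ^ 4) (by omega)
  refine ⟨d, hd, fun n₁ h1 h2 => ?_, fun Λ L₀ z hΛ hL hCΛ hz => ?_⟩
  · obtain ⟨m, m1, m2, ⟨x, hx, hg⟩, -⟩ := (hch d σ w hd hσ hV hKw).2.2 n₁ (by nlinarith) h2
    have m1r : (n₁ : ℝ) ≤ 3 * m := by exact_mod_cast m1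
    have m2r : (m : ℝ) ≤ n₁ := by exact_mod_cast m2.le
    have hm0 : (0 : ℝ) < m := by nlinarith
    have e1 : (B * σ ^ 2 / √m) ^ 2 * m = B ^ 2 * σ ^ 4 := by
      rw [div_pow, Real.sq_sqrt hm0.le]
      field_simp
    rw [e1] at hg
    have h3 : 3 * B ^ 2 * σ ^ 4 ≤ C * σ ^ 4 := by gcongr
    have h4 := le_n1 x
    rw [hx] at h4
    push_cast at h4
    refine ⟨x, by linarith, (hd.n1_le_D hx (by linarith)).trans ?_, ?_⟩
    · exact mul_le_mul c3 m2r hm0.le (by linarith)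
    · nlinarith [sq_nonneg B]
  · have hΛr : (1 : ℝ) ≤ Λ := by exact_mod_cast hΛ
    have hx0 : (0 : ℝ) ≤ (1 / 2) ^ L₀ := by positivity
    by_cases hcone : Cone p z
    · have hz0 : z 0 ≤ ((24 * w ^ 4 : ℕ) : ℤ) := by
        have h1 : (z 0 : ℝ) ≤ w := by nlinarith [le_n1 z]
        have h2 : z 0 ≤ (w : ℤ) := by exact_mod_cast h1
        have h3 : w ≤ 24 * w ^ 4 := by omega
        exact h2.trans (by exact_mod_cast h3)
      obtain ⟨e, hge, hle⟩ := he z hcone.1 hz0 hcone.2.1 hcone.2.2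
      obtain ⟨hH, hLo, hP⟩ := hch e σ w hge hσ hV hKw
      obtain ⟨m, m1, m2, hpp⟩ := hP w hKw le_rfl
      have m1r : (w : ℝ) ≤ 3 * m := by exact_mod_cast m1
      have m2r : (m : ℝ) ≤ w := by exact_mod_cast m2.le
      have hΛm : κ * Λ ≤ m := by
        have : ((κ * Λ : ℕ) : ℝ) ≤ m := by
          push_cast
          nlinarith
        exact_mod_cast this
      have hs := hSTRONG p hR e (24 * w ^ 4) z (κ * Λ) L₀ (C₁ * σ ^ 4)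
        (C₁ * σ ^ 2 * ((κ * Λ : ℕ) : ℝ) ^ 2 / m) hge (by positivity)
        (by
          push_cast
          have := p.b_pos
          nlinarith [n1_nonneg z])
        (hL.trans (Nat.le_mul_of_pos_left _ hκ1))
        (fun j hj hj' => hfa e (24 * w ^ 4) σ m (κ * Λ) j hge hσ (by omega) (by nlinarith)
          (fun v h1 h2 h3 => hH v h1 h2 (h3.trans (by gcongr)))
          (fun n k S j h1 h2 => hLo n k S j h1 (h2.trans m2.le)) hpp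
          (Nat.mul_pos hκ1 hΛ) hΛm hj hj')
      refine (p.pr_mono fun τ hτ => ?_).trans (hs.trans ?_)
      · simp only [Set.mem_ofPred_eq, psi, if_pos hcone] at hτ ⊢
        nlinarith
      · push_cast
        exact arith hC₁ hκr c4 hΛr (by linarith) m1r hx0
    · refine (p.pr_mono fun τ hτ => ?_).trans ((hOFF p hR d _ z L₀ hd hcone).trans ?_)
      · simp only [Set.mem_ofPred_eq, psi, if_neg hcone] at hτ ⊢
        nlinarith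
      · have h1 : 0 ≤ σ ^ 2 / (w : ℝ) := by positivity
        have h2 : (1 : ℝ) ≤ (Λ : ℝ) ^ 3 := one_le_pow₀ hΛr
        have h3 : 2 ≤ C * (Λ : ℝ) ^ 3 := by nlinarith
        nlinarith

end Pool.Agent.Lib.T3S
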