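import Pool.Agent.Lib.T3S.Blue

/-! Row RATE: from the failure of the variance bound along the scales to the rate. -/

namespace Pool.Agent.Lib.T3S

open Filter Pool.Agent.Lib.V3

/-- the rate for every exponent -/
theorem RATE.gen (e : ℕ) (he : 1 ≤ e) (hTOP : St_TOP e) : St_RATE (1 / (e : ℝ)) := by
  intro p hr
  obtain ⟨A, k₀, Γ, -, h⟩ := hTOP p hr
  obtain ⟨B, hB⟩ := exists_nat_ge Γ
  have he0 : e ≠ 0 := by omega
  obtain ⟨D, hD⟩ : ∃ D : ℝ, D = ((B + 4 * A : ℕ) : ℝ) + 1 := ⟨_, rfl⟩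
  have hC : (0 : ℝ) ≤ ((B + 4 * A : ℕ) : ℝ) := Nat.cast_nonneg _
  have hD1 : 1 ≤ D := by linarith
  have hD0 : 0 < D := by linarith
  have hk0 : (0 : ℝ) ≤ k₀ := Nat.cast_nonneg _
  obtain ⟨X, hX⟩ : ∃ X : ℝ, X = (k₀ + 2) * D := ⟨_, rfl⟩
  have hX0 : 0 ≤ X := by rw [hX]; positivity
  refine ⟨1 / (8 * D), by positivity, ?_⟩
  filter_upwards [(tendsto_natCast_atTop_atTop (R := ℝ)).eventually_ge_atTop
    (Real.exp (X ^ e))] with N hN
  have hN0 : (0 : ℝ) < N := (Real.exp_pos _).trans_le hN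
  have hL : X ^ e ≤ Real.log N := (Real.le_log_iff_exp_le hN0).2 hN
  have hL0 : 0 ≤ Real.log N := (pow_nonneg hX0 e).trans hL
  obtain ⟨x, hx⟩ : ∃ x : ℝ, x = Real.log N ^ (1 / (e : ℝ)) := ⟨_, rfl⟩
  rw [← hx]
  have hx0 : 0 ≤ x := by rw [hx]; exact Real.rpow_nonneg hL0 _
  have hx3 : x ^ e = Real.log N := by
    rw [hx, one_div]
    exact Real.rpow_inv_natCast_pow hL0 he0
  have hXx : X ≤ x := by
    rw [← hx3] at hL
    exact (pow_le_pow_iff_left₀ hX0 hx0 he0).1 hL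
  obtain ⟨y, hy⟩ : ∃ y : ℝ, y = x / D := ⟨_, rfl⟩
  have hyx : y * D = x := by rw [hy]; field_simp
  have hy2 : (k₀ : ℝ) + 2 ≤ y := by
    rw [hy, le_div_iff₀ hD0]
    linarith
  have hy0 : 0 ≤ y := by linarith
  obtain ⟨k, hk⟩ : ∃ k : ℕ, k = ⌊y⌋₊ := ⟨_, rfl⟩
  have hk1 : k₀ + 1 ≤ k := hk ▸ Nat.le_floor (by push_cast; linarith)
  have hk2 : (k : ℝ) ≤ y := hk ▸ Nat.floor_le hy0
  have hk3 : y < k + 1 := hk ▸ Nat.lt_floor_add_one y
  have h1 : (((B + 4 * A) * k ^ e : ℕ) : ℝ) ≤ Real.log N := by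
    have b1 : (k : ℝ) ^ e ≤ y ^ e := pow_le_pow_left₀ (Nat.cast_nonneg _) hk2 e
    have b2 : ((B + 4 * A : ℕ) : ℝ) ≤ D ^ e := le_trans (by linarith) (le_self_pow₀ hD1 he0)
    rw [← hx3, ← hyx, mul_pow, mul_comm (y ^ e), Nat.cast_mul, Nat.cast_pow]
    exact mul_le_mul b2 b1 (by positivity) (by positivity)
  have h2 : (2 : ℝ) ≤ Real.exp 1 := by linarith [Real.add_one_le_exp (1 : ℝ)]
  have h3 : (2 : ℝ) ^ ((B + 4 * A) * k ^ e) ≤ N := by
    refine (pow_le_pow_left₀ (by norm_num) h2 _).trans ?_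
    rw [← Real.exp_nat_mul, mul_one]
    exact (Real.le_log_iff_exp_le hN0).1 h1
  have h4 : Γ * ((2 : ℝ) ^ (A * k ^ e)) ^ 4 ≤ N := by
    have b1 : B ≤ 2 ^ (B * k ^ e) :=
      (Nat.lt_two_pow_self).le.trans (Nat.pow_le_pow_right (by norm_num)
        (Nat.le_mul_of_pos_right _ (Nat.pow_pos (by omega))))
    have b2 : Γ ≤ (2 : ℝ) ^ (B * k ^ e) := hB.trans (by exact_mod_cast b1)
    refine le_trans ?_ h3
    rw [add_mul B, pow_add (2 : ℝ), ← pow_mul, show A * k ^ e * 4 = 4 * A * k ^ e by ring]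
    exact mul_le_mul_of_nonneg_right b2 (by positivity)
  have h5 : Real.exp (1 / 2) ≤ 2 :=
    (Real.exp_le_exp.2 (by linarith [Real.log_two_gt_d9])).trans
      (Real.exp_log (by norm_num : (0 : ℝ) < 2)).le
  have h6 : Real.exp (k / 8) ^ 4 ≤ 2 ^ k := by
    refine le_trans (le_of_eq ?_) (pow_le_pow_left₀ (Real.exp_pos _).le h5 k)
    rw [← Real.exp_nat_mul, ← Real.exp_nat_mul]
    congr 1
    push_cast
    ring
  have h7 := h k (Real.exp (k / 8)) (by omega) (Real.one_le_exp (by positivity)) h6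
  by_contra hc
  refine h7 fun v hv => le_of_not_gt fun hlt => hc ⟨v, hv.trans h4, le_trans ?_ hlt.le⟩
  rw [← Real.exp_nat_mul]
  have h8 : 1 / (8 * D) * x = y / 8 := by rw [← hyx]; field_simp
  rw [h8]
  refine Real.exp_le_exp.2 ?_
  push_cast
  linarith

theorem bRATE (hTOP : St_TOP 3) : St_RATE (1 / 3) := by
  have h := RATE.gen 3 (by norm_num) hTOP
  rwa [Nat.cast_ofNat] at h

end Pool.Agent.Lib.T3S
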