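import Pool.Agent.Lib.T3S.Blue

/-! Row STRONG: a fast path is cut at a top vertex. -/

namespace Pool.Agent.Lib.T3S

open MeasureTheory ProbabilityTheory Filter Topology Finset Pool.Agent.Lib.V3
open Pool.Agent.Lib.V5 (SW T Sys Kes)
open Pool.Agent.Lib.T3X (Pth Dz bl near)
open scoped NNReal ENNReal

namespace STRONG

lemma sh_zero (τ : Cfg) : sh 0 τ = τ := by
  funext e
  induction e using Sym2.ind with
  | h x y => simp [sh]

lemma down {p : Sys} {M : ℕ} {e : Dat} (g : p.Good M e) (v : V) (hv : v 0 ≤ 0) :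
    e.ρ v ≤ p.c / 2 * n1 v := by
  have h0 : (v 0 : ℝ) ≤ 0 := by exact_mod_cast hv
  have h1 := mul_nonpos_of_nonneg_of_nonpos g.ρ0_nonneg h0
  have hc := p.hi_le_c
  have h2 := mul_le_mul_of_nonneg_right (g.l1_le.trans (by linarith : (p.hi : ℝ) / 2 ≤ p.c / 2))
    (abs_nonneg (v 1 : ℝ))
  have h3 := mul_le_mul_of_nonneg_right (g.l2_le.trans (by linarith : (p.hi : ℝ) / 2 ≤ p.c / 2))
    (abs_nonneg (v 2 : ℝ))
  rw [← abs_mul] at h2 h3
  have h4 := mul_nonneg p.c_pos.le (abs_nonneg (v 0 : ℝ))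
  unfold Dat.ρ n1
  linarith [le_abs_self (e.l1 * v 1), le_abs_self (e.l2 * v 2)]

lemma supp {u v : V} (q : G.Walk u v) {y : V} (hy : y ∈ q.support) : n1 (y - u) ≤ q.length := by
  classical
  exact (n1_le_length (q.takeUntil y hy)).trans (by exact_mod_cast q.length_takeUntil_le_length hy)

lemma cut {p : Sys} {M : ℕ} {e : Dat} (g : p.Good M e) {z : V} {Λ L₀ : ℕ} {s : ℝ} (hs : 0 ≤ s)
    (hz : p.b * n1 z ≤ p.c * Λ) (hL : L₀ ≤ Λ) {τ : Cfg}
    (hK : ∀ v : V, n1 v ≤ Λ → sh v τ ∉ Kes p.c L₀) (h : T τ 0 z < e.ρ z - (s + p.c * L₀)) :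
    ∃ j : ℕ, j ≤ Λ ∧ τ ∈ Fast e j Λ s := by
  classical
  obtain ⟨q, hq, hw⟩ := T3X.exists_lt h
  have hc := p.c_pos
  have c0 : 0 ≤ p.c * L₀ := by positivity
  have hlen : (q.length : ℝ) ≤ Λ := by
    by_contra hn
    have h1 := not_le.1 hn
    refine hK 0 (by simp) ?_
    rw [sh_zero]
    refine ⟨z, q, hq, hL.trans (by exact_mod_cast h1.le), ?_⟩
    linarith [mul_le_mul_of_nonneg_left h1.le hc.le, (le_abs_self _).trans (g.abs_ρ z)]
  have hs1 : ∀ y ∈ q.support, n1 y ≤ Λ := fun y hy => by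
    have := supp q hy
    rw [sub_zero] at this
    exact this.trans hlen
  obtain ⟨v, hv, hmax⟩ := exists_max_image q.support.toFinset (fun y => y 0)
    ⟨0, List.mem_toFinset.2 q.start_mem_support⟩
  rw [List.mem_toFinset] at hv
  have hm : ∀ y ∈ q.support, y 0 ≤ v 0 := fun y hy => hmax y (List.mem_toFinset.2 hy)
  have v0 : 0 ≤ v 0 := hm 0 q.start_mem_support
  have v1 : (v 0 : ℝ) ≤ Λ := (le_abs_self _).trans ((T3X.abs_le_n1 v 0).trans (hs1 v hv))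
  obtain ⟨j, hj⟩ := Int.eq_ofNat_of_zero_le v0
  have e1 : SW τ q.edges = SW τ (q.takeUntil v hv).edges + SW τ (q.dropUntil v hv).edges := by
    rw [← V5.SW_append, ← SimpleGraph.Walk.edges_append, SimpleGraph.Walk.take_spec]
  have e2 : T (sh v τ) 0 (z - v) ≤ SW τ (q.dropUntil v hv).edges := by
    rw [V5.T_sh, zero_add, sub_add_cancel]
    exact V5.T_le_SW τ _
  have e3 := down g (z - v) (sub_nonpos.2 (hm z q.end_mem_support))
  have e4 : e.ρ (z - v) ≤ T (sh v τ) 0 (z - v) + p.c * L₀ := by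
    have n0 := mul_nonneg hc.le (n1_nonneg (z - v))
    rcases le_total (L₀ : ℝ) (n1 (z - v)) with k | k
    · linarith [V5.T_ge_of_notKes hc.le (hK v (hs1 v hv)) k]
    · linarith [V5.T_nonneg (sh v τ) 0 (z - v), mul_le_mul_of_nonneg_left k hc.le]
  rw [e.ρ_sub] at e4
  refine ⟨j, ?_, v, q.takeUntil v hv, hj, fun y hy => ?_, by linarith⟩
  · rw [hj] at v1
    exact_mod_cast v1
  · have := q.support_takeUntil_subset_support hv hy
    exact ⟨hs1 y this, hj ▸ hm y this⟩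

end STRONG

open STRONG in
theorem bSTRONG : St_STRONG := by
  intro p hR e M z Λ L₀ s φ g hs hz hL hF
  have h1 : {τ | T τ 0 z < e.ρ z - (s + p.c * L₀)} ⊆
      (⋃ j ∈ range (Λ + 1), Fast e ((j : ℕ) : ℤ) Λ s) ∪ ⋃ v ∈ bl 0 Λ, {τ | sh v τ ∈ Kes p.c L₀} := by
    intro τ hτ
    by_contra hn
    rw [Set.mem_union, not_or] at hn
    obtain ⟨j, hj, hf⟩ := cut g hs hz hL (fun v hv hk => hn.2 (Set.mem_iUnion₂.2
      ⟨v, T3X.mem_bl.2 (by rwa [sub_zero]), hk⟩)) hτ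
    exact hn.1 (Set.mem_iUnion₂.2 ⟨j, mem_range.2 (Nat.lt_succ_of_le hj), hf⟩)
  refine ((p.pr_mono h1).trans (p.pr_union_le _ _)).trans (add_le_add ?_ ?_)
  · refine (p.pr_biUnion_le _ _).trans ((sum_le_card_nsmul (range (Λ + 1)) _ φ fun (j : ℕ) hj =>
      hF j (Int.natCast_nonneg j) (by have := mem_range.1 hj; omega)).trans (le_of_eq ?_))
    rw [card_range, nsmul_eq_mul]
    push_cast
    rfl
  · refine (p.pr_biUnion_le _ _).trans ((sum_le_card_nsmul _ _ (2 * (1 / 2) ^ L₀) fun v _ =>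
      (p.pr_sh v _).trans_le (hR.2 L₀)).trans ?_)
    rw [nsmul_eq_mul]
    have h2 : ((bl 0 Λ).card : ℝ) ≤ (2 * (Λ : ℝ) + 1) ^ 3 := by exact_mod_cast T3X.card_bl 0 Λ
    have h3 := mul_le_mul_of_nonneg_right h2 (by positivity : (0 : ℝ) ≤ 2 * (1 / 2) ^ L₀)
    linarith

end Pool.Agent.Lib.T3S
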