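import Pool.Agent.Lib.T3S.Blue

/-! The tube system from the pointwise lower tail and the count of the tube. -/

namespace Pool.Agent.Lib.T3S

open MeasureTheory ProbabilityTheory Filter Topology Finset Pool.Agent.Lib.V3
open Pool.Agent.Lib.V5 (SW T Sys Kes)
open Pool.Agent.Lib.T3X (Pth Dz bl near)
open scoped NNReal ENNReal

namespace TUBE

lemma psi_nonneg (p : Sys) (d : Dat) (z : V) : 0 ≤ psi p d z := by
  unfold psi
  split_ifs with h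
  · have h0 : (0 : ℝ) < z 0 := by exact_mod_cast h.1
    have := p.eps_pos
    have := d.eta_nonneg z
    positivity
  · have := p.c_pos
    have := n1_nonneg z
    positivity

/-- a union bound over a ball -/
lemma ball_le (p : Par) (u : V) (Λ : ℕ) (hΛ : 1 ≤ Λ) (A : V → Set Cfg) {B : Set Cfg} {φ : ℝ}
    (hφ : 0 ≤ φ) (hA : ∀ y, n1 (y - u) ≤ Λ → p.pr (A y) ≤ φ)
    (hB : ∀ τ ∈ B, ∃ y, n1 (y - u) ≤ Λ ∧ τ ∈ A y) : p.pr B ≤ 27 * (Λ : ℝ) ^ 3 * φ := by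
  have h1 : p.pr B ≤ p.pr (⋃ y ∈ bl u Λ, A y) := p.pr_mono fun τ hτ => by
    obtain ⟨y, hy, h⟩ := hB τ hτ
    exact Set.mem_biUnion (mem_coe.2 (T3X.mem_bl.2 hy)) h
  have h2 : ∑ y ∈ bl u Λ, p.pr (A y) ≤ (bl u Λ).card • φ :=
    sum_le_card_nsmul _ _ _ fun y hy => hA y (T3X.mem_bl.1 hy)
  have h3 : ((bl u Λ).card : ℝ) ≤ (2 * (Λ : ℝ) + 1) ^ 3 := by exact_mod_cast T3X.card_bl u Λ
  have h4 : (1 : ℝ) ≤ Λ := by exact_mod_cast hΛ
  have h5 : (2 * (Λ : ℝ) + 1) ^ 3 ≤ (3 * (Λ : ℝ)) ^ 3 :=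
    pow_le_pow_left₀ (by positivity) (by linarith) 3
  rw [nsmul_eq_mul] at h2
  refine h1.trans ((p.pr_biUnion_le _ _).trans (h2.trans ?_))
  exact mul_le_mul_of_nonneg_right (by linarith) hφ

end TUBE

theorem bTUBE (hP : St_POINT) (hC : St_COUNT) : St_TUBE := by
  intro p hR
  obtain ⟨C₁, Γ, hC₁, hΓ, hP⟩ := hP p hR
  obtain ⟨C₂, hC₂, hC⟩ := hC p
  refine ⟨27 * C₁ + C₂, Γ, by linarith, hΓ, ?_⟩
  intro σ X w Λ L₀ n₁ hσ hX hV hn hw hΛ hL hΛw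
  have hσ4 : (0 : ℝ) ≤ σ ^ 4 := by positivity
  have hΛ0 : (0 : ℝ) ≤ Λ := Nat.cast_nonneg _
  have hn0 : (0 : ℝ) ≤ n₁ := Nat.cast_nonneg _
  have hle : C₁ ≤ 27 * C₁ + C₂ := by linarith
  have hσC : C₁ * σ ^ 4 ≤ (27 * C₁ + C₂) * σ ^ 4 := mul_le_mul_of_nonneg_right hle hσ4
  have hw' : (n₁ : ℝ) ≤ w := by exact_mod_cast hw
  obtain ⟨d, hd, hx, hz⟩ := hP σ w hσ hV (hσC.trans (hn.trans hw'))
  obtain ⟨x, hx1, hx2, hx3⟩ := hx n₁ (hσC.trans hn) hw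
  have hΛw' : C₁ * Λ ≤ w := (mul_le_mul_of_nonneg_right hle hΛ0).trans hΛw
  have hE : (0 : ℝ) ≤ σ ^ 2 / w + (1 / 2) ^ L₀ := by positivity
  have hφ : (0 : ℝ) ≤ C₁ * Λ ^ 3 * (σ ^ 2 / w + (1 / 2) ^ L₀) :=
    mul_nonneg (mul_nonneg (by linarith) (by positivity)) hE
  have hfin : 27 * (Λ : ℝ) ^ 3 * (C₁ * Λ ^ 3 * (σ ^ 2 / w + (1 / 2) ^ L₀)) ≤
      (27 * C₁ + C₂) * Λ ^ 6 * (σ ^ 2 / w + (1 / 2) ^ L₀) := by
    have : 0 ≤ C₂ * (Λ : ℝ) ^ 6 * (σ ^ 2 / w + (1 / 2) ^ L₀) :=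
      mul_nonneg (mul_nonneg (by linarith) (by positivity)) hE
    calc _ = 27 * C₁ * (Λ : ℝ) ^ 6 * (σ ^ 2 / w + (1 / 2) ^ L₀) := by ring
      _ ≤ _ := by rw [add_mul, add_mul]; linarith
  have hpt : ∀ u v : V, n1 (v - u) ≤ Λ →
      p.pr {τ | T τ u v < d.ρ (v - u) + psi p d (v - u) - (C₁ * σ ^ 4 + p.c * L₀)} ≤
        C₁ * Λ ^ 3 * (σ ^ 2 / w + (1 / 2) ^ L₀) := fun u v h =>
    (V5.pr_T p.toPar u v (Set.Iio _)).trans_le (hz Λ L₀ (v - u) hΛ hL hΛw' h)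
  refine ⟨{ toSys := p
            ρ := d.ρ
            ψ := psi p d
            S := C₁ * σ ^ 4 + p.c * L₀
            X := X
            Λ := Λ
            C := 27 * C₁ + C₂
            ps := (27 * C₁ + C₂) * Λ ^ 6 * (σ ^ 2 / w + (1 / 2) ^ L₀)
            ρ_add := d.ρ_add
            ρ_le := fun v => hd.abs_ρ v
            ψ_nonneg := TUBE.psi_nonneg p d
            S_nonneg := add_nonneg (mul_nonneg (by linarith) hσ4)
              (mul_nonneg p.c_pos.le (Nat.cast_nonneg _))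
            one_le_X := hX
            one_le_C := by linarith
            light := hR.1
            count := fun W n h1 hW => (hC d W n X h1 hX hW).trans
              (mul_le_mul_of_nonneg_right
                (mul_le_mul_of_nonneg_right (by linarith) (sq_nonneg n)) (by linarith))
            out := fun u => (TUBE.ball_le p.toPar u Λ hΛ _ hφ (fun y hy => hpt u y hy)
              fun τ hτ => hτ).trans hfin
            inn := fun v => (TUBE.ball_le p.toPar v Λ hΛ _ hφ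
              (fun y hy => hpt y v (by rwa [n1_sub_comm])) fun τ hτ => ?_).trans hfin },
    x, rfl, rfl, rfl, rfl, ?_, rfl, hx1, ?_, ?_⟩
  · obtain ⟨y, hy, h⟩ := hτ
    refine ⟨y, by rwa [n1_sub_comm], ?_⟩
    have := TUBE.psi_nonneg p d (v - y)
    show T τ y v < _
    linarith
  · show C₁ * σ ^ 4 + p.c * L₀ ≤ _
    linarith
  · exact hx2.trans (mul_le_mul_of_nonneg_right hle hn0)
  · exact hx3.trans hσC

end Pool.Agent.Lib.T3S
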