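import Pool.Agent.Lib.T3X.Base
import Pool.Agent.Lib.V5.Blue

/-! Definitions and rows: the iterated variance bound inside a tube, dimension three. -/

namespace Pool.Agent.Lib.T3S

open MeasureTheory ProbabilityTheory Filter Topology Finset Pool.Agent.Lib.V3
open Pool.Agent.Lib.V5 (SW T Sys Kes)
open Pool.Agent.Lib.T3X (Pth Dz bl near)
open Pool.Agent.Lib.MP_eba68f_pr (lattice passage)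
open scoped NNReal ENNReal

/-- light edges are rare and long paths are slow -/
def Rare (p : Sys) : Prop :=
  p.F.real (Set.Iic p.hi) ≤ 1 / 576 ∧ ∀ L : ℕ, p.pr (Kes p.c L) ≤ 2 * (1 / 2) ^ L

/-- the cone of slopes at most `R` -/
def Cone (p : Sys) (z : V) : Prop :=
  0 < z 0 ∧ |(z 1 : ℝ)| ≤ p.R * z 0 ∧ |(z 2 : ℝ)| ≤ p.R * z 0

open Classical in
/-- the cost of leaving the axis -/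
noncomputable def psi (p : Sys) (d : Dat) (z : V) : ℝ :=
  if Cone p z then p.eps / 20 * d.eta z / z 0 else p.c / 4 * n1 z

/-- a fast walk from the origin up to height `j`, below that height and within distance `Λ` -/
def Fast (d : Dat) (j : ℤ) (Λ s : ℝ) : Set Cfg :=
  {τ | ∃ (v : V) (q : G.Walk 0 v), v 0 = j ∧ (∀ z ∈ q.support, n1 z ≤ Λ ∧ z 0 ≤ j) ∧
    SW τ q.edges ≤ d.ρ v - s}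

/-- a system with a linear functional, a cost, and a strong lower tail up to distance `Λ` -/
structure Tb extends Sys where
  ρ : V → ℝ
  ψ : V → ℝ
  S : ℝ
  X : ℝ
  Λ : ℝ
  C : ℝ
  ps : ℝ
  ρ_add : ∀ u v, ρ (u + v) = ρ u + ρ v
  ρ_le : ∀ v, |ρ v| ≤ b * n1 v
  ψ_nonneg : ∀ v, 0 ≤ ψ v
  S_nonneg : 0 ≤ S
  one_le_X : 1 ≤ X
  one_le_C : 1 ≤ C
  light : F.real (Set.Iic hi) ≤ 1 / 576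
  count : ∀ (W : Finset V) (n : ℝ), 1 ≤ n → (∀ z ∈ W, n1 z ≤ n ∧ ψ z ≤ X) →
    (W.card : ℝ) ≤ C * n ^ 2 * X
  out : ∀ u : V, toPar.pr {τ | ∃ y, n1 (y - u) ≤ Λ ∧ T τ u y < ρ (y - u) + ψ (y - u) - S} ≤ ps
  inn : ∀ v : V, toPar.pr {τ | ∃ y, n1 (v - y) ≤ Λ ∧ T τ y v < ρ (v - y) - S} ≤ ps

noncomputable def Tb.d (p : Tb) : ℝ := p.hi - p.lo
/-- the excess allowed per generation -/
noncomputable def Tb.S1 (p : Tb) : ℝ := 2 * p.S + p.b + p.d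

/-- `t` is a quantile of level `α` of the passage time from `u` to `v` -/
def Qt (p : Par) (α : ℝ) (u v : V) (t : ℝ) : Prop :=
  p.pr {τ | T τ u v < t} ≤ α ∧ α ≤ p.pr {τ | T τ u v ≤ t}

/-- room for `j` more generations -/
def Ok (p : Tb) (j : ℕ) (u v : V) (t : ℝ) : Prop :=
  2 ^ j * n1 (v - u) ≤ p.Λ ∧ t - p.ρ (v - u) + j * p.S1 ≤ p.X

/-- below every quantile of level `α ∈ [π, 1/2]` one gains `g` with probability `c α ^ k` -/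
def Gain (p : Tb) (j : ℕ) (g ρ π : ℝ) (k : ℕ) (c : ℝ) : Prop :=
  ∀ (u v : V) (α t : ℝ), ρ ≤ n1 (v - u) → π ≤ α → α ≤ 1 / 2 → Qt p.toPar α u v t → Ok p j u v t →
    c * α ^ k ≤ p.pr {τ | T τ u v ≤ t - g}

/-- medians grow at most linearly -/
def Lin (p : Par) (K : ℝ) : Prop :=
  ∀ (u v : V) (t : ℝ), p.pr {τ | T τ u v < t} ≤ 1 / 2 → t ≤ K * n1 (v - u)

/-- admissible pair of a level ratio and a window -/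
def Adm (p : Tb) (θ H : ℝ) : Prop :=
  0 < θ ∧ θ ≤ 1 ∧ 0 < H ∧ (2560 * H) ^ 2 * θ * (p.C * p.X) ≤ (p.q * p.d) ^ 2

/-- some self-avoiding path with `n` steps from `v` has half of its edges light -/
def Lig (hi : ℝ≥0) (v : V) (n : ℕ) : Set Cfg :=
  {τ | ∃ g, g 0 = v ∧ Pth n g ∧ n ≤ 2 * ((range n).filter fun j => τ s(g j, g (j + 1)) ≤ hi).card}

open Classical in
/-- the sites of the tube within distance `n` of `u` -/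
noncomputable def Tu (p : Tb) (u : V) (n : ℕ) : Finset V :=
  (bl u n).filter fun y => p.ψ (y - u) ≤ p.X

/-- the heavy edge from `y` to `z` lies on a nearly optimal walk and `y` is reached early -/
def Ev (p : Tb) (o x : V) (a : V → ℝ) (y z : V) : Set Cfg :=
  {τ | T τ o y + τ s(y, z) + T τ z x ≤ T τ o x + p.d / 2 ∧ p.hi < τ s(y, z) ∧ T τ o y < a y}

open Classical in
/-- number of marked directed edges -/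
noncomputable def cnt (p : Tb) (o x : V) (a : V → ℝ) (I : Finset (V × V)) (τ : Cfg) : ℕ :=
  (I.filter fun i => τ ∈ Ev p o x a i.1 i.2).card

/-- the site lies in the shell number `i` of width `w` round `u` -/
def Sh (u : V) (w i : ℕ) (y : V) : Prop :=
  ((i * w : ℕ) : ℝ) < n1 (y - u) ∧ n1 (y - u) ≤ (((i + 1) * w : ℕ) : ℝ)

lemma Tb.d_pos (p : Tb) : 0 < p.d := sub_pos.2 p.lo_lt_hi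
lemma Tb.d_le (p : Tb) : p.d ≤ p.hi := sub_le_self _ p.lo.coe_nonneg
lemma Tb.ps_nonneg (p : Tb) : 0 ≤ p.ps := (p.pr_nonneg _).trans (p.out 0)
lemma Tb.S1_pos (p : Tb) : 0 < p.S1 := by
  unfold Tb.S1
  linarith [p.S_nonneg, p.b_pos, p.d_pos]

lemma Ev_meas (p : Tb) (o x : V) (a : V → ℝ) (y z : V) : MeasurableSet (Ev p o x a y z) :=
  (measurableSet_le (((V5.T_meas o y).add (V5.meas_w _)).add (V5.T_meas z x))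
    ((V5.T_meas o x).add_const _)).inter
    ((measurableSet_lt measurable_const (measurable_pi_apply _)).inter
      (measurableSet_lt (V5.T_meas o y) measurable_const))

lemma mem_Tu {p : Tb} {u y : V} {n : ℕ} :
    y ∈ Tu p u n ↔ n1 (y - u) ≤ n ∧ p.ψ (y - u) ≤ p.X := by
  classical
  unfold Tu
  rw [mem_filter, T3X.mem_bl]

lemma card_Tu (p : Tb) (u : V) {n : ℕ} (hn : 1 ≤ n) :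
    ((Dz (Tu p u n)).card : ℝ) ≤ 6 * (p.C * (n : ℝ) ^ 2 * p.X) := by
  classical
  refine (T3X.card_Dz _).trans (mul_le_mul_of_nonneg_left ?_ (by norm_num))
  rw [← card_image_of_injective (Tu p u n) (sub_left_injective (b := u))]
  refine p.count _ n (by exact_mod_cast hn) fun z hz => ?_
  obtain ⟨y, hy, rfl⟩ := mem_image.1 hz
  exact mem_Tu.1 hy

/-- quantiles exist -/
def St_QUANT : Prop := ∀ (p : Par) (u v : V) (α : ℝ), 0 < α → α < 1 → ∃ t, Qt p α u v t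

/-- linear medians -/
def St_LIN : Prop := ∀ p : Sys, Lin p.toPar (2 * p.b)

/-- the martingale bound for the clamped passage time -/
def St_MART : Prop := ∀ (p : Tb) (o x : V) (a : V → ℝ) (π α t H lam : ℝ) (I : Finset (V × V)),
  0 < lam → 0 ≤ H → (∀ v, p.pr {τ | T τ o v < a v} ≤ π) → p.pr {τ | T τ o x < t} ≤ α →
  (∀ i ∈ I, G.Adj i.1 i.2) →
  p.q * p.d / 2 * ∑ i ∈ I,
      p.pr (Ev p o x a i.1 i.2 ∩ {τ | t - H + p.d / 2 ≤ T τ o x ∧ T τ o x ≤ t}) ≤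
    lam / 2 * (H ^ 2 * α) + π / (2 * lam) * I.card

/-- Peierls bound from one site -/
def St_PEI : Prop := ∀ (p : Par) (hi : ℝ≥0), p.F.real (Set.Iic hi) ≤ 1 / 576 →
  ∀ (v : V) (n : ℕ), p.pr (Lig hi v n) ≤ (1 / 2) ^ n

/-- the piece of a nearly optimal path in one shell -/
def St_SEG : Prop := ∀ (τ : Cfg) (u v : V) (w i : ℕ) (s : ℝ), 1 ≤ w → 0 < s →
  (((i + 1) * w : ℕ) : ℝ) ≤ n1 (v - u) →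
  ∃ g, Pth (w - 1) g ∧ (∀ j, j ≤ w - 1 → Sh u w i (g j)) ∧ ∀ j, j < w - 1 →
    T τ u (g j) + τ s(g j, g (j + 1)) + T τ (g (j + 1)) v ≤ T τ u v + s

/-- good edges in half of the shells -/
def St_DET : Prop := ∀ (p : Tb) (τ : Cfg) (u v : V) (M w : ℕ) (a b : V → ℝ), 2 ≤ w →
  (((M + 1) * w : ℕ) : ℝ) ≤ n1 (v - u) →
  (∀ y, n1 (y - u) ≤ (((M + 1) * w : ℕ) : ℝ) → τ ∉ Lig p.hi y (w - 1)) →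
  (∀ y, n1 (y - u) ≤ (((M + 1) * w : ℕ) : ℝ) → T τ u y + T τ y v ≤ T τ u v + p.d / 2 →
    p.ψ (y - u) ≤ p.X) →
  4 * (cnt p u v a (Dz (Tu p u ((M + 1) * w))) τ + cnt p v u b (Dz (Tu p u ((M + 1) * w))) τ) ≤
    M * (w - 1) →
  ∃ (S : Finset ℕ) (y z : ℕ → V), M ≤ 2 * S.card ∧ ∀ i ∈ S, 1 ≤ i ∧ i ≤ M ∧ G.Adj (y i) (z i) ∧
    Sh u w i (y i) ∧ Sh u w i (z i) ∧ a (y i) + p.hi + b (z i) ≤ T τ u v + p.d / 2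

/-- few marked edges on the window event -/
def St_MARK : Prop := ∀ (p : Tb) (u v : V) (M w : ℕ) (a b : V → ℝ) (α θ t H : ℝ), 1 ≤ M → 2 ≤ w →
  0 < α → Adm p θ H → (∀ y, p.pr {τ | T τ u y < a y} ≤ α * θ) →
  (∀ z, p.pr {τ | T τ v z < b z} ≤ α * θ) → p.pr {τ | T τ u v < t} ≤ α →
  p.pr {τ | (t - H + p.d / 2 ≤ T τ u v ∧ T τ u v ≤ t) ∧ M * (w - 1) ≤
    4 * (cnt p u v a (Dz (Tu p u ((M + 1) * w))) τ +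
      cnt p v u b (Dz (Tu p u ((M + 1) * w))) τ)} ≤ α / 8

/-- the dichotomy -/
def St_DICH : Prop := ∀ (p : Tb) (j : ℕ) (u v : V) (M w : ℕ) (α θ t H : ℝ), 1 ≤ M → 2 ≤ w →
  0 < α → α ≤ 1 / 2 → Adm p θ H → Qt p.toPar α u v t → Ok p (j + 1) u v t → 16 * p.ps ≤ α * θ →
  (((M + 1) * w : ℕ) : ℝ) ≤ n1 (v - u) → 1000 * ((M : ℝ) * w) ^ 3 * (1 / 2) ^ (w - 1) ≤ α →
  α / 2 ≤ p.pr {τ | T τ u v ≤ t - H + p.d / 2} ∨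
    ∃ (S : Finset ℕ) (y z : ℕ → V) (A B : ℕ → ℝ), M ≤ 2 * S.card ∧ ∀ i ∈ S, 1 ≤ i ∧ i ≤ M ∧
      G.Adj (y i) (z i) ∧ Sh u w i (y i) ∧ Sh u w i (z i) ∧ Qt p.toPar (α * θ) u (y i) (A i) ∧
      Qt p.toPar (α * θ) (z i) v (B i) ∧ A i + p.hi + B i ≤ t + p.d / 2 ∧
      Ok p j u (y i) (A i) ∧ Ok p j (z i) v (B i)

/-- two halves -/
def St_CONCAT : Prop := ∀ (p : Tb) (j : ℕ) (g π θ H : ℝ) (ρ : ℕ), Adm p θ H → θ ≤ p.q →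
  θ ≤ 1 / 2 → 2 * g + p.d ≤ H → 2 ≤ ρ → 0 < π → 16 * p.ps ≤ π * θ →
  1000 * (ρ : ℝ) ^ 3 * (1 / 2) ^ (ρ - 1) ≤ π →
  Gain p j g ρ (π * θ) 2 (θ ^ 6) → Gain p (j + 1) (2 * g + p.d / 2) (3 * ρ) π 4 (θ ^ 17)

/-- localisation -/
def St_LOC : Prop := ∀ (p : Tb) (z y : V) (c : ℝ) (L : ℕ), 2 * c ≤ p.hi * L →
  ∃ Φ : Set Cfg, MeasurableSet Φ ∧ IsLowerSet Φ ∧ Dep (near z L) Φ ∧
    (∀ τ ∈ Φ, T τ z y < c) ∧ p.pr {τ | T τ z y < c} - (1 / 2) ^ L ≤ p.pr Φ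

/-- planting independent local events -/
def St_PLANT : Prop := ∀ (p : Par) (ι : Type) (S : Finset ι) (Φ W : ι → Set Cfg) (B : Set Cfg)
  (E : ι → Set (Sym2 V)) (β φ : ℝ), 0 < φ → 0 < β → MeasurableSet B →
  (∀ i ∈ S, MeasurableSet (Φ i) ∧ IsLowerSet (Φ i) ∧ MeasurableSet (W i) ∧ IsLowerSet (W i) ∧
    Dep (E i) (Φ i) ∧ φ ≤ p.pr (Φ i) ∧ β ≤ p.pr (W i) ∧ Φ i ∩ W i ⊆ B) →
  (∀ i ∈ S, ∀ j ∈ S, i ≠ j → Disjoint (E i) (E j)) → 4 ≤ β ^ 2 * S.card * φ → β / 2 ≤ p.pr B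

/-- many places -/
def St_RESET : Prop := ∀ (p : Tb) (j : ℕ) (K g π c : ℝ) (k ρ M w L : ℕ), 0 < K →
  Lin p.toPar K → 0 ≤ g → 0 < c → Gain p j g ρ π k c →
  ∀ (u v : V) (α t θ₁ θ₂ H₁ H₂ : ℝ), 0 < α → α ≤ 1 / 2 → Qt p.toPar α u v t →
  Ok p (j + 2) u v t → Adm p θ₁ H₁ → Adm p θ₂ H₂ → π ≤ α * θ₁ * θ₂ →
  16 * p.ps ≤ α * θ₁ * θ₂ → 1 ≤ M → 2 ≤ w → 2 ≤ ρ →
  1000 * ((M : ℝ) * w) ^ 3 * (1 / 2) ^ (w - 1) ≤ α →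
  1000 * (ρ : ℝ) ^ 3 * (1 / 2) ^ (ρ - 1) ≤ α * θ₁ → 4 * K * ρ + p.d ≤ p.hi * L → 2 * L ≤ w →
  (1 / 2) ^ L ≤ c * (α * θ₁ * θ₂) ^ k / 2 →
  32 ≤ (p.q ^ 2 * (α * θ₁) * (α * θ₁ * θ₂)) ^ 2 * M * (c * (α * θ₁ * θ₂) ^ k) →
  (((M + 1) * w + 2 * ρ : ℕ) : ℝ) ≤ n1 (v - u) →
  α / 2 ≤ p.pr {τ | T τ u v ≤ t - H₁ + p.d / 2} ∨
    p.q * (α * θ₁) ^ 2 / 2 ≤ p.pr {τ | T τ u v ≤ t - H₂} ∨
    p.q ^ 2 * (α * θ₁) * (α * θ₁ * θ₂) / 2 ≤ p.pr {τ | T τ u v ≤ t - g}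

/-- one round -/
def St_STEP : Prop := ∀ (p : Tb) (j : ℕ) (K g π θ H : ℝ) (C₀ ρ M : ℕ), 0 < K →
  Lin p.toPar K → 2 ≤ C₀ → 12 * K + p.d ≤ p.hi * C₀ → Adm p θ H → θ ≤ p.q → θ ≤ 1 / 2 → 0 ≤ g →
  2 * g + p.d ≤ H → 2 ≤ ρ → 0 < π → π ≤ 1 → 16 * p.ps ≤ π * θ ^ 3 → 32 ≤ π ^ 8 * θ ^ 35 * M →
  2000 * (2 * (C₀ : ℝ) * M * ρ) ^ 3 * (1 / 2) ^ ρ ≤ π ^ 4 * θ ^ 25 →
  Gain p j g ρ (π * θ ^ 3) 2 (θ ^ 6) →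
  Gain p (j + 3) (2 * g + p.d / 2) (((4 * C₀ + 6) * M * ρ : ℕ) : ℝ) π 2 (θ ^ 6)

/-- `n` rounds -/
def St_ITER : Prop := ∀ (p : Tb) (K π θ H : ℝ) (C₀ ρ₀ M n : ℕ), 0 < K →
  Lin p.toPar K → 2 ≤ C₀ → 12 * K + p.d ≤ p.hi * C₀ → Adm p θ H → θ ≤ p.q → θ ≤ 1 / 2 →
  2 ^ n * p.d ≤ H → 2 ≤ ρ₀ → 0 < π → π ≤ 1 → 16 * p.ps ≤ π * θ ^ (3 * n) →
  32 ≤ (π * θ ^ (3 * n)) ^ 8 * θ ^ 35 * M →
  (∀ ρ : ℕ, ρ₀ ≤ ρ →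
    2000 * (2 * (C₀ : ℝ) * M * ρ) ^ 3 * (1 / 2) ^ ρ ≤ (π * θ ^ (3 * n)) ^ 4 * θ ^ 25) →
  Gain p (3 * n) ((2 ^ n - 1) * p.d / 2) ((((4 * C₀ + 6) * M) ^ n * ρ₀ : ℕ) : ℝ) π 2 (θ ^ 6)

/-- the gain cannot pass the strong lower tail -/
def St_END : Prop := ∀ (p : Tb) (θ t : ℝ) (C₀ ρ₀ M n : ℕ) (x : V), 2 ≤ C₀ →
  24 * p.b + p.d ≤ p.hi * C₀ → Adm p θ (2 ^ n * p.d) → θ ≤ p.q → θ ≤ 1 / 2 → 2 ≤ ρ₀ →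
  32 ≤ (1 / 2 * θ ^ (3 * n)) ^ 8 * θ ^ 35 * M →
  (∀ ρ : ℕ, ρ₀ ≤ ρ →
    2000 * (2 * (C₀ : ℝ) * M * ρ) ^ 3 * (1 / 2) ^ ρ ≤ (1 / 2 * θ ^ (3 * n)) ^ 4 * θ ^ 25) →
  32 * p.ps ≤ θ ^ (3 * n + 6) → ((((4 * C₀ + 6) * M) ^ n * ρ₀ : ℕ) : ℝ) ≤ n1 x →
  Qt p.toPar (1 / 2) 0 x t → Ok p (3 * n) 0 x t → (2 ^ n - 1) * p.d / 2 ≤ t - p.ρ x + p.S

/-- long paths are slow, with a rate -/
def St_KESX : Prop := ∀ (p : Par) (r a : ℝ≥0), p.F (Set.Iio r) = 0 → r < a →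
  p.F.real (Set.Iic a) ≤ 1 / 576 → ∀ L : ℕ, p.pr (Kes (r + (a - r : ℝ) / 4) L) ≤ 2 * (1 / 2) ^ L

/-- a datum and its tilts -/
def St_GEO6 : Prop := ∀ (p : Sys) (M : ℕ), 1 ≤ M → ∃ d : Dat, p.Good M d ∧
  ∀ z : V, 0 < z 0 → z 0 ≤ M → |(z 1 : ℝ)| ≤ p.R * z 0 → |(z 2 : ℝ)| ≤ p.R * z 0 →
    ∃ e : Dat, p.Good M e ∧ d.ρ z + p.eps / 20 * d.eta z / z 0 ≤ e.ρ z

/-- the chain of scales for every datum -/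
def St_CH6 : Prop := ∀ p : Sys, ∃ a₁ a B K Γ : ℝ, 0 ≤ a₁ ∧ 0 ≤ a ∧ 0 ≤ B ∧ 1 ≤ K ∧ 0 ≤ Γ ∧
  ∀ (d : Dat) (σ : ℝ) (w : ℕ), p.Good (24 * w ^ 4) d → 1 ≤ σ → p.VarM σ (Γ * w ^ 4) →
    K * σ ^ 4 ≤ w → p.Half d σ a₁ (24 * w ^ 4) (p.D * w) ∧ p.LowB d σ a w ∧
      ∀ n₁ : ℕ, K * σ ^ 4 ≤ n₁ → n₁ ≤ w →
        ∃ m : ℕ, n₁ ≤ 3 * m ∧ m < n₁ ∧ p.PP d σ m (B * σ ^ 2 / √m)

/-- fast walks are very rare -/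
def St_FASTX : Prop := ∀ (p : Sys) (a₁ a B : ℝ), 0 ≤ a₁ → 0 ≤ a → ∃ C : ℝ, 1 ≤ C ∧
  ∀ (d : Dat) (M : ℕ) (σ : ℝ) (n Λ : ℕ) (j : ℤ), p.Good M d → 1 ≤ σ → 2 * n ≤ M →
    C * σ ^ 4 ≤ n → p.Half d σ a₁ M (p.D * n) → p.LowB d σ a n → p.PP d σ n (B * σ ^ 2 / √n) →
    1 ≤ Λ → Λ ≤ n → 0 ≤ j → j ≤ Λ → p.pr (Fast d j Λ (C * σ ^ 4)) ≤ C * σ ^ 2 * Λ ^ 2 / n

/-- the cut at a top vertex -/
def St_STRONG : Prop := ∀ p : Sys, Rare p → ∀ (e : Dat) (M : ℕ) (z : V) (Λ L₀ : ℕ) (s φ : ℝ),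
  p.Good M e → 0 ≤ s → p.b * n1 z ≤ p.c * Λ → L₀ ≤ Λ →
  (∀ j : ℤ, 0 ≤ j → j ≤ Λ → p.pr (Fast e j Λ s) ≤ φ) →
  p.pr {τ | T τ 0 z < e.ρ z - (s + p.c * L₀)} ≤
    (Λ + 1) * φ + 2 * (2 * (Λ : ℝ) + 1) ^ 3 * (1 / 2) ^ L₀

/-- off the cone -/
def St_OFF : Prop := ∀ p : Sys, Rare p → ∀ (d : Dat) (M : ℕ) (z : V) (L₀ : ℕ), p.Good M d →
  ¬Cone p z → p.pr {τ | T τ 0 z < d.ρ z + p.c / 4 * n1 z - p.c * L₀} ≤ 2 * (1 / 2) ^ L₀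

/-- the tube is planar -/
def St_COUNT : Prop := ∀ p : Sys, ∃ C : ℝ, 1 ≤ C ∧ ∀ (d : Dat) (W : Finset V) (n X : ℝ), 1 ≤ n →
  1 ≤ X → (∀ z ∈ W, n1 z ≤ n ∧ psi p d z ≤ X) → (W.card : ℝ) ≤ C * n ^ 2 * X

/-- the strong lower tail at one site -/
def St_POINT : Prop := ∀ p : Sys, Rare p → ∃ C Γ : ℝ, 1 ≤ C ∧ 0 ≤ Γ ∧ ∀ (σ : ℝ) (w : ℕ), 1 ≤ σ →
  p.VarM σ (Γ * w ^ 4) → C * σ ^ 4 ≤ w → ∃ d : Dat, p.Good (24 * w ^ 4) d ∧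
    (∀ n₁ : ℕ, C * σ ^ 4 ≤ n₁ → n₁ ≤ w →
      ∃ x : V, (n₁ : ℝ) ≤ 3 * n1 x ∧ n1 x ≤ C * n₁ ∧ p.g d x ≤ C * σ ^ 4) ∧
    ∀ (Λ L₀ : ℕ) (z : V), 1 ≤ Λ → L₀ ≤ Λ → C * Λ ≤ w → n1 z ≤ Λ →
      p.pr {τ | T τ 0 z < d.ρ z + psi p d z - (C * σ ^ 4 + p.c * L₀)} ≤
        C * Λ ^ 3 * (σ ^ 2 / w + (1 / 2) ^ L₀)

/-- the tube system -/
def St_TUBE : Prop := ∀ p : Sys, Rare p → ∃ C Γ : ℝ, 1 ≤ C ∧ 0 ≤ Γ ∧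
  ∀ (σ X : ℝ) (w Λ L₀ n₁ : ℕ), 1 ≤ σ → 1 ≤ X → p.VarM σ (Γ * w ^ 4) → C * σ ^ 4 ≤ n₁ → n₁ ≤ w →
    1 ≤ Λ → L₀ ≤ Λ → C * Λ ≤ w → ∃ (P : Tb) (x : V), P.toSys = p ∧ P.X = X ∧ P.Λ = Λ ∧ P.C = C ∧
      P.S ≤ C * σ ^ 4 + p.c * L₀ ∧ P.ps = C * Λ ^ 6 * (σ ^ 2 / w + (1 / 2) ^ L₀) ∧
      (n₁ : ℝ) ≤ 3 * n1 x ∧ n1 x ≤ C * n₁ ∧ p.h x - P.ρ x ≤ C * σ ^ 4

/-- choice of the parameters -/
def St_ARITH : Prop := ∀ (c₀ C δ : ℝ) (C₀ : ℕ), 0 < c₀ → c₀ ≤ 1 → 1 ≤ C → 0 < δ → ∃ A k₀ : ℕ,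
  ∀ k : ℕ, k₀ ≤ k → ∃ M ρ₀ n₁ Λ L₀ : ℕ, 2 ≤ ρ₀ ∧
    32 ≤ (1 / 2 * (c₀ / 64 ^ k) ^ (3 * (2 * k))) ^ 8 * (c₀ / 64 ^ k) ^ 35 * M ∧
    (∀ ρ : ℕ, ρ₀ ≤ ρ → 2000 * (2 * (C₀ : ℝ) * M * ρ) ^ 3 * (1 / 2) ^ ρ ≤
      (1 / 2 * (c₀ / 64 ^ k) ^ (3 * (2 * k))) ^ 4 * (c₀ / 64 ^ k) ^ 25) ∧
    3 * (((4 * C₀ + 6) * M) ^ (2 * k) * ρ₀) ≤ n₁ ∧ C * 2 ^ k ≤ n₁ ∧
    2 ^ (3 * (2 * k)) * (C * n₁) ≤ Λ ∧ L₀ ≤ Λ ∧ C * Λ ≤ 2 ^ (A * k ^ 3) ∧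
    32 * (C * Λ ^ 6 * (2 ^ k / 2 ^ (A * k ^ 3) + (1 / 2) ^ L₀)) ≤
      (c₀ / 64 ^ k) ^ (3 * (2 * k) + 6) ∧
    20 * k * (C * (2 ^ k + L₀)) ≤ δ * 4 ^ k ∧ 1 ≤ k

/-- the variance bound fails -/
def St_TOP (e : ℕ) : Prop := ∀ p : Sys, Rare p → ∃ (A k₀ : ℕ) (Γ : ℝ), 0 ≤ Γ ∧
  ∀ (k : ℕ) (σ : ℝ), k₀ ≤ k → 1 ≤ σ → σ ^ 4 ≤ 2 ^ k → ¬p.VarM σ (Γ * (2 ^ (A * k ^ e)) ^ 4)

/-- the rate -/
def St_RATE (γ : ℝ) : Prop := ∀ p : Sys, Rare p → ∃ c : ℝ, 0 < c ∧ ∀ᶠ N : ℕ in atTop, ∃ v : V,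
  n1 v ≤ N ∧ Real.exp (c * Real.log N ^ γ) ≤ p.Vr v

/-- the final statement -/
def St_FIN (γ : ℝ) : Prop :=
  ∀ a m : ℝ≥0, 0 < a → ∃ p₀ : ℝ≥0∞, 0 < p₀ ∧
    ∀ (F : Measure ℝ≥0) [IsProbabilityMeasure F] (r : ℝ≥0),
      MemLp (fun t : ℝ≥0 => (t : ℝ)) 2 F → ∫ t, (t : ℝ) ∂F ≤ m → F (Set.Iio a) ≤ 1 / 1000 →
      F (Set.Iio r) = 0 → (∀ s, r < s → 0 < F (Set.Iic s)) → F {r} < p₀ →
      ∃ c : ℝ, 0 < c ∧ ∀ᶠ N : ℕ in atTop, ∃ v : Fin 3 → ℤ, (∀ i, |v i| ≤ N) ∧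
        ENNReal.ofReal (Real.exp (c * Real.log N ^ γ)) ≤
          evariance (fun τ => passage τ 0 v)
            (Measure.infinitePi fun _ : (lattice 3).edgeSet => F)

end Pool.Agent.Lib.T3S
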