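import Pool.Agent.Lib.T3S.Blue

/-! Row ARITH: choice of the parameters in dimension three. -/

namespace Pool.Agent.Lib.T3S

namespace ARITH

lemma pow_four_le (n : ℕ) (h : 16 ≤ n) : n ^ 4 ≤ 2 ^ n := by
  induction n, h using Nat.le_induction with
  | base => norm_num
  | succ n hn ih =>
    have h1 : 16 * (n + 1) ≤ 17 * n := by omega
    have h2 : (16 * (n + 1)) ^ 4 ≤ (17 * n) ^ 4 := Nat.pow_le_pow_left h1 4
    rw [mul_pow, mul_pow] at h2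
    rw [pow_succ 2 n]
    omega

lemma eight_le (n : ℕ) (h : 6 ≤ n) : 8 * n ≤ 2 ^ n := by
  induction n, h using Nat.le_induction with
  | base => norm_num
  | succ n hn ih =>
    rw [pow_succ 2 n]
    omega

lemma cube_mul_le (n N : ℕ) (h : 4 * N + 16 ≤ n) : n ^ 3 * 2 ^ N ≤ 2 ^ n := by
  have h1 := Nat.pow_le_pow_left (pow_four_le n (by omega)) 3
  have h2 : 2 ^ (4 * N) ≤ 2 ^ n := Nat.pow_le_pow_right (by norm_num) (by omega)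
  have h3 : (n ^ 3 * 2 ^ N) ^ 4 ≤ (2 ^ n) ^ 4 := by
    calc (n ^ 3 * 2 ^ N) ^ 4 = (n ^ 4) ^ 3 * 2 ^ (4 * N) := by ring
      _ ≤ (2 ^ n) ^ 3 * 2 ^ n := Nat.mul_le_mul h1 h2
      _ = (2 ^ n) ^ 4 := by ring
  exact (Nat.pow_le_pow_iff_left (by norm_num)).1 h3

lemma third (C₀ m a ρ : ℕ) (h : 4 * (11 + 3 * (1 + C₀ + m) + a) + 16 ≤ ρ) :
    2000 * (2 * C₀ * 2 ^ m * ρ) ^ 3 * 2 ^ a ≤ 2 ^ ρ := by
  have h1 := cube_mul_le ρ _ h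
  have h2 : C₀ ≤ 2 ^ C₀ := Nat.lt_two_pow_self.le
  have h3 : 2 * C₀ * 2 ^ m * ρ ≤ 2 * 2 ^ C₀ * 2 ^ m * ρ :=
    Nat.mul_le_mul_right _ (Nat.mul_le_mul_right _ (Nat.mul_le_mul_left _ h2))
  calc 2000 * (2 * C₀ * 2 ^ m * ρ) ^ 3 * 2 ^ a
      ≤ 2048 * (2 * 2 ^ C₀ * 2 ^ m * ρ) ^ 3 * 2 ^ a :=
        Nat.mul_le_mul_right _ (Nat.mul_le_mul (by norm_num) (Nat.pow_le_pow_left h3 3))
    _ = ρ ^ 3 * 2 ^ (11 + 3 * (1 + C₀ + m) + a) := by ring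
    _ ≤ 2 ^ ρ := h1

lemma fourth (C₀ m n ρ ν : ℕ) (h : 2 + (4 * C₀ + 6 + m) * n + ρ ≤ ν) :
    3 * (((4 * C₀ + 6) * 2 ^ m) ^ n * ρ) ≤ 2 ^ ν := by
  have h1 : 4 * C₀ + 6 ≤ 2 ^ (4 * C₀ + 6) := Nat.lt_two_pow_self.le
  have h2 : ρ ≤ 2 ^ ρ := Nat.lt_two_pow_self.le
  have h3 : (4 * C₀ + 6) * 2 ^ m ≤ 2 ^ (4 * C₀ + 6 + m) := by
    rw [pow_add 2 (4 * C₀ + 6) m]
    exact Nat.mul_le_mul_right _ h1
  refine le_trans ?_ (Nat.pow_le_pow_right (by norm_num) h)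
  rw [pow_add 2 _ ρ, pow_add 2 2, pow_mul, mul_assoc]
  exact Nat.mul_le_mul (by norm_num) (Nat.mul_le_mul (Nat.pow_le_pow_left h3 n) h2)

lemma expo (C₀ e g k m a r : ℕ) (hk : 1 ≤ k) (hm : m = 13 + (e + 6 * k) * (48 * k + 35))
    (ha : a = 4 + (e + 6 * k) * (24 * k + 25)) (hr : r = 4 * (11 + 3 * (1 + C₀ + m) + a) + 16) :
    8 * (6 * k + g + (2 + (4 * C₀ + 6 + m) * (2 * k) + r + g + k) + 6 +
      (e + 6 * k) * (3 * (2 * k) + 6)) ≤ 8 * (10000 + 20 * C₀ + 2000 * e + 2 * g) * k ^ 3 := by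
  have k2 : k ≤ k ^ 2 := by nlinarith
  have k3 : k ^ 2 ≤ k ^ 3 := Nat.pow_le_pow_right hk (by norm_num)
  have e1 : e ≤ e * k := Nat.le_mul_of_pos_right e hk
  have e2 : e * k ≤ e * k ^ 2 := Nat.mul_le_mul_left e k2
  have e3 : e * k ^ 2 ≤ e * k ^ 3 := Nat.mul_le_mul_left e k3
  have c1 : C₀ ≤ C₀ * k := Nat.le_mul_of_pos_right C₀ hk
  have c3 : C₀ * k ≤ C₀ * k ^ 3 := Nat.mul_le_mul_left C₀ (k2.trans k3)
  have g3 : g ≤ g * k ^ 3 := Nat.le_mul_of_pos_right g (hk.trans (k2.trans k3))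
  subst hm ha hr
  linarith

lemma last {C δ : ℝ} (hC : 1 ≤ C) (hδ : 0 < δ) (A k L : ℕ) (h16 : 16 ≤ k)
    (hk : 20 * C * (1 + A) ≤ δ * k) (hL : L ≤ A * k ^ 3) :
    20 * k * (C * (2 ^ k + L)) ≤ δ * 4 ^ k := by
  have h4 := pow_four_le k h16
  have h3 : k ^ 3 ≤ 2 ^ k := (Nat.pow_le_pow_right (by omega) (by norm_num)).trans h4
  have h2 : k * k ≤ 2 ^ k := by
    rw [← sq]
    exact (Nat.pow_le_pow_right (by omega) (by norm_num)).trans h4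
  have a1 : (L : ℝ) ≤ A * 2 ^ k := by exact_mod_cast hL.trans (Nat.mul_le_mul_left A h3)
  have a2 : (k : ℝ) * k ≤ 2 ^ k := by exact_mod_cast h2
  have a3 : (4 : ℝ) ^ k = 2 ^ k * 2 ^ k := by
    rw [← mul_pow]
    norm_num
  have k0 : (0 : ℝ) ≤ k := Nat.cast_nonneg k
  have p0 : (0 : ℝ) < 2 ^ k := by positivity
  calc 20 * (k : ℝ) * (C * (2 ^ k + L)) ≤ 20 * k * (C * (2 ^ k + A * 2 ^ k)) := by gcongr
    _ = 20 * C * (1 + A) * (k * 2 ^ k) := by ring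
    _ ≤ δ * k * (k * 2 ^ k) := by gcongr
    _ = δ * (k * k * 2 ^ k) := by ring
    _ ≤ δ * (2 ^ k * 2 ^ k) := by gcongr
    _ = δ * 4 ^ k := by rw [a3]

lemma ninth {C : ℝ} {g k l W b : ℕ} (hC : C ≤ 2 ^ g) (hW : 8 * l ≤ W)
    (hl : 6 + g + k + b ≤ l) :
    32 * (C * ((2 ^ l : ℕ) : ℝ) ^ 6 * (2 ^ k / 2 ^ W + (1 / 2) ^ (8 * l))) ≤ (1 / 2) ^ b := by
  have h1 : (2 : ℝ) ^ k / 2 ^ W ≤ 2 ^ k / 2 ^ (8 * l) := by
    gcongr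
    norm_num
  have h2 : (1 / 2 : ℝ) ^ (8 * l) ≤ 2 ^ k / 2 ^ (8 * l) := by
    rw [one_div_pow]
    gcongr
    exact one_le_pow₀ (by norm_num)
  have h3 : (2 : ℝ) ^ (6 + g + k + b + 6 * l) ≤ 2 ^ (8 * l) :=
    pow_le_pow_right₀ (by norm_num) (by omega)
  calc 32 * (C * ((2 ^ l : ℕ) : ℝ) ^ 6 * (2 ^ k / 2 ^ W + (1 / 2) ^ (8 * l)))
      ≤ 32 * (2 ^ g * ((2 ^ l : ℕ) : ℝ) ^ 6 * (2 ^ k / 2 ^ (8 * l) + 2 ^ k / 2 ^ (8 * l))) := by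
        gcongr
    _ = 2 ^ (6 + g + k + b + 6 * l) / 2 ^ (8 * l) / 2 ^ b := by
        push_cast
        field_simp
        ring
    _ ≤ 1 / 2 ^ b := by
        gcongr
        exact (div_le_one (by positivity)).2 h3
    _ = (1 / 2) ^ b := by rw [one_div_pow]

end ARITH

theorem bARITH : St_ARITH := by
  intro c₀ C δ C₀ h0 _ hC hδ
  obtain ⟨e, he⟩ := exists_pow_lt_of_lt_one h0 (show (1 / 2 : ℝ) < 1 by norm_num)
  obtain ⟨g, hg⟩ := pow_unbounded_of_one_lt C (show (1 : ℝ) < 2 by norm_num)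
  obtain ⟨A, hA⟩ : ∃ A : ℕ, A = 8 * (10000 + 20 * C₀ + 2000 * e + 2 * g) := ⟨_, rfl⟩
  obtain ⟨k₁, hk₁⟩ := exists_nat_ge (20 * C * (1 + A) / δ)
  refine ⟨A, k₁ + 16, fun k hk => ?_⟩
  have hkδ : 20 * C * (1 + A) ≤ δ * k := by
    rw [div_le_iff₀ hδ] at hk₁
    have : (k₁ : ℝ) ≤ k := by exact_mod_cast (by omega : k₁ ≤ k)
    nlinarith
  have hθ : (1 / 2 : ℝ) ^ (e + 6 * k) ≤ c₀ / 64 ^ k := by
    have h4 : (64 : ℝ) ^ k = 2 ^ (6 * k) := by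
      rw [pow_mul]
      norm_num
    rw [h4, pow_add, le_div_iff₀ (by positivity), mul_assoc, ← mul_pow]
    norm_num
    simpa using he.le
  have hp : ∀ n : ℕ, (1 / 2 : ℝ) ^ ((e + 6 * k) * n) ≤ (c₀ / 64 ^ k) ^ n := fun n => by
    rw [pow_mul]
    exact pow_le_pow_left₀ (by positivity) hθ n
  have hinv : ∀ n : ℕ, (1 / 2 : ℝ) ^ n * 2 ^ n = 1 := fun n => by
    rw [← mul_pow]
    norm_num
  obtain ⟨m, hm⟩ : ∃ m : ℕ, m = 13 + (e + 6 * k) * (48 * k + 35) := ⟨_, rfl⟩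
  obtain ⟨a, ha⟩ : ∃ a : ℕ, a = 4 + (e + 6 * k) * (24 * k + 25) := ⟨_, rfl⟩
  obtain ⟨r, hr⟩ : ∃ r : ℕ, r = 4 * (11 + 3 * (1 + C₀ + m) + a) + 16 := ⟨_, rfl⟩
  have hE := ARITH.expo C₀ e g k m a r (by omega) hm ha hr
  rw [← hA] at hE
  obtain ⟨ν, hν⟩ : ∃ ν : ℕ, ν = 2 + (4 * C₀ + 6 + m) * (2 * k) + r + g + k := ⟨_, rfl⟩
  obtain ⟨l, hl⟩ : ∃ l : ℕ, l = 6 * k + g + ν + 6 + (e + 6 * k) * (3 * (2 * k) + 6) := ⟨_, rfl⟩
  rw [← hν, ← hl] at hE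
  have two : ∀ {i j : ℕ}, i ≤ j → (2 : ℝ) ^ i ≤ 2 ^ j := fun h =>
    pow_le_pow_right₀ (by norm_num) h
  refine ⟨2 ^ m, r, 2 ^ ν, 2 ^ l, 8 * l, by omega, ?_, fun ρ hρ => ?_,
    ARITH.fourth C₀ m (2 * k) r ν (by omega), ?_, ?_, ARITH.eight_le l (by omega), ?_, ?_,
    ARITH.last hC hδ A k _ (by omega) hkδ hE, by omega⟩
  · have h1 := hp (48 * k + 35)
    have h2 := hinv ((e + 6 * k) * (48 * k + 35))
    have h3 : (0 : ℝ) < 2 ^ ((e + 6 * k) * (48 * k + 35)) := by positivity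
    have h4 := mul_le_mul_of_nonneg_right h1 h3.le
    rw [h2] at h4
    have h5 : (1 / 2 * (c₀ / 64 ^ k) ^ (3 * (2 * k))) ^ 8 * (c₀ / 64 ^ k) ^ 35 *
        ((2 ^ m : ℕ) : ℝ) =
        32 * ((c₀ / 64 ^ k) ^ (48 * k + 35) * 2 ^ ((e + 6 * k) * (48 * k + 35))) := by
      rw [hm, Nat.cast_pow, Nat.cast_ofNat, pow_add (2 : ℝ) 13, pow_add _ (48 * k) 35, mul_pow,
        ← pow_mul, show 3 * (2 * k) * 8 = 48 * k by ring]
      generalize (c₀ / 64 ^ k) ^ (48 * k) = x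
      generalize (c₀ / 64 ^ k) ^ 35 = y
      generalize (2 : ℝ) ^ ((e + 6 * k) * (48 * k + 35)) = z
      ring
    rw [h5]
    linarith
  · have h1 := ARITH.third C₀ m a ρ (hr ▸ hρ)
    have h2 : (2000 : ℝ) * (2 * (C₀ : ℝ) * ((2 ^ m : ℕ) : ℝ) * ρ) ^ 3 * 2 ^ a ≤ 2 ^ ρ := by
      exact_mod_cast h1
    have h5 : (1 / 2 : ℝ) ^ a ≤
        (1 / 2 * (c₀ / 64 ^ k) ^ (3 * (2 * k))) ^ 4 * (c₀ / 64 ^ k) ^ 25 := by
      rw [ha, pow_add _ 4, mul_pow, ← pow_mul _ (3 * (2 * k)),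
        show 3 * (2 * k) * 4 = 24 * k by ring, mul_assoc, ← pow_add (c₀ / 64 ^ k)]
      exact mul_le_mul_of_nonneg_left (hp _) (by positivity)
    refine le_trans ?_ h5
    rw [one_div_pow, one_div_pow, mul_one_div, div_le_div_iff₀ (by positivity) (by positivity),
      one_mul]
    exact h2
  · have h1 := two (show g + k ≤ ν by omega)
    rw [pow_add] at h1
    rw [Nat.cast_pow, Nat.cast_ofNat]
    exact (mul_le_mul_of_nonneg_right hg.le (by positivity)).trans h1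
  · have h1 := two (show 3 * (2 * k) + (g + ν) ≤ l by omega)
    rw [pow_add, pow_add] at h1
    rw [Nat.cast_pow, Nat.cast_pow, Nat.cast_ofNat]
    exact (mul_le_mul_of_nonneg_left (mul_le_mul_of_nonneg_right hg.le (by positivity))
      (by positivity)).trans h1
  · have h1 := two (show g + l ≤ A * k ^ 3 by omega)
    rw [pow_add] at h1
    rw [Nat.cast_pow, Nat.cast_ofNat]
    exact (mul_le_mul_of_nonneg_right hg.le (by positivity)).trans h1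
  · exact (ARITH.ninth hg.le hE (by omega)).trans (hp _)

end Pool.Agent.Lib.T3S
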