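import Pool.Agent.Lib.T3S.Blue

/-! Row END: the gain cannot pass the strong lower tail. -/

namespace Pool.Agent.Lib.T3S

open MeasureTheory ProbabilityTheory Filter Topology Finset Pool.Agent.Lib.V3
open Pool.Agent.Lib.V5 (SW T Sys Kes)
open scoped NNReal ENNReal

theorem bEND (hLIN : St_LIN) (hITER : St_ITER) : St_END := by
  intro p θ t C₀ ρ₀ M n x hC hb hA hq hθ2 hρ hM hs hps hx hQ hO
  have hθ : 0 < θ := hA.1
  have hθ1 : θ ≤ 1 := hA.2.1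
  have b0 := p.b_pos
  have e1 : θ ^ (3 * n + 6) ≤ θ ^ (3 * n) := pow_le_pow_of_le_one hθ.le hθ1 (by omega)
  have e2 : θ ^ (3 * n + 6) ≤ θ ^ 6 := pow_le_pow_of_le_one hθ.le hθ1 (by omega)
  have hG := hITER p (2 * p.b) (1 / 2) θ (2 ^ n * p.d) C₀ ρ₀ M n (by linarith) (hLIN p.toSys) hC
    (by linarith) hA hq hθ2 le_rfl hρ (by norm_num) (by norm_num) (by linarith) hM hs
    0 x (1 / 2) t (by rwa [sub_zero]) le_rfl le_rfl hQ hO
  by_contra hc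
  have hΛ : n1 (x - 0) ≤ p.Λ :=
    (le_mul_of_one_le_left (n1_nonneg _) (one_le_pow₀ one_le_two)).trans hO.1
  have hsub := p.toPar.pr_mono (A := {τ | T τ 0 x ≤ t - (2 ^ n - 1) * p.d / 2})
    (B := {τ | ∃ y, n1 (y - 0) ≤ p.Λ ∧ T τ 0 y < p.ρ (y - 0) + p.ψ (y - 0) - p.S})
    fun τ (hτ : T τ 0 x ≤ t - (2 ^ n - 1) * p.d / 2) => ⟨x, hΛ, by
      have h1 := p.ψ_nonneg (x - 0)
      have h2 := not_le.1 hc
      rw [sub_zero] at h1 ⊢
      linarith⟩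
  have e3 := (hG.trans hsub).trans (p.out 0)
  have e4 : 0 < θ ^ 6 := pow_pos hθ 6
  linarith

end Pool.Agent.Lib.T3S
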