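import Pool.Agent.Lib.T3S.Blue
import Pool.Agent.Lib.V3.Prob

/-! Row PLANT: a second moment bound for independent local events. -/

namespace Pool.Agent.Lib.T3S

open MeasureTheory ProbabilityTheory Filter Topology Finset Pool.Agent.Lib.V3
open scoped NNReal ENNReal

namespace PLANT

/-- the indicator function of an event -/
noncomputable def ch (A : Set Cfg) : Cfg → ℝ := A.indicator fun _ => 1

theorem ch_nice {A : Set Cfg} (hA : MeasurableSet A) : Nice (ch A) := V3.Nice.ind hA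

theorem ch_mul (A C : Set Cfg) (τ : Cfg) : ch A τ * ch C τ = ch (A ∩ C) τ := by
  by_cases h1 : τ ∈ A <;> by_cases h2 : τ ∈ C <;> simp [ch, h1, h2]

theorem ch_int (p : Par) {A : Set Cfg} (hA : MeasurableSet A) : ∫ τ, ch A τ ∂p.P = p.pr A :=
  p.int_ind hA

theorem ch_abs (A : Set Cfg) (τ : Cfg) : |ch A τ| ≤ 1 := by
  by_cases h : τ ∈ A <;> simp [ch, h]

/-- pairwise independent events, each of which makes `B` likely -/
theorem second (p : Par) {ι : Type} (S : Finset ι) (Φ : ι → Set Cfg) (B : Set Cfg) (c φ δ : ℝ)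
    (hφ : 0 < φ) (hδ : 0 < δ) (mB : MeasurableSet B) (mΦ : ∀ i ∈ S, MeasurableSet (Φ i))
    (lo : ∀ i ∈ S, φ ≤ p.pr (Φ i))
    (ind : ∀ i ∈ S, ∀ j ∈ S, i ≠ j → p.pr (Φ i ∩ Φ j) = p.pr (Φ i) * p.pr (Φ j))
    (hB : ∀ i ∈ S, c * p.pr (Φ i) ≤ p.pr (B ∩ Φ i)) (hM : 1 ≤ δ ^ 2 * S.card * φ) :
    c ≤ p.pr B + δ := by
  classical
  have := p.prob
  set M : ℝ := ((S.card : ℕ) : ℝ) with hMd
  have M0 : 0 < M := by
    rcases (Nat.cast_nonneg S.card : (0 : ℝ) ≤ M).eq_or_lt with h | h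
    · rw [hMd, ← h] at hM
      linarith
    · exact h
  set f : ι → ℝ := fun i => p.pr (Φ i) with hf
  have f0 : ∀ i ∈ S, 0 < f i := fun i hi => hφ.trans_le (lo i hi)
  set Y : ι → Cfg → ℝ := fun i τ => (f i)⁻¹ * ch (Φ i) τ - 1 with hY
  have n1 : ∀ i ∈ S, ∀ a : ℝ, Nice fun τ => a * ch (Φ i) τ := fun i hi a =>
    (V3.Nice.const a).mul (ch_nice (mΦ i hi))
  have nY : ∀ i ∈ S, Nice (Y i) := fun i hi => (n1 i hi _).sub (V3.Nice.const 1)
  have cov : ∀ i ∈ S, ∀ j ∈ S,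
      ∫ τ, Y i τ * Y j τ ∂p.P = (f i)⁻¹ * (f j)⁻¹ * p.pr (Φ i ∩ Φ j) - 1 := by
    intro i hi j hj
    have e : (fun τ => Y i τ * Y j τ) = fun τ => (((f i)⁻¹ * (f j)⁻¹) * ch (Φ i ∩ Φ j) τ
        - (f i)⁻¹ * ch (Φ i) τ) - ((f j)⁻¹ * ch (Φ j) τ - 1) := by
      funext τ
      rw [← ch_mul]
      simp only [hY]
      ring
    have mij := (mΦ i hi).inter (mΦ j hj)
    have a1 : Nice fun τ => ((f i)⁻¹ * (f j)⁻¹) * ch (Φ i ∩ Φ j) τ :=
      (V3.Nice.const _).mul (ch_nice mij)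
    rw [e, integral_sub ((a1.sub (n1 i hi _)).int _) ((nY j hj).int _),
      integral_sub (a1.int _) ((n1 i hi _).int _),
      integral_sub ((n1 j hj _).int _) (integrable_const _), integral_const_mul,
      integral_const_mul, integral_const_mul, ch_int p mij, ch_int p (mΦ i hi),
      ch_int p (mΦ j hj), integral_const, probReal_univ,
      inv_mul_cancel₀ (f0 i hi).ne', inv_mul_cancel₀ (f0 j hj).ne']
    simp
  have cov2 : ∀ i ∈ S, ∀ j ∈ S, ∫ τ, Y i τ * Y j τ ∂p.P ≤ if i = j then φ⁻¹ else 0 := by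
    intro i hi j hj
    have h1 := (f0 i hi).ne'
    have h2 := (f0 j hj).ne'
    rw [cov i hi j hj]
    by_cases h : i = j
    · subst h
      rw [if_pos rfl, Set.inter_self]
      have h3 : (f i)⁻¹ * (f i)⁻¹ * f i = (f i)⁻¹ := by field_simp
      have h4 : (f i)⁻¹ ≤ φ⁻¹ := inv_anti₀ hφ (lo i hi)
      change (f i)⁻¹ * (f i)⁻¹ * f i - 1 ≤ φ⁻¹
      linarith
    · rw [if_neg h, ind i hi j hj h]
      have h3 : (f i)⁻¹ * (f j)⁻¹ * (f i * f j) = 1 := by field_simp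
      change (f i)⁻¹ * (f j)⁻¹ * (f i * f j) - 1 ≤ 0
      linarith
  have eZ : (fun τ => (∑ i ∈ S, Y i τ) ^ 2) = fun τ => ∑ i ∈ S, ∑ j ∈ S, Y i τ * Y j τ := by
    funext τ
    rw [sq, sum_mul_sum]
  have iYY : ∀ i ∈ S, ∀ j ∈ S, Integrable (fun τ => Y i τ * Y j τ) p.P := fun i hi j hj =>
    ((nY i hi).mul (nY j hj)).int _
  have iZ : Integrable (fun τ => (∑ i ∈ S, Y i τ) ^ 2) p.P := by
    rw [eZ]
    exact integrable_finsetSum _ fun i hi => integrable_finsetSum _ fun j hj => iYY i hi j hj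
  have sec : ∫ τ, (∑ i ∈ S, Y i τ) ^ 2 ∂p.P ≤ (δ * M) ^ 2 := by
    rw [eZ, integral_finsetSum _ fun i hi => integrable_finsetSum _ fun j hj => iYY i hi j hj]
    have h1 : ∀ i ∈ S, ∫ τ, ∑ j ∈ S, Y i τ * Y j τ ∂p.P ≤ δ ^ 2 * M := by
      intro i hi
      rw [integral_finsetSum _ fun j hj => iYY i hi j hj]
      refine (sum_le_sum fun j hj => cov2 i hi j hj).trans ?_
      rw [sum_ite_eq, if_pos hi, inv_eq_one_div, div_le_iff₀ hφ]
      exact hM
    refine (sum_le_sum h1).trans (le_of_eq ?_)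
    rw [sum_const, nsmul_eq_mul]
    ring
  have iβχ : ∀ i ∈ S, Integrable (fun τ => (f i)⁻¹ * (ch B τ * ch (Φ i) τ)) p.P := fun i hi =>
    ((V3.Nice.const _).mul ((ch_nice mB).mul (ch_nice (mΦ i hi)))).int _
  have low : ∀ i ∈ S, c ≤ ∫ τ, (f i)⁻¹ * (ch B τ * ch (Φ i) τ) ∂p.P := by
    intro i hi
    rw [integral_const_mul]
    simp only [ch_mul]
    rw [ch_int p (mB.inter (mΦ i hi)), ← div_eq_inv_mul, le_div_iff₀ (f0 i hi)]
    exact hB i hi
  have dM : 0 < δ * M := mul_pos hδ M0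
  have pw : ∀ τ, ∑ i ∈ S, (f i)⁻¹ * (ch B τ * ch (Φ i) τ)
      ≤ M * ch B τ + ((2 * (δ * M))⁻¹ * (∑ i ∈ S, Y i τ) ^ 2 + δ * M / 2) := by
    intro τ
    have e : ∑ i ∈ S, (f i)⁻¹ * (ch B τ * ch (Φ i) τ) = M * ch B τ + ch B τ * ∑ i ∈ S, Y i τ := by
      simp only [hY, sum_sub_distrib, sum_const, nsmul_eq_mul, mul_sub, mul_sum]
      rw [← hMd]
      have : ∀ i ∈ S, (f i)⁻¹ * (ch B τ * ch (Φ i) τ) = ch B τ * ((f i)⁻¹ * ch (Φ i) τ) :=
        fun i _ => by ring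
      rw [sum_congr rfl this]
      ring
    rw [e]
    generalize ∑ i ∈ S, Y i τ = Z
    have h2 : ch B τ * Z ≤ |Z| := by
      calc ch B τ * Z ≤ |ch B τ * Z| := le_abs_self _
        _ = |ch B τ| * |Z| := abs_mul _ _
        _ ≤ 1 * |Z| := mul_le_mul_of_nonneg_right (ch_abs B τ) (abs_nonneg _)
        _ = |Z| := one_mul _
    have h3 : |Z| ≤ (2 * (δ * M))⁻¹ * Z ^ 2 + δ * M / 2 := by
      rw [← sq_abs Z, ← div_eq_inv_mul, div_add_div _ _ (by positivity) (by norm_num),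
        le_div_iff₀ (by positivity)]
      nlinarith [sq_nonneg (|Z| - δ * M)]
    linarith
  have k1 : Integrable (fun τ => (2 * (δ * M))⁻¹ * (∑ i ∈ S, Y i τ) ^ 2 + δ * M / 2) p.P :=
    (iZ.const_mul _).add (integrable_const _)
  have k2 : Integrable (fun τ => M * ch B τ) p.P := ((ch_nice mB).int _).const_mul _
  have fin := integral_mono (integrable_finsetSum _ iβχ) (k2.add k1) pw
  simp only [Pi.add_apply] at fin
  rw [integral_finsetSum _ iβχ, integral_add k2 k1,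
    integral_add (iZ.const_mul _) (integrable_const _), integral_const_mul, integral_const_mul,
    integral_const, probReal_univ, one_smul, ch_int p mB] at fin
  have s1 : M * c ≤ ∑ i ∈ S, ∫ τ, (f i)⁻¹ * (ch B τ * ch (Φ i) τ) ∂p.P := by
    have := card_nsmul_le_sum S _ _ low
    rwa [nsmul_eq_mul] at this
  have s2 : (2 * (δ * M))⁻¹ * ∫ τ, (∑ i ∈ S, Y i τ) ^ 2 ∂p.P ≤ δ * M / 2 := by
    rw [← div_eq_inv_mul, div_le_iff₀ (by positivity)]
    nlinarith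
  have s3 : M * c ≤ M * (p.pr B + δ) := by
    have := s1.trans fin
    nlinarith
  exact le_of_mul_le_mul_left s3 M0

end PLANT

theorem bPLANT : St_PLANT := by
  intro p ι S Φ W B E β φ hφ hβ mB hS hD hM
  have key := PLANT.second p S Φ B β φ (β / 2) hφ (by positivity) mB (fun i hi => (hS i hi).1)
    (fun i hi => (hS i hi).2.2.2.2.2.1) (fun i hi j hj hij => ?_) (fun i hi => ?_) (by nlinarith)
  · linarith
  · obtain ⟨mi, -, -, -, di, -⟩ := hS i hi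
    obtain ⟨mj, -, -, -, dj, -⟩ := hS j hj
    exact p.pr_inter (E i) mi mj di fun τ τ' h =>
      dj τ τ' fun e he => h e fun hi' => Set.disjoint_left.1 (hD i hi j hj hij) hi' he
  · obtain ⟨m1, l1, m2, l2, -, -, hb, hsub⟩ := hS i hi
    have h1 := T3X.bHAR p _ _ m1 m2 l1 l2
    have h2 : p.pr (Φ i ∩ W i) ≤ p.pr (B ∩ Φ i) := p.pr_mono fun τ h => ⟨hsub h, h.1⟩
    have h3 := mul_le_mul_of_nonneg_left hb (p.pr_nonneg (Φ i))
    linarith

end Pool.Agent.Lib.T3S
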