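import Pool.Agent.Lib.T3S.B_QUANT
import Pool.Agent.Lib.T3S.B_MART
import Pool.Agent.Lib.T3S.B_MARK
import Pool.Agent.Lib.T3S.B_PEI
import Pool.Agent.Lib.T3S.B_SEG
import Pool.Agent.Lib.T3S.B_LOC
import Pool.Agent.Lib.T3S.B_PLANT
import Pool.Agent.Lib.T3S.B_DET
import Pool.Agent.Lib.T3S.B_DICH
import Pool.Agent.Lib.T3S.B_CONCAT
import Pool.Agent.Lib.T3S.B_RESET
import Pool.Agent.Lib.T3S.B_STEP
import Pool.Agent.Lib.T3S.B_ITER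
import Pool.Agent.Lib.T3S.B_END
import Pool.Agent.Lib.T3S.B_KESX
import Pool.Agent.Lib.T3S.B_GEO6
import Pool.Agent.Lib.T3S.B_CH6
import Pool.Agent.Lib.T3S.B_FASTX
import Pool.Agent.Lib.T3S.B_STRONG
import Pool.Agent.Lib.T3S.B_OFF
import Pool.Agent.Lib.T3S.B_COUNT
import Pool.Agent.Lib.T3S.B_POINT
import Pool.Agent.Lib.T3S.B_TUBE
import Pool.Agent.Lib.T3S.B_ARITH
import Pool.Agent.Lib.T3S.B_TOP
import Pool.Agent.Lib.T3S.B_RATE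
import Pool.Agent.Lib.T3S.B_FIN
import Pool.Agent.Lib.V5.B_KP
import Pool.Agent.Lib.V5.B_PRE
import Pool.Agent.Lib.V5.B_SUN
import Pool.Agent.Lib.V5.B_HALFA
import Pool.Agent.Lib.V5.B_HALF5
import Pool.Agent.Lib.V5.B_LOW5
import Pool.Agent.Lib.V5.B_LOW0
import Pool.Agent.Lib.V5.B_DEC5
import Pool.Agent.Lib.V5.B_MART5
import Pool.Agent.Lib.V5.B_CORE5
import Pool.Agent.Lib.V5.B_CUT
import Pool.Agent.Lib.V5.B_START5
import Pool.Agent.Lib.V5.B_STEP5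
import Pool.Agent.Lib.V3.B_SUM
import Pool.Agent.Lib.V3.B_WIN
import Pool.Agent.Lib.V3.B_PC
import Pool.Agent.Lib.V3Q.B_HALVE

/-! Assembly: the iterated variance bound in dimension three. -/

namespace Pool.Agent.Lib.T3S

theorem st_CH6 : St_CH6 :=
  bCH6 (V5.bHALF5 (V5.bHALFA V3.bSUM)) (V5.bLOW5 V3.bSUM)
    (V5.bSTEP5 (V5.bCORE5 V3.bWIN (V5.bDEC5 V5.bSUN) V5.bMART5))
    (V5.bSTART5 (V5.bCUT (V5.bDEC5 V5.bSUN) V5.bLOW0)) V3.bCHAIN2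

theorem st_DICH : St_DICH := bDICH bQUANT bPEI (bDET bSEG) (bMARK bMART)

theorem st_END : St_END :=
  bEND bLIN (bITER (bSTEP (bCONCAT st_DICH) (bRESET st_DICH (bLOC bPEI) bPLANT)))

theorem st_TUBE : St_TUBE := bTUBE (bPOINT bGEO6 st_CH6 (bFASTX bPLANT) bSTRONG bOFF) bCOUNT

theorem st_FIN : St_FIN (1 / 3) :=
  bFIN V3.bPC V5.bKP V5.bPRE (bKESX bPEI) _ (bRATE (bTOP bQUANT st_END st_TUBE bARITH))

end Pool.Agent.Lib.T3S
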