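import Pool.Agent.Lib.T3S.Blue

/-! Iteration of the round inside the tube. -/

namespace Pool.Agent.Lib.T3S

open MeasureTheory ProbabilityTheory Filter Topology Finset Pool.Agent.Lib.V3
open Pool.Agent.Lib.V5 (SW T Sys Kes)
open scoped NNReal ENNReal

namespace ITER

lemma gain_zero (p : Tb) (j : ℕ) (ρ π θ : ℝ) (hπ : 0 < π) (h0 : 0 ≤ θ) (h1 : θ ≤ 1) :
    Gain p j 0 ρ π 2 (θ ^ 6) := by
  intro u v α t _ hα hα' hq _
  have ha : 0 ≤ α := hπ.le.trans hα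
  have h6 : θ ^ 6 ≤ 1 := pow_le_one₀ h0 h1
  have h2 : α ^ 2 ≤ α := by nlinarith
  have h3 : θ ^ 6 * α ^ 2 ≤ 1 * α := mul_le_mul h6 h2 (sq_nonneg α) zero_le_one
  rw [sub_zero]
  exact (h3.trans_eq (one_mul α)).trans hq.2

end ITER

theorem bITER (hS : T3S.St_STEP) : T3S.St_ITER := by
  intro p K π θ H C₀ ρ₀ M n hK hL hC hKC hA hq hθ hH hρ hπ hπ1 hs hM hP
  have h0 : 0 < θ := hA.1
  have h1 : θ ≤ 1 := hA.2.1
  have hd : 0 < p.d := p.d_pos
  induction n generalizing π with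
  | zero =>
    have e : ((2 : ℝ) ^ 0 - 1) * p.d / 2 = 0 := by simp
    rw [e]
    exact ITER.gain_zero p _ _ π θ hπ h0.le h1
  | succ n ih =>
    have e3 : π * θ ^ 3 * θ ^ (3 * n) = π * θ ^ (3 * (n + 1)) := by ring
    have hpow : (0 : ℝ) < 2 ^ n := by positivity
    have hH' : 2 ^ n * p.d ≤ H := by
      have : (2 : ℝ) ^ (n + 1) * p.d = 2 * (2 ^ n * p.d) := by ring
      have h2 : 0 < (2 : ℝ) ^ n * p.d := mul_pos hpow hd
      linarith
    have hπ3 : π * θ ^ 3 ≤ 1 := mul_le_one₀ hπ1 (by positivity) (pow_le_one₀ h0.le h1)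
    have hG := ih (π * θ ^ 3) hH' (by positivity) hπ3 (by rw [e3]; exact hs)
      (by rw [e3]; exact hM) (by rw [e3]; exact hP)
    have hle : π * θ ^ (3 * (n + 1)) ≤ π :=
      mul_le_of_le_one_right hπ.le (pow_le_one₀ h0.le h1)
    have hpos : 0 ≤ π * θ ^ (3 * (n + 1)) := by positivity
    have hM1 : 1 ≤ M := by
      rcases Nat.eq_zero_or_pos M with h | h
      · rw [h, Nat.cast_zero, mul_zero] at hM
        linarith
      · exact h
    have hρn : ρ₀ ≤ ((4 * C₀ + 6) * M) ^ n * ρ₀ :=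
      Nat.le_mul_of_pos_left _ (Nat.pow_pos (Nat.mul_pos (Nat.succ_pos _) hM1))
    have h1n : (1 : ℝ) ≤ 2 ^ n := one_le_pow₀ one_le_two
    have hM' : 32 ≤ π ^ 8 * θ ^ 35 * M :=
      hM.trans (mul_le_mul_of_nonneg_right (mul_le_mul_of_nonneg_right
        (pow_le_pow_left₀ hpos hle 8) (by positivity)) (Nat.cast_nonneg M))
    have hP' := (hP _ hρn).trans (mul_le_mul_of_nonneg_right
        (pow_le_pow_left₀ hpos hle 4) (show 0 ≤ θ ^ 25 by positivity))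
    have hg : 0 ≤ ((2 : ℝ) ^ n - 1) * p.d / 2 :=
      div_nonneg (mul_nonneg (sub_nonneg.2 h1n) hd.le) zero_le_two
    have hgH : 2 * (((2 : ℝ) ^ n - 1) * p.d / 2) + p.d ≤ H := by
      have : 2 * (((2 : ℝ) ^ n - 1) * p.d / 2) + p.d = 2 ^ n * p.d := by ring
      rw [this]
      exact hH'
    have hs' : 16 * p.ps ≤ π * θ ^ 3 := by
      refine hs.trans ?_
      rw [← e3]
      exact mul_le_of_le_one_right (by positivity) (pow_le_one₀ h0.le h1)
    have := hS p (3 * n) K _ π θ H C₀ _ M hK hL hC hKC hA hq hθ hg hgH (hρ.trans hρn) hπ hπ1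
      hs' hM' hP' hG
    have e1 : 2 * (((2 : ℝ) ^ n - 1) * p.d / 2) + p.d / 2 = (2 ^ (n + 1) - 1) * p.d / 2 := by ring
    have e2 : (4 * C₀ + 6) * M * (((4 * C₀ + 6) * M) ^ n * ρ₀) =
        ((4 * C₀ + 6) * M) ^ (n + 1) * ρ₀ := by ring
    rw [e1, e2] at this
    exact this

end Pool.Agent.Lib.T3S
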